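import Pool.Agent.Q139.EB.Curve
import Pool.Agent.Q1.SL.UnifA

/-!
Points and curves given by iterated linear differential equations over a base on affine varieties
of bounded degree.
-/

set_option autoImplicit false

namespace Pool.Agent.Q139.EB

open Filter Set MvPolynomial Pool.Agent.TH143 Pool.Agent.Y377.EL Pool.Agent.Y377.IL
  Pool.Agent.Y377.ST Pool.Agent.Q1.SL

/-- a Laurent curve through the point -/
theorem rat_pointBA {K : Type} [Field K] [Algebra ℂ K] {D : Derivation ℂ K K} (hC : Cst D)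
    {q s r e e0 n : ℕ} {b : Fin q → K} (hb : AutoF D e0 b) {x : Fin n → K}
    (hx : BVecF D s r e b x) {u : Fin n} (hu : ¬ IsAlgebraic (fldB b) (x u)) :
    ∃ (M : Type) (_ : Field M) (_ : Algebra ℂ M) (q : Fin n → RatFunc M) (m : ℕ)
      (p : Fin n → Polynomial M),
      (∀ G : MvPolynomial (Fin n) ℂ, aeval q G = 0 ↔ aeval x G = 0) ∧
      (∀ j, q j * RatFunc.X ^ m = algebraMap (Polynomial M) (RatFunc M) (p j)) ∧
      ∃ i, ∀ c : M, q i ≠ algebraMap M (RatFunc M) c := by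
  classical
  obtain ⟨R, hR, hmem⟩ := hx.tow
  let t : Finset K := Finset.univ.image x
  have hF : RatFam R t := by
    refine hyp.main hC (fldB_good hb) hR (fun a ha => ?_) ⟨x u, ?_, hu⟩
    · obtain ⟨j, -, rfl⟩ := Finset.mem_image.1 ha
      exact le_frac R (hmem j)
    · exact Finset.mem_image_of_mem _ (Finset.mem_univ u)
  obtain ⟨S0, M, i1, i2, φ, -, h2, h3, ⟨z, hz, hzc⟩, h4⟩ := hF
  have hm : ∀ j, x j ∈ S0 := fun j =>
    h3 _ (Finset.mem_image_of_mem _ (Finset.mem_univ j)) (hmem j)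
  let w : Fin n → frac S0 := fun j => ⟨x j, le_frac S0 (hm j)⟩
  choose p k hpk using fun j => h4 (w j) (hm j)
  refine ⟨M, i1, i2, fun j => φ (w j), ∑ j, k j,
    fun j => p j * Polynomial.X ^ (∑ i ∈ Finset.univ.erase j, k i), fun G => ?_, fun j => ?_, ?_⟩
  · have h5 : aeval (fun j => φ (w j)) G = φ (aeval w G) :=
      (MvPolynomial.comp_aeval_apply (f := w) φ G).symm
    have h6 : ((aeval w G : frac S0) : K) = aeval x G :=
      MvPolynomial.comp_aeval_apply (f := w) (frac S0).val G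
    rw [h5, map_eq_zero_iff φ φ.toRingHom.injective, ← Subtype.coe_inj, h6]
    rfl
  · have h5 : ∑ i, k i = k j + ∑ i ∈ Finset.univ.erase j, k i :=
      (Finset.add_sum_erase Finset.univ k (Finset.mem_univ j)).symm
    rw [h5, pow_add, ← mul_assoc, hpk, map_mul, map_pow, RatFunc.algebraMap_X]
  · obtain ⟨i, -, hi⟩ := Finset.mem_image.1 hz
    refine ⟨i, fun c hc => hzc c ?_⟩
    have h5 : w i = z := Subtype.ext hi
    rw [← h5]
    exact hc

/-- **Uniform degrees of Laurent curves over a base.** -/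
theorem baseA_uniform_diff (n D q e0 s r e : ℕ) : ∃ d : ℕ,
    ∀ (S : Set (MvPolynomial (Fin n) ℂ)) (G : MvPolynomial (Fin n) ℂ),
      (∀ F ∈ S, F.totalDegree ≤ D) → G.totalDegree ≤ D → LauIn S G d →
      ∀ (K : Type) [Field K] [Algebra ℂ K] (D : Derivation ℂ K K), Cst D →
        ∀ b : Fin q → K, AutoF D e0 b → ∀ x : Fin n → K, BVecF D s r e b x →
        (∀ F ∈ S, aeval x F = 0) → (∀ u, AlgDeg d b (x u) 1) ∨ aeval x G = 0 := by
  classical
  by_contra hcon
  have hC : ∀ d : ℕ, ∃ (S : Set (MvPolynomial (Fin n) ℂ))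
      (G : MvPolynomial (Fin n) ℂ) (K : Type) (_ : Field K) (_ : Algebra ℂ K)
      (D1 : Derivation ℂ K K) (b : Fin q → K) (x : Fin n → K),
      (∀ F ∈ S, F.totalDegree ≤ D) ∧ G.totalDegree ≤ D ∧ LauIn S G d ∧ Cst D1 ∧
        AutoF D1 e0 b ∧ BVecF D1 s r e b x ∧ (∀ F ∈ S, aeval x F = 0) ∧
        (∃ u, ¬ AlgDeg d b (x u) 1) ∧ aeval x G ≠ 0 := by
    intro d
    by_contra h1
    refine hcon ⟨d, ?_⟩
    intro S G h2 h3 h4 K _ _ D1 h5 b h6 x h7 h8
    by_contra h9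
    rw [not_or] at h9
    obtain ⟨h9, h10⟩ := h9
    push Not at h9
    exact h1 ⟨S, G, K, _, _, D1, b, x, h2, h3, h4, h5, h6, h7, h8, h9, h10⟩
  choose S G K iK jK D1 b x hS hG hrat hCD hb hx hF huv hGne using hC
  obtain ⟨K', iK', jK', D', π, θ, hC', hD', hal, hker, hk, hs⟩ := exists_ultra2 D1 hCD
  let b' : Fin q → K' := fun j => π fun i => b i j
  let x' : Fin n → K' := fun j => π fun i => x i j
  have hb' : AutoF D' e0 b' := AutoF.ultra hD' hal hb
  have hx' : BVecF D' s r e b' x' := BVecF.ultra hD' hal hx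
  choose u huv using huv
  obtain ⟨u0, hp⟩ : ∃ p : Fin n, ∀ᶠ i in (hyperfilter ℕ : Filter ℕ), u i = p := by
    by_contra hno
    push Not at hno
    have h3 : ∀ᶠ i in (hyperfilter ℕ : Filter ℕ), ∀ p : Fin n, u i ≠ p :=
      eventually_all.2 fun p => hno p
    obtain ⟨i, hi⟩ := h3.exists
    exact hi _ rfl
  have hge : ∀ d0 : ℕ, ∀ᶠ i in (hyperfilter ℕ : Filter ℕ), d0 ≤ i := by
    intro d0
    have h1 : ∀ᶠ i : ℕ in cofinite, d0 ≤ i := by
      rw [Nat.cofinite_eq_atTop]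
      exact eventually_ge_atTop d0
    exact h1.filter_mono hyperfilter_le_cofinite
  have hna : ¬ IsAlgebraic (fldB b') (x' u0) := by
    intro h0
    have h0' : IsAlgebraic (fldB b') (x' u0 / 1) := by rwa [div_one]
    obtain ⟨d0, hd0⟩ := exists_algDeg one_ne_zero h0'
    have h1 := AlgDeg.los hs hal hker (b := b) (u := fun i => x i u0) (v := fun i => 1)
      (by
        have h2 : π (fun i => (1 : K i)) = 1 := map_one π
        rw [h2]
        exact hd0)
    obtain ⟨i, ⟨h2, h3⟩, h4⟩ := ((h1.and hp).and (hge d0)).exists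
    apply huv i
    rw [h3]
    exact h2.mono h4
  obtain ⟨M, j1, j2, q', m, p, hq1, hq2, hq3⟩ := rat_pointBA hC' hb' hx' hna
  have hev : ∀ (T : Finset (Fin n →₀ ℕ)) (F : ℕ → MvPolynomial (Fin n) ℂ),
      (∀ᶠ i in (hyperfilter ℕ : Filter ℕ), (F i).support ⊆ T) →
        aeval x' (limT θ T F) = π fun i => aeval (x i) (F i) := fun T F hF =>
    aeval_limT hal hker hF x
  obtain ⟨d0, hm0, hd0⟩ := key_aff hs hk hS q' m p hq2 (fun F hF' => by
    rw [hq1, hev _ F (by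
      filter_upwards [hF'] with i hi
      exact support_TD (hS i _ hi)), hker]
    filter_upwards [hF'] with i hi
    exact hF i _ hi) hq3
  have h1 := hd0 G D (Eventually.of_forall hG) (fun h0 => by
    rw [hq1, hev _ G (Eventually.of_forall fun i => support_TD (hG i)), hker] at h0
    obtain ⟨i, hi⟩ := h0.exists
    exact hGne i hi)
  obtain ⟨i, ⟨p, hp1, hp2, hp3, t, ht, hp4⟩, hi⟩ := (h1.and (hge d0)).exists
  exact hp4 (hrat i m p (hm0.trans hi) (fun j => (hp1 j).trans hi) hp2 hp3 t ht)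

/-- **The special sets over a base, affine case.** -/
theorem baseA_special_diff {n : ℕ} (S : Set (MvPolynomial (Fin n) ℂ)) (q e0 s r e : ℕ) :
    ∃ d : ℕ, ∀ G : MvPolynomial (Fin n) ℂ, LauIn S G d →
      ∀ (K : Type) [Field K] [Algebra ℂ K] (D : Derivation ℂ K K), Cst D →
        ∀ b : Fin q → K, AutoF D e0 b → ∀ x : Fin n → K, BVecF D s r e b x →
        (∀ F ∈ S, aeval x F = 0) → (∀ u, AlgDeg d b (x u) 1) ∨ aeval x G = 0 := by
  classical
  obtain ⟨S0, hS0, hS0'⟩ := exists_finite_polys S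
  obtain ⟨D, hD⟩ : ∃ D, ∀ F ∈ S0, F.totalDegree ≤ D :=
    ⟨S0.sup fun F => F.totalDegree, fun F hF =>
      Finset.le_sup (f := fun F : MvPolynomial (Fin n) ℂ => F.totalDegree) hF⟩
  by_contra hcon
  have hC : ∀ d : ℕ, ∃ (G : MvPolynomial (Fin n) ℂ) (K : Type) (_ : Field K)
      (_ : Algebra ℂ K) (D1 : Derivation ℂ K K) (b : Fin q → K) (x : Fin n → K),
      LauIn S G d ∧ Cst D1 ∧ AutoF D1 e0 b ∧ BVecF D1 s r e b x ∧ (∀ F ∈ S, aeval x F = 0) ∧
        (∃ u, ¬ AlgDeg d b (x u) 1) ∧ aeval x G ≠ 0 := by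
    intro d
    by_contra h1
    refine hcon ⟨d, ?_⟩
    intro G h4 K _ _ D1 h5 b h6 x h7 h8
    by_contra h9
    rw [not_or] at h9
    obtain ⟨h9, h10⟩ := h9
    push Not at h9
    exact h1 ⟨G, K, _, _, D1, b, x, h4, h5, h6, h7, h8, h9, h10⟩
  choose G K iK jK D1 b x hrat hCD hb hx hF huv hGne using hC
  obtain ⟨K', iK', jK', D', π, θ, hC', hD', hal, hker, hk, hs⟩ := exists_ultra2 D1 hCD
  let b' : Fin q → K' := fun j => π fun i => b i j
  let x' : Fin n → K' := fun j => π fun i => x i j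
  have hb' : AutoF D' e0 b' := AutoF.ultra hD' hal hb
  have hx' : BVecF D' s r e b' x' := BVecF.ultra hD' hal hx
  choose u huv using huv
  obtain ⟨u0, hp⟩ : ∃ p : Fin n, ∀ᶠ i in (hyperfilter ℕ : Filter ℕ), u i = p := by
    by_contra hno
    push Not at hno
    have h3 : ∀ᶠ i in (hyperfilter ℕ : Filter ℕ), ∀ p : Fin n, u i ≠ p :=
      eventually_all.2 fun p => hno p
    obtain ⟨i, hi⟩ := h3.exists
    exact hi _ rfl
  have hge : ∀ d0 : ℕ, ∀ᶠ i in (hyperfilter ℕ : Filter ℕ), d0 ≤ i := by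
    intro d0
    have h1 : ∀ᶠ i : ℕ in cofinite, d0 ≤ i := by
      rw [Nat.cofinite_eq_atTop]
      exact eventually_ge_atTop d0
    exact h1.filter_mono hyperfilter_le_cofinite
  have hna : ¬ IsAlgebraic (fldB b') (x' u0) := by
    intro h0
    have h0' : IsAlgebraic (fldB b') (x' u0 / 1) := by rwa [div_one]
    obtain ⟨d0, hd0⟩ := exists_algDeg one_ne_zero h0'
    have h1 := AlgDeg.los hs hal hker (b := b) (u := fun i => x i u0) (v := fun i => 1)
      (by
        have h2 : π (fun i => (1 : K i)) = 1 := map_one π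
        rw [h2]
        exact hd0)
    obtain ⟨i, ⟨h2, h3⟩, h4⟩ := ((h1.and hp).and (hge d0)).exists
    apply huv i
    rw [h3]
    exact h2.mono h4
  obtain ⟨M, j1, j2, q', m, p, hq1, hq2, hq3⟩ := rat_pointBA hC' hb' hx' hna
  have hev : ∀ (T : Finset (Fin n →₀ ℕ)) (F : ℕ → MvPolynomial (Fin n) ℂ),
      (∀ᶠ i in (hyperfilter ℕ : Filter ℕ), (F i).support ⊆ T) →
        aeval x' (limT θ T F) = π fun i => aeval (x i) (F i) := fun T F hF =>
    aeval_limT hal hker hF x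
  obtain ⟨d0, hm0, hd0⟩ := key_aff hs hk (S := fun _ => (S0 : Set (MvPolynomial (Fin n) ℂ)))
    (D := D) (fun i F hF => hD F hF) q' m p hq2 (fun F hF' => by
    rw [hq1, hev _ F (by
      filter_upwards [hF'] with i hi
      exact support_TD (hD _ hi)), hker]
    filter_upwards [hF'] with i hi
    exact hF i _ (hS0 _ hi)) hq3
  obtain ⟨W, hW1, hW2⟩ := exists_finite_polys {g : MvPolynomial (Fin n) ℂ | LauIn S g d0}
  have hWx : ∀ g ∈ W, ∀ᶠ i in (hyperfilter ℕ : Filter ℕ), aeval (x i) g = 0 := by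
    intro g hg
    by_contra hno
    have h1 := hd0 (fun _ => g) g.totalDegree (Eventually.of_forall fun _ => le_rfl)
      (fun h0 => by
        rw [hq1, hev _ (fun _ => g) (Eventually.of_forall fun _ => support_TD le_rfl), hker] at h0
        exact hno h0)
    obtain ⟨i, p, hp1, hp2, hp3, t, ht, hp4⟩ := h1.exists
    exact hp4 (hW1 g hg m p hm0 hp1 (fun t ht F hF => by
      have h5 := hS0' ℂ (lpt m p t) (fun F hF => by
        rw [MvPolynomial.aeval_def]
        exact hp2 t ht F hF) F hF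
      rw [MvPolynomial.aeval_def] at h5
      exact h5) hp3 t ht)
  have hWx' : ∀ᶠ i in (hyperfilter ℕ : Filter ℕ), ∀ g ∈ W, aeval (x i) g = 0 := by
    rw [Filter.eventually_all_finset]
    exact hWx
  obtain ⟨i, h2, hi⟩ := (hWx'.and (hge d0)).exists
  exact hGne i (hW2 (K i) (x i) h2 (G i) fun m p hm hp1 hp2 hp3 =>
    hrat i m p (hm.trans hi) (fun j => (hp1 j).trans hi) hp2 hp3)

/-- the constant function one -/
theorem hol_one {Ω : Set ℂ} {K : Type} [Field K] [Algebra ℂ K] (i : Hol Ω →ₐ[ℂ] K) :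
    i (toHol (fun _ => (1 : ℂ)) (analyticOnNhd_const (𝕜 := ℂ) (s := Ω))) = 1 := by
  have h3 : toHol (fun _ => (1 : ℂ)) (analyticOnNhd_const (𝕜 := ℂ) (s := Ω)) = 1 :=
    hol_ext fun z => (map_one (evz z)).symm
  rw [h3, map_one]

theorem ofF_aff {n q e0 s r e d : ℕ} {S : Set (MvPolynomial (Fin n) ℂ)}
    {G : MvPolynomial (Fin n) ℂ}
    (h : ∀ (K : Type) [Field K] [Algebra ℂ K] (D : Derivation ℂ K K), Cst D →
        ∀ b : Fin q → K, AutoF D e0 b → ∀ x : Fin n → K, BVecF D s r e b x →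
        (∀ F ∈ S, aeval x F = 0) → (∀ u, AlgDeg d b (x u) 1) ∨ aeval x G = 0)
    (Ω : Set ℂ) (hΩ : IsOpen Ω) (hΩc : IsPreconnected Ω) (b : ℂ → Fin q → ℂ)
    (hb : Auto Ω e0 b) (f : ℂ → Fin n → ℂ) (hf : BVec Ω s r e b f)
    (hF : ∀ z ∈ Ω, ∀ F ∈ S, eval (f z) F = 0) :
    (∀ z ∈ Ω, eval (f z) G = 0) ∨ ∀ u, AlgOn Ω d b (fun z => f z u) fun _ => 1 := by
  rcases Ω.eq_empty_or_nonempty with h0 | h0
  · left
    intro z hz
    rw [h0] at hz
    exact absurd hz (notMem_empty z)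
  obtain ⟨K, _, _, D, A, i, hA⟩ := exists_amb hΩ hΩc h0
  have hba : ∀ j, AnalyticOnNhd ℂ (fun z => b z j) Ω := fun j => (hb j).1
  rcases h K D hA.con _ (hb.toF hA) _ (hf.toF hΩ hA hba) (fun F hFF =>
    (vanish_iff hA.inj (f := f) (fun j => hf.an hΩ hba j) F).2 fun z hz => hF z hz F hFF) with
    h1 | h1
  · right
    intro u
    refine AlgDeg.toOn hA hba (hf.an hΩ hba u) analyticOnNhd_const ?_
    rw [hol_one]
    exact h1 u
  · left
    exact (vanish_iff hA.inj (f := f) (fun j => hf.an hΩ hba j) G).1 h1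

/-- **Uniform degrees over a base, affine case.** -/
theorem baseA_uniform (n D q e0 s r e : ℕ) : ∃ d : ℕ,
    ∀ (S : Set (MvPolynomial (Fin n) ℂ)) (G : MvPolynomial (Fin n) ℂ),
      (∀ F ∈ S, F.totalDegree ≤ D) → G.totalDegree ≤ D → LauIn S G d →
      ∀ Ω : Set ℂ, IsOpen Ω → IsPreconnected Ω → ∀ b : ℂ → Fin q → ℂ,
        Auto Ω e0 b → ∀ f : ℂ → Fin n → ℂ, BVec Ω s r e b f →
        (∀ z ∈ Ω, ∀ F ∈ S, eval (f z) F = 0) →
        (∀ z ∈ Ω, eval (f z) G = 0) ∨ ∀ u, AlgOn Ω d b (fun z => f z u) fun _ => 1 := by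
  obtain ⟨d, hd⟩ := baseA_uniform_diff n D q e0 s r e
  exact ⟨d, fun S G hS hG h => ofF_aff (hd S G hS hG h)⟩

/-- **The special sets over a base, affine case.** -/
theorem baseA_special {n : ℕ} (S : Set (MvPolynomial (Fin n) ℂ)) (q e0 s r e : ℕ) :
    ∃ d : ℕ, ∀ G : MvPolynomial (Fin n) ℂ, LauIn S G d →
      ∀ Ω : Set ℂ, IsOpen Ω → IsPreconnected Ω → ∀ b : ℂ → Fin q → ℂ,
        Auto Ω e0 b → ∀ f : ℂ → Fin n → ℂ, BVec Ω s r e b f →
        (∀ z ∈ Ω, ∀ F ∈ S, eval (f z) F = 0) →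
        (∀ z ∈ Ω, eval (f z) G = 0) ∨ ∀ u, AlgOn Ω d b (fun z => f z u) fun _ => 1 := by
  obtain ⟨d, hd⟩ := baseA_special_diff S q e0 s r e
  exact ⟨d, fun G h => ofF_aff (hd G h)⟩

end Pool.Agent.Q139.EB
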