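import Pool.Agent.Q139.EB.Main
import Pool.Agent.Q139.EB.Aff

/-!
Entire curves in affine varieties given by iterated linear differential equations over the elliptic
functions.
-/

set_option autoImplicit false

namespace Pool.Agent.Q139.EB

open Filter Topology Set MvPolynomial
open scoped LinearAlgebra.Projectivization
open Pool.Agent.TH143.EL Pool.Agent.Y377.ST Pool.Agent.Q1.SL

variable {n : ℕ}

/-- entire functions with two independent periods are constant -/
theorem const_of_periods {g : ℂ → ℂ} (hg : Differentiable ℂ g) {a b : ℂ}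
    (hab : LinearIndependent ℝ ![a, b]) (ha : ∀ z, g (z + a) = g z) (hb : ∀ z, g (z + b) = g z)
    (z w : ℂ) : g z = g w := by
  have hcard : Fintype.card (Fin 2) = Module.finrank ℝ ℂ := by
    rw [Complex.finrank_real_complex, Fintype.card_fin]
  let B := basisOfLinearIndependentOfCardEqFinrank hab hcard
  have hB0 : B 0 = a := by simp [B]
  have hB1 : B 1 = b := by simp [B]
  have hza : ∀ (k : ℤ) z, g (z + k * a) = g z := by
    intro k z
    have h1 : Function.Periodic g a := ha
    have h2 := h1.int_mul k z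
    exact h2
  have hzb : ∀ (k : ℤ) z, g (z + k * b) = g z := by
    intro k z
    have h1 : Function.Periodic g b := hb
    exact h1.int_mul k z
  apply hg.apply_eq_apply_of_bounded
  have hK : IsCompact ((fun p : ℝ × ℝ => g ((p.1 : ℂ) * a + (p.2 : ℂ) * b)) ''
      (Icc (0 : ℝ) 1 ×ˢ Icc (0 : ℝ) 1)) := by
    apply (isCompact_Icc.prod isCompact_Icc).image
    have h1 := hg.continuous
    fun_prop
  refine hK.isBounded.subset ?_
  rintro _ ⟨z, rfl⟩
  have hz : z = (B.repr z 0 : ℂ) * a + (B.repr z 1 : ℂ) * b := by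
    have h1 := B.sum_repr z
    rw [Fin.sum_univ_two, hB0, hB1] at h1
    rw [Complex.real_smul, Complex.real_smul] at h1
    exact h1.symm
  refine ⟨(Int.fract (B.repr z 0), Int.fract (B.repr z 1)),
    ⟨⟨Int.fract_nonneg _, (Int.fract_lt_one _).le⟩,
      ⟨Int.fract_nonneg _, (Int.fract_lt_one _).le⟩⟩, ?_⟩
  change g (((Int.fract (B.repr z 0) : ℝ) : ℂ) * a + ((Int.fract (B.repr z 1) : ℝ) : ℂ) * b) = g z
  have h3 : z = ((((Int.fract (B.repr z 0) : ℝ) : ℂ) * a +
      ((Int.fract (B.repr z 1) : ℝ) : ℂ) * b) + (⌊B.repr z 0⌋ : ℤ) * a) +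
      (⌊B.repr z 1⌋ : ℤ) * b := by
    have h4 : ((B.repr z 0 : ℝ) : ℂ) = ((Int.fract (B.repr z 0) : ℝ) : ℂ) +
        ((⌊B.repr z 0⌋ : ℤ) : ℂ) := by
      have h5 := Int.fract_add_floor (B.repr z 0)
      conv_lhs => rw [← h5]
      push_cast
      rfl
    have h6 : ((B.repr z 1 : ℝ) : ℂ) = ((Int.fract (B.repr z 1) : ℝ) : ℂ) +
        ((⌊B.repr z 1⌋ : ℤ) : ℂ) := by
      have h5 := Int.fract_add_floor (B.repr z 1)
      conv_lhs => rw [← h5]
      push_cast
      rfl
    conv_lhs => rw [hz]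
    rw [h4, h6]
    ring
  conv_rhs => rw [h3]
  rw [hzb, hza]

/-- the homogeneous coordinates of a point of the affine space -/
def homC (v : Fin n → ℂ) : Fin (n + 1) → ℂ := Fin.cons 1 v

theorem homC_ne (v : Fin n → ℂ) : homC v ≠ 0 := fun h => one_ne_zero (congrFun h 0)

/-- the map to the projective space -/
noncomputable def projC (f : ℂ → Fin n → ℂ) (z : ℂ) : ℙ ℂ (Fin (n + 1) → ℂ) :=
  Projectivization.mk ℂ (homC (f z)) (homC_ne _)

theorem projC_rep (f : ℂ → Fin n → ℂ) (z : ℂ) : Rep (projC f z) (homC (f z)) := ⟨homC_ne _, rfl⟩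

theorem projC_hol {f : ℂ → Fin n → ℂ} (hf : ∀ j, Differentiable ℂ fun z => f z j) :
    HolMap (projC f) := by
  intro a
  refine ⟨fun j z => homC (f z) j, fun j => ?_, Eventually.of_forall fun z => projC_rep f z⟩
  refine Fin.cases ?_ (fun j => ?_) j
  · exact analyticAt_const
  · exact (hf j).analyticAt a

theorem projC_inj {f : ℂ → Fin n → ℂ} {z w : ℂ} (h : projC f z = projC f w) : f z = f w := by
  have h1 := projC_rep f z
  rw [h] at h1
  have h2 := ((rep_iff h1).1 (projC_rep f w)).2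
  funext j
  have h3 := h2 0 j.succ
  simp only [homC, Fin.cons_zero, Fin.cons_succ, one_mul, mul_one] at h3
  exact h3.symm

/-- **Periods of finite index.** -/
theorem const_of_index (L : PeriodPair) {f : ℂ → Fin n → ℂ}
    (hf : ∀ j, Differentiable ℂ fun z => f z j) (h : (perGp L (projC f)).index ≠ 0) (z w : ℂ) :
    f z = f w := by
  funext j
  obtain ⟨m, hm, hmem⟩ : ∃ m : ℕ, 0 < m ∧ ∀ l : L.lattice, m • l ∈ perGp L (projC f) := by
    refine ⟨(perGp L (projC f)).index, Nat.pos_of_ne_zero h, fun l => ?_⟩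
    exact AddSubgroup.nsmul_index_mem _ l
  have hper : ∀ (l : L.lattice) z, f (z + ((m : ℂ) * (l : ℂ))) j = f z j := by
    intro l z
    have h1 := hmem l z
    have h2 := projC_inj h1
    have h3 : ((m • l : L.lattice) : ℂ) = (m : ℂ) * (l : ℂ) := by
      push_cast
      rw [nsmul_eq_mul]
    rw [h3] at h2
    exact congrFun h2 j
  have hm' : (m : ℝ) ≠ 0 := by
    have := hm.ne'
    exact_mod_cast this
  have hind : LinearIndependent ℝ ![(m : ℂ) * L.ω₁, (m : ℂ) * L.ω₂] := by
    have h1 := L.indep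
    rw [LinearIndependent.pair_iff] at h1 ⊢
    intro s t hst
    have h2 := h1 (s * m) (t * m) (by
      rw [← hst]
      simp only [Complex.real_smul]
      push_cast
      ring)
    exact ⟨(mul_eq_zero.1 h2.1).resolve_right hm', (mul_eq_zero.1 h2.2).resolve_right hm'⟩
  exact const_of_periods (hf j) hind (fun z => hper ⟨L.ω₁, L.ω₁_mem_lattice⟩ z)
    (fun z => hper ⟨L.ω₂, L.ω₂_mem_lattice⟩ z) z w

end Pool.Agent.Q139.EB
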