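import Pool.Agent.Q139.EB.Index

/-!
Entire curves given by iterated linear differential equations over the elliptic functions, and
finitely many tori.
-/

set_option autoImplicit false

namespace Pool.Agent.Q139.EB

open Filter Topology Set MvPolynomial
open scoped LinearAlgebra.Projectivization
open Pool.Agent.TH143.EL Pool.Agent.Y377.ST Pool.Agent.Q1.SL

variable {n : ℕ}

/-- The map `f` from the plane to the projective space lies on the projective variety of `S`. -/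
def OnV (S : Set (MvPolynomial (Fin (n + 1)) ℂ)) (f : ℂ → ℙ ℂ (Fin (n + 1) → ℂ)) : Prop :=
  ∀ z, ∀ F ∈ S, eval (f z).rep F = 0

/-- Let `Λ` be a subgroup of the lattice `L`. All nonconstant holomorphic maps from the plane to the
projective variety `X` of `S` which are invariant under `Λ` (for `Λ` of finite index: which factor
through the complex torus `ℂ / Λ`) have their image in `G = 0`. -/
def TorusIn (L : PeriodPair) (Λ : AddSubgroup L.lattice) (S : Set (MvPolynomial (Fin (n + 1)) ℂ))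
    (G : MvPolynomial (Fin (n + 1)) ℂ) : Prop :=
  ∀ g : ℂ → ℙ ℂ (Fin (n + 1) → ℂ), HolMap g → (∀ l ∈ Λ, ∀ z, g (z + (l : ℂ)) = g z) →
    OnV S g → (∃ z w, g z ≠ g w) → ∀ z, eval (g z).rep G = 0

/-- On some domain `Ω`, `f` has homogeneous coordinates given by `s` iterated linear differential
equations with matrices of size `r` and polynomials of degree at most `e` over elliptic functions
`b_1, ..., b_q` for the lattice `L`, whose derivatives are polynomials in these functions of degree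
at most `e0`. -/
def EllCurve (L : PeriodPair) (q e0 s r e : ℕ) (f : ℂ → ℙ ℂ (Fin (n + 1) → ℂ)) : Prop :=
  ∃ (Ω : Set ℂ) (b : ℂ → Fin q → ℂ) (h : ℂ → Fin (n + 1) → ℂ), IsOpen Ω ∧ IsPreconnected Ω ∧
    Ω.Nonempty ∧ EllBase L Ω e0 b ∧ BVec Ω s r e b h ∧ ∀ z ∈ Ω, Rep (f z) (h z)

theorem eval_global {f : ℂ → ℙ ℂ (Fin (n + 1) → ℂ)} (hf : HolMap f)
    {G : MvPolynomial (Fin (n + 1)) ℂ} (hG : ∃ e, G.IsHomogeneous e) {z1 : ℂ}
    (h : ∀ᶠ z in 𝓝 z1, eval (f z).rep G = 0) (z : ℂ) : eval (f z).rep G = 0 := by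
  obtain ⟨v, hv⟩ : ∃ v, (f z1).rep v ≠ 0 := by
    obtain ⟨v, hv⟩ := Function.ne_iff.1 (f z1).rep_nonzero
    exact ⟨v, hv⟩
  have hne := quo_ne hf hv
  have hm : Meromorphic fun z => eval (fun u => quo f v u z) G :=
    mero_eval (v := fun u => quo f v u) (fun u => quo_mero hf v u) G
  have h1 : ∀ᶠ z in codiscrete ℂ, eval (fun u => quo f v u z) G = 0 := by
    apply mero_id hm (x := z1)
    apply Filter.Eventually.frequently
    filter_upwards [h.filter_mono nhdsWithin_le_nhds, codis_ev hne z1] with y hy1 hy2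
    exact (rep_eval (quo_self hy2) hG).1 hy1
  apply eval_of_punct hf hG
  filter_upwards [codis_ev h1 z, codis_ev hne z] with y hy1 hy2
  exact (rep_eval (quo_self hy2) hG).2 hy1

/-- a curve which is algebraic over the elliptic functions, or lies in `G = 0` -/
theorem ell_cases {S : Set (MvPolynomial (Fin (n + 1)) ℂ)} {G : MvPolynomial (Fin (n + 1)) ℂ}
    (hS : ∀ F ∈ S, ∃ e, F.IsHomogeneous e) (hG : ∃ e, G.IsHomogeneous e) {q e0 s r e d : ℕ}
    (hd : ∀ Ω : Set ℂ, IsOpen Ω → IsPreconnected Ω → ∀ b : ℂ → Fin q → ℂ,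
      Auto Ω e0 b → ∀ f : ℂ → Fin (n + 1) → ℂ, BVec Ω s r e b f →
      (∀ z ∈ Ω, ∀ F ∈ S, eval (f z) F = 0) →
      (∀ z ∈ Ω, eval (f z) G = 0) ∨ ∀ u v, AlgOn Ω d b (fun z => f z u) fun z => f z v)
    (L : PeriodPair) {f : ℂ → ℙ ℂ (Fin (n + 1) → ℂ)} (hf : HolMap f) (hfS : OnV S f)
    (hE : EllCurve L q e0 s r e f) : (∀ z, eval (f z).rep G = 0) ∨
      ((perGp L f).index ≠ 0 ∧ (perGp L f).index ≤ d ^ (n + 1)) := by
  obtain ⟨Ω, b, h, hΩ, hΩc, hΩne, hb, hB, hr⟩ := hE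
  have hba : ∀ j, AnalyticOnNhd ℂ (fun z => b z j) Ω := fun j => (hb.auto j).1
  rcases hd Ω hΩ hΩc b hb.auto h hB (fun z hz F hF =>
    (rep_eval (hr z hz) (hS F hF)).1 (hfS z F hF)) with h1 | h1
  · left
    obtain ⟨z1, hz1⟩ := hΩne
    apply eval_global hf hG (z1 := z1)
    filter_upwards [hΩ.mem_nhds hz1] with z hz
    exact (rep_eval (hr z hz) hG).2 (h1 z hz)
  · right
    exact index_le L hf hΩ hΩne (fun j => hB.an hΩ hba j) hr hb h1

/-- **Finitely many tori, uniformly in the variety.** -/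
theorem tori_uniform (n D q e0 s r e : ℕ) : ∃ N : ℕ, ∀ (L : PeriodPair)
    (S : Set (MvPolynomial (Fin (n + 1)) ℂ)) (G : MvPolynomial (Fin (n + 1)) ℂ),
      (∀ F ∈ S, ∃ e, e ≤ D ∧ F.IsHomogeneous e) → (∃ e, e ≤ D ∧ G.IsHomogeneous e) →
      (∀ Λ : AddSubgroup L.lattice, Λ.index ≠ 0 → Λ.index ≤ N → TorusIn L Λ S G) →
      ∀ f : ℂ → ℙ ℂ (Fin (n + 1) → ℂ), HolMap f → OnV S f → EllCurve L q e0 s r e f →
        (∃ z w, f z ≠ f w) → ∀ z, eval (f z).rep G = 0 := by
  obtain ⟨d, hd⟩ := base_uniform n D q e0 s r e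
  refine ⟨max 1 (d ^ (n + 1)), ?_⟩
  intro L S G hS hG hT f hf hfS hE hnc
  have hS' : ∀ F ∈ S, ∃ e, F.IsHomogeneous e := fun F hF => by
    obtain ⟨e, -, he⟩ := hS F hF
    exact ⟨e, he⟩
  have hG' : ∃ e, G.IsHomogeneous e := by
    obtain ⟨e, -, he⟩ := hG
    exact ⟨e, he⟩
  have hrat : RatIn S G d := by
    refine ratIn_of_torus L hS' hG' (fun g h1 h2 h3 h4 => ?_) d
    exact hT ⊤ (by rw [AddSubgroup.index_top]; exact one_ne_zero)
      (by rw [AddSubgroup.index_top]; exact le_max_left _ _) g h1 (fun l _ => h2 l) h3 h4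
  rcases ell_cases hS' hG' (hd S G hS hG hrat) L hf hfS hE with h1 | ⟨h2, h3⟩
  · exact h1
  · exact hT (perGp L f) h2 (h3.trans (le_max_right _ _)) f hf (fun l hl z => hl z) hfS hnc

/-- **Finitely many tori, closed subsets of any degree.** -/
theorem tori_special (S : Set (MvPolynomial (Fin (n + 1)) ℂ))
    (hS : ∀ F ∈ S, ∃ e, F.IsHomogeneous e) (q e0 s r e : ℕ) : ∃ N : ℕ, ∀ (L : PeriodPair)
    (G : MvPolynomial (Fin (n + 1)) ℂ), (∃ e, G.IsHomogeneous e) →
      (∀ Λ : AddSubgroup L.lattice, Λ.index ≠ 0 → Λ.index ≤ N → TorusIn L Λ S G) →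
      ∀ f : ℂ → ℙ ℂ (Fin (n + 1) → ℂ), HolMap f → OnV S f → EllCurve L q e0 s r e f →
        (∃ z w, f z ≠ f w) → ∀ z, eval (f z).rep G = 0 := by
  obtain ⟨d, hd⟩ := base_special S hS q e0 s r e
  refine ⟨max 1 (d ^ (n + 1)), ?_⟩
  intro L G hG hT f hf hfS hE hnc
  have hrat : RatIn S G d := by
    refine ratIn_of_torus L hS hG (fun g h1 h2 h3 h4 => ?_) d
    exact hT ⊤ (by rw [AddSubgroup.index_top]; exact one_ne_zero)
      (by rw [AddSubgroup.index_top]; exact le_max_left _ _) g h1 (fun l _ => h2 l) h3 h4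
  rcases ell_cases hS hG (hd G hG hrat) L hf hfS hE with h1 | ⟨h2, h3⟩
  · exact h1
  · exact hT (perGp L f) h2 (h3.trans (le_max_right _ _)) f hf (fun l hl z => hl z) hfS hnc

end Pool.Agent.Q139.EB
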