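import Pool.Agent.Q139.EB.Aff
import Pool.Agent.Q139.EB.AffEll
import Pool.Agent.Q139.EB.Main
import Pool.Agent.Q1.SL.GmUni

/-!
Affine varieties without curves `p(t) / t ^ m` through generic points: degeneracy of the curves given
by iterated linear differential equations over nonlinear systems, and over elliptic functions.
-/

set_option autoImplicit false

namespace Pool.Agent.Q139.EB

open Filter Topology Set MvPolynomial
open scoped LinearAlgebra.Projectivization
open Pool.Agent.TH143.EL Pool.Agent.Y377.ST Pool.Agent.Q1.SL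

variable {n : ℕ}

/-- For all `q`, `e0`, `s`, `r`, `e` there are ONE polynomial `G` outside `I` and a number `d`, such
that for all domains `Ω` of the plane and all solutions `b = (b_1, ..., b_q)` on `Ω` of autonomous
systems `b_j' = P_j(b)`, `P_j` polynomials of degree at most `e0`, every curve `f : Ω → V` given by
`s` iterated linear differential equations with matrices of size `r` and polynomials of degree at
most `e` over the functions `b_j` lies in `G = 0` or is algebraic of degree at most `d` over the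
functions `b_j`. -/
def BaseDegA (I : Ideal (MvPolynomial (Fin n) ℂ)) : Prop :=
  ∀ q e0 s r e : ℕ, ∃ (G : MvPolynomial (Fin n) ℂ) (d : ℕ), G ∉ I ∧
    ∀ Ω : Set ℂ, IsOpen Ω → IsPreconnected Ω → ∀ b : ℂ → Fin q → ℂ,
      Auto Ω e0 b → ∀ f : ℂ → Fin n → ℂ, BVec Ω s r e b f →
      (∀ z ∈ Ω, ∀ F ∈ I, eval (f z) F = 0) →
      (∀ z ∈ Ω, eval (f z) G = 0) ∨ ∀ u, AlgOn Ω d b (fun z => f z u) fun _ => 1

/-- On some domain `Ω`, the affine coordinates of `f` are given by `s` iterated linear differential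
equations with matrices of size `r` and polynomials of degree at most `e` over elliptic functions
`b_1, ..., b_q` for the lattice `L`, whose derivatives are polynomials in these functions of degree
at most `e0`. -/
def EllCurveA (L : PeriodPair) (q e0 s r e : ℕ) (f : ℂ → Fin n → ℂ) : Prop :=
  ∃ (Ω : Set ℂ) (b : ℂ → Fin q → ℂ), IsOpen Ω ∧ IsPreconnected Ω ∧ Ω.Nonempty ∧
    EllBase L Ω e0 b ∧ BVec Ω s r e b f

/-- For all `q`, `e0`, `s`, `r`, `e` there is ONE polynomial `G` outside `I` such that for all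
lattices `L`, every nonconstant entire curve `f : ℂ → V` with `EllCurveA L q e0 s r e f` lies in
`G = 0`. -/
def EllDegA (I : Ideal (MvPolynomial (Fin n) ℂ)) : Prop :=
  ∀ q e0 s r e : ℕ, ∃ G : MvPolynomial (Fin n) ℂ, G ∉ I ∧
    ∀ (L : PeriodPair) (f : ℂ → Fin n → ℂ), (∀ j, Differentiable ℂ fun z => f z j) →
      (∀ z, ∀ F ∈ I, eval (f z) F = 0) → EllCurveA L q e0 s r e f → (∃ z w, f z ≠ f w) →
        ∀ z, eval (f z) G = 0

theorem projC_rep0 (f : ℂ → Fin n → ℂ) (z : ℂ) : (projC f z).rep 0 ≠ 0 := by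
  intro h0
  have h1 := ((rep_iff (projC_rep f z)).1 (rep_rep _)).2
  obtain ⟨k, hk⟩ := Function.ne_iff.1 (projC f z).rep_nonzero
  have hk' : (projC f z).rep k ≠ 0 := hk
  have h2 := h1 0 k
  simp only [homC, Fin.cons_zero, one_mul] at h2
  rw [h0, mul_zero] at h2
  exact hk' h2

/-- an identity on a domain -/
theorem eval_globalA {f : ℂ → Fin n → ℂ} (hf : ∀ j, Differentiable ℂ fun z => f z j)
    {G : MvPolynomial (Fin n) ℂ} {Ω : Set ℂ} (hΩ : IsOpen Ω) (hne : Ω.Nonempty)
    (h : ∀ z ∈ Ω, eval (f z) G = 0) (z : ℂ) : eval (f z) G = 0 := by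
  have h1 : Differentiable ℂ fun z => eval (f z) G := by
    have h2 : (fun z => eval (f z) G) = fun z => aeval (fun j => f z j) G := by
      funext z
      rw [aeval_eq_eval]
    rw [h2]
    intro z
    exact (AnalyticAt.aeval_mvPolynomial (fun j => (hf j).analyticAt z) G).differentiableAt
  obtain ⟨z1, hz1⟩ := hne
  have h3 : AnalyticOnNhd ℂ (fun z => eval (f z) G) univ := fun w _ => h1.analyticAt w
  have h4 := h3.eq_of_eventuallyEq (g := fun _ => 0) analyticOnNhd_const (z₀ := z1) (by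
    filter_upwards [hΩ.mem_nhds hz1] with w hw
    exact h w hw)
  exact congrFun h4 z

theorem AlgOn.mono {Ω : Set ℂ} {q d d' : ℕ} {b : ℂ → Fin q → ℂ} {u v : ℂ → ℂ} (h : d ≤ d') :
    AlgOn Ω d b u v → AlgOn Ω d' b u v := by
  rintro ⟨A, hA1, ⟨k0, hk0, z0, hz0, hA2⟩, hA3⟩
  refine ⟨fun k => if k ≤ d then A k else 0, fun k => ?_, ⟨k0, hk0.trans h, z0, hz0, ?_⟩,
    fun z hz => ?_⟩
  · dsimp only
    split_ifs
    · exact (hA1 k).trans h
    · simp
  · dsimp only
    rw [if_pos hk0]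
    exact hA2
  · have h1 : ∑ k ∈ Finset.range (d' + 1),
        eval (b z) (if k ≤ d then A k else 0) * u z ^ k * v z ^ (d' - k) =
        v z ^ (d' - d) * ∑ k ∈ Finset.range (d + 1), eval (b z) (A k) * u z ^ k *
          v z ^ (d - k) := by
      rw [Finset.mul_sum]
      have hsub : Finset.range (d + 1) ⊆ Finset.range (d' + 1) := by
        intro k hk
        have := Finset.mem_range.1 hk
        exact Finset.mem_range.2 (by omega)
      rw [← Finset.sum_subset hsub]
      · refine Finset.sum_congr rfl fun k hk => ?_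
        have hk' : k ≤ d := by
          have := Finset.mem_range.1 hk
          omega
        rw [if_pos hk', show d' - k = (d' - d) + (d - k) by omega, pow_add]
        ring
      · intro k _ hk
        have hk' : ¬ k ≤ d := fun h => hk (Finset.mem_range.2 (by omega))
        rw [if_neg hk', map_zero, zero_mul, zero_mul]
    rw [h1, hA3 z hz, mul_zero]

theorem algOn_self {Ω : Set ℂ} (hne : Ω.Nonempty) {q : ℕ} (b : ℂ → Fin q → ℂ) (g : ℂ → ℂ) :
    AlgOn Ω 1 b g g := by
  obtain ⟨z0, hz0⟩ := hne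
  refine ⟨fun k => if k = 0 then 1 else C (-1), fun k => ?_, ⟨0, by omega, z0, hz0, ?_⟩,
    fun z _ => ?_⟩
  · dsimp only
    split_ifs
    · simp
    · rw [totalDegree_C]
      exact Nat.zero_le _
  · simp
  · simp [Finset.sum_range_succ]

theorem ell_casesA {G : MvPolynomial (Fin n) ℂ} {S : Set (MvPolynomial (Fin n) ℂ)}
    {q e0 s r e d : ℕ}
    (hd : ∀ Ω : Set ℂ, IsOpen Ω → IsPreconnected Ω → ∀ b : ℂ → Fin q → ℂ,
      Auto Ω e0 b → ∀ f : ℂ → Fin n → ℂ, BVec Ω s r e b f →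
      (∀ z ∈ Ω, ∀ F ∈ S, eval (f z) F = 0) →
      (∀ z ∈ Ω, eval (f z) G = 0) ∨ ∀ u, AlgOn Ω d b (fun z => f z u) fun _ => 1)
    (L : PeriodPair) {f : ℂ → Fin n → ℂ} (hf : ∀ j, Differentiable ℂ fun z => f z j)
    (hfS : ∀ z, ∀ F ∈ S, eval (f z) F = 0) (hE : EllCurveA L q e0 s r e f)
    (hnc : ∃ z w, f z ≠ f w) (z : ℂ) : eval (f z) G = 0 := by
  obtain ⟨Ω, b, hΩ, hΩc, hΩne, hb, hB⟩ := hE
  have hba : ∀ j, AnalyticOnNhd ℂ (fun z => b z j) Ω := fun j => (hb.auto j).1
  rcases hd Ω hΩ hΩc b hb.auto f hB (fun z _ F hF => hfS z F hF) with h1 | h1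
  · exact eval_globalA hf hΩ hΩne h1 z
  · exfalso
    obtain ⟨z0, w0, hzw⟩ := hnc
    apply hzw
    have hΩne' := hΩne
    obtain ⟨z1, hz1⟩ := hΩne'
    have h2 := index_le_at (d := max d 1) L (projC_hol hf) hΩ hz1 (v := 0) (projC_rep0 f z1)
      (h := fun z => homC (f z)) (fun j => ?_) (fun z _ => projC_rep f z) hb (fun u => ?_)
    · exact const_of_index L hf h2.1 z0 w0
    · refine Fin.cases ?_ (fun j => ?_) j
      · exact analyticOnNhd_const
      · exact fun z _ => (hf j).analyticAt z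
    · refine Fin.cases ?_ (fun j => ?_) u
      · exact (algOn_self hΩne b fun _ => (1 : ℂ)).mono (le_max_right d 1)
      · exact (h1 j).mono (le_max_left d 1)

theorem baseDegA_of_lauDeg {I : Ideal (MvPolynomial (Fin n) ℂ)} (h : LauDeg I) : BaseDegA I := by
  intro q e0 s r e
  obtain ⟨d, hd⟩ := baseA_special (I : Set (MvPolynomial (Fin n) ℂ)) q e0 s r e
  obtain ⟨G, hG2, hG3⟩ := h d
  exact ⟨G, d, hG2, hd G hG3⟩

theorem ellDegA_of_baseDegA {I : Ideal (MvPolynomial (Fin n) ℂ)} (h : BaseDegA I) :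
    EllDegA I := by
  intro q e0 s r e
  obtain ⟨G, d, hG2, hG3⟩ := h q e0 s r e
  exact ⟨G, hG2, fun L f hf hfI hE hnc => ell_casesA hG3 L hf hfI hE hnc⟩

/-- iterated linear equations without a base -/
theorem pev_sum {ι κ : Type} [Fintype ι] [DecidableEq ι] [Fintype κ] [DecidableEq κ] {e : ℕ}
    (c : (ι → Fin (e + 1)) → ℂ) : ∃ c' : (κ ⊕ ι → Fin (e + 1)) → ℂ, ∀ (b : κ → ℂ) (w : ι → ℂ),
      pev c' (Sum.elim b w) = pev c w := by
  classical
  refine ⟨fun m => if (fun k => m (Sum.inl k)) = 0 then c (fun i => m (Sum.inr i)) else 0,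
    fun b w => ?_⟩
  unfold pev
  rw [← (Equiv.sumArrowEquivProdArrow κ ι (Fin (e + 1))).symm.sum_comp, Fintype.sum_prod_type,
    Finset.sum_eq_single 0]
  · refine Finset.sum_congr rfl fun m _ => ?_
    have h0 : (fun _ : κ => (0 : Fin (e + 1))) = 0 := rfl
    simp [Equiv.sumArrowEquivProdArrow, Fintype.prod_sum_type, h0]
  · intro m _ hm
    refine Finset.sum_eq_zero fun m' _ => ?_
    have h1 : (fun k => (Equiv.sumArrowEquivProdArrow κ ι (Fin (e + 1))).symm (m, m')
        (Sum.inl k)) = m := by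
      funext k
      simp [Equiv.sumArrowEquivProdArrow]
    dsimp only
    rw [if_neg, zero_mul]
    rw [h1]
    exact hm
  · intro h0
    exact absurd (Finset.mem_univ _) h0

theorem bvec_of_dvec {Ω : Set ℂ} {N s r e q : ℕ} (b : ℂ → Fin q → ℂ) {f : ℂ → Fin N → ℂ}
    (h : DVec Ω s r e f) : BVec Ω s r e b f := by
  obtain ⟨X, Y, hX, hf⟩ := h
  refine ⟨X, Y, ⟨hX.an, hX.an', hX.inv, fun l i j => ?_⟩, fun j => ?_⟩
  · obtain ⟨c, hc⟩ := hX.coc l i j
    obtain ⟨c', hc'⟩ := pev_sum (κ := Fin q) c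
    exact ⟨c', fun z hz => by rw [hc z hz, hc']⟩
  · obtain ⟨c, hc⟩ := hf j
    obtain ⟨c', hc'⟩ := pev_sum (κ := Fin q) c
    exact ⟨c', fun z hz => by rw [hc z hz, hc']⟩

theorem exists_lat : Nonempty PeriodPair := by
  refine ⟨⟨1, Complex.I, ?_⟩⟩
  rw [LinearIndependent.pair_iff]
  intro s t h
  have h1 := congrArg Complex.re h
  have h2 := congrArg Complex.im h
  simp at h1 h2
  exact ⟨h1, h2⟩

theorem lauDeg_of_ellDegA {I : Ideal (MvPolynomial (Fin n) ℂ)} (h : EllDegA I) : LauDeg I := by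
  intro d
  obtain ⟨G, hG2, hG3⟩ := h 0 0 1 1 d
  obtain ⟨L⟩ := exists_lat
  refine ⟨G, hG2, fun m p hm hp1 hp2 hp3 t ht => ?_⟩
  obtain ⟨s, t', hs, ht', hst⟩ := hp3
  have h1 := hG3 L (fun z => lpt m p (Complex.exp z)) (fun j z => ?_)
    (fun z F hF => hp2 _ (Complex.exp_ne_zero z) F hF)
    ⟨univ, fun _ j => Fin.elim0 j, isOpen_univ, isPreconnected_univ, univ_nonempty,
      ⟨fun j => Fin.elim0 j, fun _ _ => rfl, fun j => Fin.elim0 j⟩,
      bvec_of_dvec _ (dvec_laur p hp1 hm)⟩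
    ⟨Complex.log s, Complex.log t', by
      rw [Complex.exp_log hs, Complex.exp_log ht']
      exact hst⟩ (Complex.log t)
  · rwa [Complex.exp_log ht] at h1
  · have h2 : DifferentiableAt ℂ (fun z => (p j).eval (Complex.exp z) / Complex.exp z ^ m) z :=
      DifferentiableAt.div
        ((p j).differentiable.differentiableAt.comp z Complex.differentiable_exp.differentiableAt)
        (Complex.differentiable_exp.differentiableAt.pow m) (pow_ne_zero _ (Complex.exp_ne_zero z))
    exact h2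

/-- **Pseudo-hyperbolicity of affine varieties.** -/
theorem baseA_tfae {I : Ideal (MvPolynomial (Fin n) ℂ)} (hprime : I.IsPrime) :
    List.TFAE [¬ GmUniruled I, LauDeg I, BaseDegA I, EllDegA I] := by
  tfae_have 1 → 2 := lauDeg_of_not hprime
  tfae_have 2 → 1 := not_gmUniruled
  tfae_have 2 → 3 := baseDegA_of_lauDeg
  tfae_have 3 → 4 := ellDegA_of_baseDegA
  tfae_have 4 → 2 := lauDeg_of_ellDegA
  tfae_finish

/-- **Uniform version.** -/
theorem ellA_uniform (n D q e0 s r e : ℕ) : ∃ d : ℕ,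
    ∀ (S : Set (MvPolynomial (Fin n) ℂ)) (G : MvPolynomial (Fin n) ℂ),
      (∀ F ∈ S, F.totalDegree ≤ D) → G.totalDegree ≤ D → LauIn S G d →
      ∀ (L : PeriodPair) (f : ℂ → Fin n → ℂ), (∀ j, Differentiable ℂ fun z => f z j) →
        (∀ z, ∀ F ∈ S, eval (f z) F = 0) → EllCurveA L q e0 s r e f → (∃ z w, f z ≠ f w) →
        ∀ z, eval (f z) G = 0 := by
  obtain ⟨d, hd⟩ := baseA_uniform n D q e0 s r e
  exact ⟨d, fun S G hS hG hL L f hf hfS hE hnc => ell_casesA (hd S G hS hG hL) L hf hfS hE hnc⟩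

end Pool.Agent.Q139.EB
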