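import Pool.Agent.Q139.EB.Tow
import Pool.Agent.Q1.SL.Key

/-!
Elements which are algebraic of bounded degree over the base, and ultraproducts.
-/

set_option autoImplicit false

namespace Pool.Agent.Q139.EB

open Filter MvPolynomial Pool.Agent.Y377.IL Pool.Agent.Y377.ST Pool.Agent.Q1.SL

/-- `u / v` is algebraic of degree at most `d` over the field generated by the `b j`, with
coefficients which are polynomials of degree at most `d` in the `b j` -/
def AlgDeg {K : Type} [Field K] [Algebra ℂ K] {q : ℕ} (d : ℕ) (b : Fin q → K) (u v : K) : Prop :=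
  ∃ A : ℕ → MvPolynomial (Fin q) ℂ, (∀ k, (A k).totalDegree ≤ d) ∧
    (∃ k ≤ d, aeval b (A k) ≠ 0) ∧
    ∑ k ∈ Finset.range (d + 1), aeval b (A k) * u ^ k * v ^ (d - k) = 0

section alg

variable {K : Type} [Field K] [Algebra ℂ K] {q : ℕ} {b : Fin q → K} {u v : K}

theorem AlgDeg.mono {d d' : ℕ} (h : d ≤ d') : AlgDeg d b u v → AlgDeg d' b u v := by
  rintro ⟨A, hA1, ⟨k0, hk0, hA2⟩, hA3⟩
  refine ⟨fun k => if k ≤ d then A k else 0, fun k => ?_, ⟨k0, hk0.trans h, ?_⟩, ?_⟩
  · dsimp only
    split_ifs
    · exact (hA1 k).trans h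
    · simp
  · dsimp only
    rw [if_pos hk0]
    exact hA2
  · have h1 : ∑ k ∈ Finset.range (d' + 1),
        aeval b (if k ≤ d then A k else 0) * u ^ k * v ^ (d' - k) =
        v ^ (d' - d) * ∑ k ∈ Finset.range (d + 1), aeval b (A k) * u ^ k * v ^ (d - k) := by
      rw [Finset.mul_sum]
      have hsub : Finset.range (d + 1) ⊆ Finset.range (d' + 1) := by
        intro k hk
        have := Finset.mem_range.1 hk
        exact Finset.mem_range.2 (by omega)
      rw [← Finset.sum_subset hsub]
      · refine Finset.sum_congr rfl fun k hk => ?_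
        have hk' : k ≤ d := by
          have := Finset.mem_range.1 hk
          omega
        rw [if_pos hk', show d' - k = (d' - d) + (d - k) by omega, pow_add]
        ring
      · intro k _ hk
        have hk' : ¬ k ≤ d := fun h => hk (Finset.mem_range.2 (by omega))
        rw [if_neg hk', map_zero, zero_mul, zero_mul]
    rw [h1, hA3, mul_zero]

theorem mem_adB {x : K} (hx : x ∈ adB b) : ∃ A : MvPolynomial (Fin q) ℂ, aeval b A = x := by
  unfold adB at hx
  rw [Algebra.adjoin_range_eq_range_aeval] at hx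
  exact hx

/-- clearing denominators -/
theorem exists_algDeg (hv : v ≠ 0) (h : IsAlgebraic (fldB b) (u / v)) : ∃ d, AlgDeg d b u v := by
  classical
  obtain ⟨P, hP0, hP⟩ := h
  have h1 : ∀ k, ∃ r ∈ adB b, r ≠ 0 ∧ r * (P.coeff k : K) ∈ adB b := fun k => (P.coeff k).2
  choose r hr hr0 hrc using h1
  let m := P.natDegree
  let R : K := ∏ k ∈ Finset.range (m + 1), r k
  have hR0 : R ≠ 0 := Finset.prod_ne_zero_iff.2 fun k _ => hr0 k
  have h2 : ∀ k ∈ Finset.range (m + 1), R * (P.coeff k : K) ∈ adB b := by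
    intro k hk
    have h3 : R = (∏ j ∈ (Finset.range (m + 1)).erase k, r j) * r k :=
      (Finset.prod_erase_mul _ _ hk).symm
    rw [h3, mul_assoc]
    exact Subalgebra.mul_mem _ (Subalgebra.prod_mem _ fun j _ => hr j) (hrc k)
  have h3 : ∀ k, ∃ A : MvPolynomial (Fin q) ℂ, k ∈ Finset.range (m + 1) →
      aeval b A = R * (P.coeff k : K) := by
    intro k
    by_cases hk : k ∈ Finset.range (m + 1)
    · obtain ⟨A, hA⟩ := mem_adB (h2 k hk)
      exact ⟨A, fun _ => hA⟩
    · exact ⟨0, fun h => absurd h hk⟩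
  choose A hA using h3
  let E := (Finset.range (m + 1)).sup fun k => (A k).totalDegree
  have hPm : P.coeff m ≠ 0 := Polynomial.leadingCoeff_ne_zero.2 hP0
  have hsum : ∑ k ∈ Finset.range (m + 1), aeval b (A k) * u ^ k * v ^ (m - k) = 0 := by
    have h5 : ∑ k ∈ Finset.range (m + 1), aeval b (A k) * u ^ k * v ^ (m - k) =
        R * v ^ m * Polynomial.aeval (u / v) P := by
      rw [Polynomial.aeval_eq_sum_range, Finset.mul_sum]
      refine Finset.sum_congr rfl fun k hk => ?_
      have hk' : k ≤ m := by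
        have := Finset.mem_range.1 hk
        omega
      rw [hA k hk, Algebra.smul_def, div_pow]
      have h6 : v ^ m = v ^ k * v ^ (m - k) := by
        rw [← pow_add, Nat.add_sub_cancel' hk']
      rw [h6]
      have h7 : (algebraMap (fldB b) K) (P.coeff k) = (P.coeff k : K) := rfl
      rw [h7]
      field_simp
    rw [h5, hP, mul_zero]
  refine ⟨max m E, fun k => if k ≤ m then A k else 0, fun k => ?_, ⟨m, le_max_left _ _, ?_⟩, ?_⟩
  · dsimp only
    split_ifs with hk
    · exact (Finset.le_sup (f := fun k => (A k).totalDegree)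
        (Finset.mem_range.2 (by omega))).trans (le_max_right _ _)
    · simp
  · dsimp only
    rw [if_pos le_rfl, hA m (Finset.mem_range.2 (by omega))]
    refine mul_ne_zero hR0 fun h0 => hPm ?_
    exact Subtype.ext h0
  · have h1 : ∑ k ∈ Finset.range (max m E + 1),
        aeval b (if k ≤ m then A k else 0) * u ^ k * v ^ (max m E - k) =
        v ^ (max m E - m) * ∑ k ∈ Finset.range (m + 1), aeval b (A k) * u ^ k * v ^ (m - k) := by
      rw [Finset.mul_sum]
      have hsub : Finset.range (m + 1) ⊆ Finset.range (max m E + 1) := by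
        intro k hk
        have := Finset.mem_range.1 hk
        have h8 := le_max_left m E
        exact Finset.mem_range.2 (by omega)
      rw [← Finset.sum_subset hsub]
      · refine Finset.sum_congr rfl fun k hk => ?_
        have hk' : k ≤ m := by
          have := Finset.mem_range.1 hk
          omega
        have h8 := le_max_left m E
        rw [if_pos hk', show max m E - k = (max m E - m) + (m - k) by omega, pow_add]
        ring
      · intro k _ hk
        have hk' : ¬ k ≤ m := fun h => hk (Finset.mem_range.2 (by omega))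
        rw [if_neg hk', map_zero, zero_mul, zero_mul]
    rw [h1, hsum, mul_zero]

theorem algDeg_zero : AlgDeg 1 b u 0 := by
  refine ⟨fun k => if k = 0 then 1 else 0, fun k => ?_, ⟨0, Nat.zero_le _, ?_⟩, ?_⟩
  · dsimp only
    split_ifs <;> simp
  · simp
  · simp [Finset.sum_range_succ]

end alg

/-! ### Ultraproducts -/

/-- representatives of polynomials -/
theorem exists_repM {θ : (ℕ → ℂ) →+* ℂ} (hs : Function.Surjective θ) {N : ℕ}
    {T : Finset (Fin N →₀ ℕ)} (A : MvPolynomial (Fin N) ℂ) (hA : A.support ⊆ T) :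
    ∃ F : ℕ → MvPolynomial (Fin N) ℂ, (∀ i, (F i).support ⊆ T) ∧ limT θ T F = A := by
  classical
  choose c hc using fun m => hs (A.coeff m)
  have hco : ∀ i m, (∑ m' ∈ T, monomial m' (c m' i) : MvPolynomial (Fin N) ℂ).coeff m =
      if m ∈ T then c m i else 0 := by
    intro i m
    rw [coeff_sum]
    simp only [coeff_monomial]
    rw [Finset.sum_ite_eq' T m (fun m' => c m' i)]
  refine ⟨fun i => ∑ m ∈ T, monomial m (c m i), fun i m hm => ?_, ?_⟩
  · by_contra hn
    apply (mem_support_iff.1 hm)
    rw [hco, if_neg hn]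
  · unfold limT
    ext m
    rw [coeff_sum]
    simp only [coeff_monomial]
    rw [Finset.sum_ite_eq' T m
      (fun m' => θ fun i => (∑ m ∈ T, monomial m (c m i) : MvPolynomial (Fin N) ℂ).coeff m')]
    split_ifs with hm
    · have h1 : (fun i => (∑ m ∈ T, monomial m (c m i) : MvPolynomial (Fin N) ℂ).coeff m) =
          c m := by
        funext i
        rw [hco, if_pos hm]
      rw [h1, hc]
    · exact (notMem_support_iff.1 fun h => hm (hA h)).symm

theorem degree_of_TD {N D : ℕ} {F : MvPolynomial (Fin N) ℂ} (h : F.support ⊆ TD N D) :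
    F.totalDegree ≤ D := by
  unfold totalDegree
  refine Finset.sup_le fun m hm => ?_
  have h1 := mem_TD.1 (h hm)
  rw [Finsupp.sum_fintype _ _ (fun _ => rfl)]
  exact h1

section ultra

variable {K : ℕ → Type} [∀ i, Field (K i)] [∀ i, Algebra ℂ (K i)]
  {K' : Type} [Field K'] [Algebra ℂ K'] {π : (∀ i, K i) →+* K'} {θ : (ℕ → ℂ) →+* ℂ} {q : ℕ}

theorem AlgDeg.los (hs : Function.Surjective θ)
    (hal : ∀ c : ℕ → ℂ, π (fun i => algebraMap ℂ (K i) (c i)) = algebraMap ℂ K' (θ c))
    (hker : ∀ x, π x = 0 ↔ ∀ᶠ i in (hyperfilter ℕ : Filter ℕ), x i = 0) {d : ℕ}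
    {b : ∀ i, Fin q → K i} {u v : ∀ i, K i}
    (h : AlgDeg d (fun j => π fun i => b i j) (π u) (π v)) :
    ∀ᶠ i in (hyperfilter ℕ : Filter ℕ), AlgDeg d (b i) (u i) (v i) := by
  classical
  obtain ⟨A, hA1, ⟨k0, hk0, hA2⟩, hA3⟩ := h
  have h1 : ∀ k, ∃ F : ℕ → MvPolynomial (Fin q) ℂ, (∀ i, (F i).support ⊆ TD q d) ∧
      limT θ (TD q d) F = A k := fun k => exists_repM hs (A k) (support_TD (hA1 k))
  choose F hF1 hF2 using h1
  have hev : ∀ k, aeval (fun j => π fun i => b i j) (A k) = π fun i => aeval (b i) (F k i) := by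
    intro k
    rw [← hF2 k]
    exact aeval_limT hal hker (Eventually.of_forall (hF1 k)) b
  have h2 : ∀ᶠ i in (hyperfilter ℕ : Filter ℕ), aeval (b i) (F k0 i) ≠ 0 := by
    rw [hev, Ne, hker] at hA2
    exact Ultrafilter.eventually_not.2 hA2
  have h3 : ∀ᶠ i in (hyperfilter ℕ : Filter ℕ),
      ∑ k ∈ Finset.range (d + 1), aeval (b i) (F k i) * u i ^ k * v i ^ (d - k) = 0 := by
    have h4 := (hker (fun i => ∑ k ∈ Finset.range (d + 1),
      aeval (b i) (F k i) * u i ^ k * v i ^ (d - k))).1 (by
        have h5 : (fun i => ∑ k ∈ Finset.range (d + 1),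
            aeval (b i) (F k i) * u i ^ k * v i ^ (d - k)) =
            ∑ k ∈ Finset.range (d + 1),
              (fun i => aeval (b i) (F k i)) * u ^ k * v ^ (d - k) := by
          funext i
          rw [Finset.sum_apply]
          rfl
        rw [h5, map_sum, ← hA3]
        refine Finset.sum_congr rfl fun k _ => ?_
        rw [map_mul, map_mul, map_pow, map_pow, hev])
    exact h4
  filter_upwards [h2, h3] with i h4 h5
  exact ⟨fun k => F k i, fun k => degree_of_TD (hF1 k i), ⟨k0, hk0, h4⟩, h5⟩

end ultra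

end Pool.Agent.Q139.EB
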