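import Pool.Agent.Q139.EB.Key
import Pool.Agent.Q1.SL.Unif

/-!
Curves given by iterated linear differential equations over a base given by nonlinear differential
equations.
-/

set_option autoImplicit false

namespace Pool.Agent.Q139.EB

open Filter Set MvPolynomial Pool.Agent.TH143 Pool.Agent.Y377.EL Pool.Agent.Y377.IL
  Pool.Agent.Y377.ST Pool.Agent.Q1.SL

/-- The functions `b_j(z)` are analytic on `Ω`, and their derivatives are values of polynomials with
complex coefficients, of degree at most `e` in each variable, at `b(z)`. -/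
def Auto (Ω : Set ℂ) {q : ℕ} (e : ℕ) (b : ℂ → Fin q → ℂ) : Prop :=
  ∀ j, AnalyticOnNhd ℂ (fun z => b z j) Ω ∧
    ∃ c : (Fin q → Fin (e + 1)) → ℂ, ∀ z ∈ Ω, deriv (fun w => b w j) z = pev c (b z)

/-- `X_1(z), ..., X_s(z)` are matrices of size `r` of functions which are analytic on `Ω`, invertible
with inverses `Y_l(z)`, such that the entries of `X_l'(z) X_l(z)⁻¹` are, for all `z` in `Ω`, the
values of polynomials with complex coefficients, of degree at most `e` in each variable, at the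
`b_j(z)` and the entries of `X_i(z)` and `X_i(z)⁻¹`, `i < l`. -/
structure BIter (Ω : Set ℂ) {q s r : ℕ} (e : ℕ) (b : ℂ → Fin q → ℂ)
    (X Y : Fin s → ℂ → Matrix (Fin r) (Fin r) ℂ) : Prop where
  an : ∀ l i j, AnalyticOnNhd ℂ (fun z => X l z i j) Ω
  an' : ∀ l i j, AnalyticOnNhd ℂ (fun z => Y l z i j) Ω
  inv : ∀ l, ∀ z ∈ Ω, X l z * Y l z = 1
  coc : ∀ (l : Fin s) (i j : Fin r), ∃ c : (Fin q ⊕ Ix s r → Fin (e + 1)) → ℂ, ∀ z ∈ Ω,
    ∑ k, deriv (fun w => X l w i k) z * Y l z k j =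
      pev c (Sum.elim (b z) (before l (entries X Y z)))

/-- The coordinates of `f(z)` are, on `Ω`, the values of polynomials of degree at most `e` in each
variable at the `b_j(z)` and the entries of `X_1(z), X_1(z)⁻¹, ..., X_s(z), X_s(z)⁻¹`, for matrices
`X_l` of size `r` as in `BIter`. -/
def BVec (Ω : Set ℂ) {q n : ℕ} (s r e : ℕ) (b : ℂ → Fin q → ℂ) (f : ℂ → Fin n → ℂ) : Prop :=
  ∃ X Y : Fin s → ℂ → Matrix (Fin r) (Fin r) ℂ, BIter Ω e b X Y ∧
    ∀ j, ∃ c : (Fin q ⊕ Ix s r → Fin (e + 1)) → ℂ, ∀ z ∈ Ω,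
      f z j = pev c (Sum.elim (b z) (entries X Y z))

/-- `g / h` is algebraic of degree at most `d` over the functions `b_j` on `Ω`: there are polynomials
`A 0, ..., A d` of degree at most `d`, not all of them with `A k (b(z)) = 0` for all `z`, with
`∑ k, A k (b(z)) g(z) ^ k h(z) ^ (d - k) = 0` for all `z` in `Ω`. -/
def AlgOn (Ω : Set ℂ) {q : ℕ} (d : ℕ) (b : ℂ → Fin q → ℂ) (g h : ℂ → ℂ) : Prop :=
  ∃ A : ℕ → MvPolynomial (Fin q) ℂ, (∀ k, (A k).totalDegree ≤ d) ∧
    (∃ k ≤ d, ∃ z ∈ Ω, eval (b z) (A k) ≠ 0) ∧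
    ∀ z ∈ Ω, ∑ k ∈ Finset.range (d + 1), eval (b z) (A k) * g z ^ k * h z ^ (d - k) = 0

section curve

variable {Ω : Set ℂ} {q s r e n : ℕ} {b : ℂ → Fin q → ℂ}

theorem BIter.ent {X Y : Fin s → ℂ → Matrix (Fin r) (Fin r) ℂ} (hX : BIter Ω e b X Y)
    (v : Ix s r) : AnalyticOnNhd ℂ (fun z => entries X Y z v) Ω := by
  unfold entries
  by_cases hb : v.2.1 = true
  · simp only [if_pos hb]
    exact hX.an _ _ _
  · simp only [if_neg hb]
    exact hX.an' _ _ _

theorem BIter.entS {X Y : Fin s → ℂ → Matrix (Fin r) (Fin r) ℂ} (hX : BIter Ω e b X Y)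
    (hb : ∀ j, AnalyticOnNhd ℂ (fun z => b z j) Ω) (v : Fin q ⊕ Ix s r) :
    AnalyticOnNhd ℂ (fun z => Sum.elim (b z) (entries X Y z) v) Ω := by
  rcases v with v | v
  · exact hb v
  · exact hX.ent v

theorem BIter.befS {X Y : Fin s → ℂ → Matrix (Fin r) (Fin r) ℂ} (hX : BIter Ω e b X Y)
    (hb : ∀ j, AnalyticOnNhd ℂ (fun z => b z j) Ω) (l : Fin s) (v : Fin q ⊕ Ix s r) :
    AnalyticOnNhd ℂ (fun z => Sum.elim (b z) (before l (entries X Y z)) v) Ω := by
  rcases v with v | v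
  · exact hb v
  · simp only [Sum.elim_inr]
    unfold before
    by_cases hb : v.1 < l
    · simp only [if_pos hb]
      exact hX.ent v
    · simp only [if_neg hb]
      exact analyticOnNhd_const

theorem BVec.an {f : ℂ → Fin n → ℂ} (hΩ : IsOpen Ω)
    (hb : ∀ j, AnalyticOnNhd ℂ (fun z => b z j) Ω) (hf : BVec Ω s r e b f) (j : Fin n) :
    AnalyticOnNhd ℂ (fun z => f z j) Ω := by
  obtain ⟨X, Y, hX, hc⟩ := hf
  obtain ⟨c, hc⟩ := hc j
  exact (pev_an c (hX.entS hb)).congr hΩ fun z hz => (hc z hz).symm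

variable {K : Type} [Field K] [Algebra ℂ K] {D : Derivation ℂ K K} {A : Subalgebra ℂ K}
  {i : Hol Ω →ₐ[ℂ] K}

theorem Auto.toF (hA : Amb Ω K D A i) (hb : Auto Ω e b) :
    AutoF D e fun j => i (toHol _ (hb j).1) := by
  intro j
  obtain ⟨c, hc⟩ := (hb j).2
  refine ⟨c, ?_⟩
  rw [der_hol hA, i_pev i c (fun j => (hb j).1) (hb j).1.deriv hc]

theorem entB_hol (i : Hol Ω →ₐ[ℂ] K) {X Y : Fin s → ℂ → Matrix (Fin r) (Fin r) ℂ}
    (hX : BIter Ω e b X Y) (v : Ix s r) :
    entD (fun l => Matrix.of fun a b => i (toHol _ (hX.an l a b)))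
      (fun l => Matrix.of fun a b => i (toHol _ (hX.an' l a b))) v =
      i (toHol _ (hX.ent v)) := by
  by_cases hb : v.2.1 = true
  · have h1 : (fun z => entries X Y z v) = fun z => X v.1 z v.2.2.1 v.2.2.2 := by
      funext z
      unfold entries
      rw [if_pos hb]
    have h2 : toHol _ (hX.ent v) = toHol _ (hX.an v.1 v.2.2.1 v.2.2.2) :=
      hol_ext fun z => congrFun h1 z
    rw [h2]
    unfold entD entries
    rw [if_pos hb]
    rfl
  · have h1 : (fun z => entries X Y z v) = fun z => Y v.1 z v.2.2.1 v.2.2.2 := by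
      funext z
      unfold entries
      rw [if_neg hb]
    have h2 : toHol _ (hX.ent v) = toHol _ (hX.an' v.1 v.2.2.1 v.2.2.2) :=
      hol_ext fun z => congrFun h1 z
    rw [h2]
    unfold entD entries
    rw [if_neg hb]
    rfl

theorem BVec.toF (hΩ : IsOpen Ω) (hA : Amb Ω K D A i)
    (hb : ∀ j, AnalyticOnNhd ℂ (fun z => b z j) Ω) {f : ℂ → Fin n → ℂ}
    (hf : BVec Ω s r e b f) :
    BVecF D s r e (fun j => i (toHol _ (hb j))) fun j => i (toHol _ (hf.an hΩ hb j)) := by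
  obtain ⟨X, Y, hX, hc⟩ := id hf
  refine ⟨fun l => Matrix.of fun a b => i (toHol _ (hX.an l a b)),
    fun l => Matrix.of fun a b => i (toHol _ (hX.an' l a b)), ⟨fun l => ?_, fun l a a' => ?_⟩,
    fun j => ?_⟩
  · ext a b
    rw [Matrix.mul_apply]
    simp only [Matrix.of_apply, ← map_mul, ← map_sum]
    have h1 : (∑ k, toHol _ (hX.an l a k) * toHol _ (hX.an' l k b)) =
        if a = b then 1 else 0 := by
      apply hol_ext
      intro z
      rw [map_sum]
      simp only [map_mul, evz_toHol]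
      have h2 := congrFun (congrFun (hX.inv l z z.2) a) b
      rw [Matrix.mul_apply] at h2
      rw [h2, Matrix.one_apply]
      split_ifs
      · exact (map_one _).symm
      · exact (map_zero _).symm
    rw [h1, Matrix.one_apply]
    split_ifs
    · exact map_one i
    · exact map_zero i
  · obtain ⟨c, hc'⟩ := hX.coc l a a'
    refine ⟨c, ?_⟩
    have hFa : AnalyticOnNhd ℂ (fun z => ∑ k, deriv (fun w => X l w a k) z * Y l z k a') Ω := by
      intro z hz
      exact Finset.analyticAt_fun_sum _ fun k _ => ((hX.an l a k).deriv z hz).mul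
        (hX.an' l k a' z hz)
    have h1 : i (toHol _ hFa) =
        ∑ k, D (i (toHol _ (hX.an l a k))) * i (toHol _ (hX.an' l k a')) := by
      simp only [der_hol hA, ← map_mul, ← map_sum]
      congr 1
      apply hol_ext
      intro z
      rw [map_sum]
      simp only [map_mul, evz_toHol]
    simp only [Matrix.of_apply]
    rw [← h1, i_pev i c (hX.befS hb l) hFa hc']
    congr 1
    funext v
    unfold befB
    rcases v with v | v
    · rfl
    · simp only [Sum.elim_inr]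
      unfold before
      by_cases hb' : v.1 < l
      · simp only [if_pos hb']
        rw [entB_hol i hX v]
      · simp only [if_neg hb']
        have h3 : toHol (fun _ => (0 : ℂ)) (analyticOnNhd_const (𝕜 := ℂ) (s := Ω)) = 0 :=
          hol_ext fun z => (map_zero (evz z)).symm
        rw [h3, map_zero]
  · obtain ⟨c, hc'⟩ := hc j
    refine ⟨c, ?_⟩
    change i (toHol _ (hf.an hΩ hb j)) = _
    rw [i_pev i c (hX.entS hb) (hf.an hΩ hb j) hc']
    congr 1
    funext v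
    unfold entB
    rcases v with v | v
    · rfl
    · exact (entB_hol i hX v).symm

/-- values of polynomials at analytic functions -/
theorem aeval_hol (i : Hol Ω →ₐ[ℂ] K) (hb : ∀ j, AnalyticOnNhd ℂ (fun z => b z j) Ω)
    (A : MvPolynomial (Fin q) ℂ) (z : Ω) :
    evz z (aeval (fun j => toHol _ (hb j)) A) = eval (b z) A := by
  have h1 := MvPolynomial.comp_aeval_apply (f := fun j => toHol _ (hb j)) (evz z) A
  rw [h1, aeval_eq_eval]
  rfl

theorem AlgDeg.toOn (hA : Amb Ω K D A i) (hb : ∀ j, AnalyticOnNhd ℂ (fun z => b z j) Ω)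
    {g h : ℂ → ℂ} (hg : AnalyticOnNhd ℂ g Ω) (hh : AnalyticOnNhd ℂ h Ω) {d : ℕ}
    (H : AlgDeg d (fun j => i (toHol _ (hb j))) (i (toHol _ hg)) (i (toHol _ hh))) :
    AlgOn Ω d b g h := by
  obtain ⟨A, hA1, ⟨k0, hk0, hA2⟩, hA3⟩ := H
  have hev : ∀ k, aeval (fun j => i (toHol _ (hb j))) (A k) =
      i (aeval (fun j => toHol _ (hb j)) (A k)) := fun k =>
    (MvPolynomial.comp_aeval_apply (f := fun j => toHol _ (hb j)) i (A k)).symm
  refine ⟨A, hA1, ⟨k0, hk0, ?_⟩, fun z hz => ?_⟩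
  · by_contra hcon
    push Not at hcon
    apply hA2
    rw [hev]
    have h1 : aeval (fun j => toHol _ (hb j)) (A k0) = 0 := by
      apply hol_ext
      intro z
      rw [aeval_hol i hb, hcon z z.2, map_zero]
    rw [h1, map_zero]
  · simp only [hev, ← map_pow, ← map_mul, ← map_sum] at hA3
    have h1 := (map_eq_zero_iff i hA.inj).1 hA3
    have h2 := congrArg (evz (⟨z, hz⟩ : Ω)) h1
    rw [map_sum, map_zero] at h2
    rw [← h2]
    refine Finset.sum_congr rfl fun k _ => ?_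
    rw [map_mul, map_mul, map_pow, map_pow, aeval_hol i hb, evz_toHol, evz_toHol]

end curve

/-- **Uniform degrees over a base.** -/
theorem base_uniform (n D q e0 s r e : ℕ) : ∃ d : ℕ,
    ∀ (S : Set (MvPolynomial (Fin (n + 1)) ℂ)) (G : MvPolynomial (Fin (n + 1)) ℂ),
      (∀ F ∈ S, ∃ e, e ≤ D ∧ F.IsHomogeneous e) → (∃ e, e ≤ D ∧ G.IsHomogeneous e) →
      RatIn S G d → ∀ Ω : Set ℂ, IsOpen Ω → IsPreconnected Ω → ∀ b : ℂ → Fin q → ℂ,
        Auto Ω e0 b → ∀ f : ℂ → Fin (n + 1) → ℂ, BVec Ω s r e b f →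
        (∀ z ∈ Ω, ∀ F ∈ S, eval (f z) F = 0) →
        (∀ z ∈ Ω, eval (f z) G = 0) ∨ ∀ u v, AlgOn Ω d b (fun z => f z u) fun z => f z v := by
  obtain ⟨d, hd⟩ := base_uniform_diff n D q e0 s r e
  refine ⟨d, ?_⟩
  intro S G hS hG hrat Ω hΩ hΩc b hb f hf hF
  rcases Ω.eq_empty_or_nonempty with h0 | h0
  · left
    intro z hz
    rw [h0] at hz
    exact absurd hz (notMem_empty z)
  obtain ⟨K, _, _, D, A, i, hA⟩ := exists_amb hΩ hΩc h0
  have hba : ∀ j, AnalyticOnNhd ℂ (fun z => b z j) Ω := fun j => (hb j).1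
  rcases hd S G hS hG hrat K D hA.con _ (hb.toF hA) _ (hf.toF hΩ hA hba) (fun F hFF =>
    (vanish_iff hA.inj (f := f) (fun j => hf.an hΩ hba j) F).2 fun z hz => hF z hz F hFF) with
    h1 | h1
  · right
    intro u v
    exact (h1 u v).toOn hA hba (hf.an hΩ hba u) (hf.an hΩ hba v)
  · left
    exact (vanish_iff hA.inj (f := f) (fun j => hf.an hΩ hba j) G).1 h1

/-- **The special sets over a base.** -/
theorem base_special {n : ℕ} (S : Set (MvPolynomial (Fin (n + 1)) ℂ))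
    (hS : ∀ F ∈ S, ∃ e, F.IsHomogeneous e) (q e0 s r e : ℕ) : ∃ d : ℕ,
    ∀ G : MvPolynomial (Fin (n + 1)) ℂ, (∃ e, G.IsHomogeneous e) →
      RatIn S G d → ∀ Ω : Set ℂ, IsOpen Ω → IsPreconnected Ω → ∀ b : ℂ → Fin q → ℂ,
        Auto Ω e0 b → ∀ f : ℂ → Fin (n + 1) → ℂ, BVec Ω s r e b f →
        (∀ z ∈ Ω, ∀ F ∈ S, eval (f z) F = 0) →
        (∀ z ∈ Ω, eval (f z) G = 0) ∨ ∀ u v, AlgOn Ω d b (fun z => f z u) fun z => f z v := by
  obtain ⟨d, hd⟩ := base_special_diff S hS q e0 s r e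
  refine ⟨d, ?_⟩
  intro G hG hrat Ω hΩ hΩc b hb f hf hF
  rcases Ω.eq_empty_or_nonempty with h0 | h0
  · left
    intro z hz
    rw [h0] at hz
    exact absurd hz (notMem_empty z)
  obtain ⟨K, _, _, D, A, i, hA⟩ := exists_amb hΩ hΩc h0
  have hba : ∀ j, AnalyticOnNhd ℂ (fun z => b z j) Ω := fun j => (hb j).1
  rcases hd G hG hrat K D hA.con _ (hb.toF hA) _ (hf.toF hΩ hA hba) (fun F hFF =>
    (vanish_iff hA.inj (f := f) (fun j => hf.an hΩ hba j) F).2 fun z hz => hF z hz F hFF) with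
    h1 | h1
  · right
    intro u v
    exact (h1 u v).toOn hA hba (hf.an hΩ hba u) (hf.an hΩ hba v)
  · left
    exact (vanish_iff hA.inj (f := f) (fun j => hf.an hΩ hba j) G).1 h1

end Pool.Agent.Q139.EB
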