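import Pool.Agent.Q139.EB.Uni
import Pool.Agent.Q139.EB.AffUni
import Pool.Agent.Y377.IL.AllE

/-!
Projective varieties of general type are not uniruled; degeneracy of entire curves.
-/

set_option autoImplicit false

namespace Pool.Agent.Q139.EB

open Filter Topology Set MvPolynomial
open scoped LinearAlgebra.Projectivization
open Pool.Agent.TH143.EL Pool.Agent.Y377.ST Pool.Agent.Q1.SL Pool.Agent.H533R3.SL
open Pool.Agent.TH143.GT (FunField)
open Pool.Agent.W602.GT (IsForm GeneralType LogGeneralType DerLog DerReg RegAt LogAt)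
open Pool.Agent.W603.GR (OffQ)
open FF

variable {N : ℕ}

/-- general type and logarithmic general type for projective varieties -/
theorem log_of_gt {K : Type} [Field K] [Algebra ℂ K] {w : ℕ} (Bd : Place ℂ K → Prop)
    (h : GeneralType ℂ K w) : LogGeneralType ℂ K w Bd := by
  obtain ⟨h1, M, hM, ω, h2, h3, h4⟩ := h
  refine ⟨h1, M, hM, ω, h2, fun P hP j D hD => ?_, fun P hP _ j => h3 P hP j, h4⟩
  apply h3 P hP j D
  intro i f hf
  have h5 := P.reg_mul hf (hD i f)
  by_cases h0 : f = 0
  · rw [h0, map_zero]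
    exact P.reg_zero
  · rwa [mul_div_cancel₀ _ h0] at h5

/-- polynomials with vanishing Wronskian -/
theorem wr_const {L : Type} [Field L] [CharZero L] {a b : Polynomial L}
    (h : Polynomial.derivative a * b = a * Polynomial.derivative b) :
    a * Polynomial.C (b.eval 1) = b * Polynomial.C (a.eval 1) := by
  classical
  by_cases hb : b = 0
  · rw [hb]
    simp
  let g := EuclideanDomain.gcd a b
  have hg : g ≠ 0 := fun h0 => hb (EuclideanDomain.gcd_eq_zero_iff.1 h0).2
  obtain ⟨a1, ha1⟩ := EuclideanDomain.gcd_dvd_left a b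
  obtain ⟨b1, hb1⟩ := EuclideanDomain.gcd_dvd_right a b
  have ha1' : a = g * a1 := ha1
  have hb1' : b = g * b1 := hb1
  have hco : IsCoprime a1 b1 := by
    have h1 := EuclideanDomain.gcd_eq_gcd_ab a b
    refine ⟨EuclideanDomain.gcdA a b, EuclideanDomain.gcdB a b, ?_⟩
    apply mul_left_cancel₀ hg
    have h2 : g = a * EuclideanDomain.gcdA a b + b * EuclideanDomain.gcdB a b := h1
    linear_combination -h2 - EuclideanDomain.gcdA a b * ha1' - EuclideanDomain.gcdB a b * hb1'
  have hw : Polynomial.wronskian a1 b1 = 0 := by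
    have h1 : g * g * Polynomial.wronskian a1 b1 = 0 := by
      have h2 : Polynomial.derivative (g * a1) * (g * b1) =
          (g * a1) * Polynomial.derivative (g * b1) := by
        rw [← ha1', ← hb1']
        exact h
      rw [Polynomial.derivative_mul, Polynomial.derivative_mul] at h2
      unfold Polynomial.wronskian
      linear_combination -h2
    exact (mul_eq_zero.1 h1).resolve_left (mul_ne_zero hg hg)
  obtain ⟨h1, h2⟩ := hco.wronskian_eq_zero_iff.1 hw
  have h3 := Polynomial.eq_C_of_natDegree_eq_zero (Polynomial.derivative_eq_zero.1 h1)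
  have h4 := Polynomial.eq_C_of_natDegree_eq_zero (Polynomial.derivative_eq_zero.1 h2)
  rw [ha1', hb1', h3, h4]
  simp only [Polynomial.eval_mul, Polynomial.eval_C, Polynomial.C_mul]
  ring

theorem not_uniruled_of_gt {p : Ideal (MvPolynomial (Fin (N + 1)) ℂ)} {K : Type} [Field K]
    [Algebra ℂ K] {w : ℕ} {y : Fin (N + 1) → K} (hy : FunField p 1 K w y)
    (hL : GeneralType ℂ K w) : ¬ Uniruled p := by
  rintro ⟨L, _, _, P, h1, h2, i, j, hij⟩
  have hL0 : CharZero L := charZero_of_injective_algebraMap (algebraMap ℂ L).injective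
  refine Pool.Agent.Y405.IL.t_LGT N p 1 0 K w y (isHomogeneous_one _ _) hy L P
    (fun G hG => ⟨fun h => h1 G (hy.mem G hG h), fun h => ?_⟩) ⟨1, 0, one_ne_zero, by simp⟩ ?_
    (log_of_gt _ hL)
  · by_contra h3
    apply h2 G hG
    · intro h4
      exact h3 (hy.sub.mem G h4)
    · have h5 := MvPolynomial.comp_aeval_apply (f := P)
        ((Polynomial.aeval (1 : L) : Polynomial L →ₐ[L] L).restrictScalars ℂ) G
      rw [h, map_zero] at h5
      have h6 : (fun i => ((Polynomial.aeval (1 : L) : Polynomial L →ₐ[L] L).restrictScalars ℂ)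
          (P i)) = fun i => (P i).eval 1 := by
        funext i
        change Polynomial.aeval (1 : L) (P i) = _
        rw [Polynomial.coe_aeval_eq_eval]
      rw [h6] at h5
      exact h5.symm
  · by_contra hcon
    push Not at hcon
    exact hij (wr_const (hcon i j))

/-- the cone over the variety with the generic point `y` -/
noncomputable def cone {K : Type} [Field K] [Algebra ℂ K] (y : Fin (N + 1) → K) :
    MvPolynomial (Fin (N + 1)) ℂ →ₐ[ℂ] Polynomial K :=
  aeval fun i => Polynomial.X * Polynomial.C (y i)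

theorem cone_form {K : Type} [Field K] [Algebra ℂ K] (y : Fin (N + 1) → K)
    {F : MvPolynomial (Fin (N + 1)) ℂ} {d : ℕ} (hF : F.IsHomogeneous d) :
    cone y F = Polynomial.X ^ d * Polynomial.C (aeval y F) := by
  unfold cone
  have h1 := aeval_scale hF (Polynomial.X : Polynomial K) fun i => Polynomial.C (y i)
  rw [h1]
  congr 1
  exact (MvPolynomial.comp_aeval_apply (f := y)
    (IsScalarTower.toAlgHom ℂ K (Polynomial K)) F).symm

theorem cone_coeff {K : Type} [Field K] [Algebra ℂ K] (y : Fin (N + 1) → K)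
    (F : MvPolynomial (Fin (N + 1)) ℂ) (k : ℕ) :
    (cone y F).coeff k = aeval y (homogeneousComponent k F) := by
  classical
  have h1 : cone y F = ∑ i ∈ Finset.range (F.totalDegree + 1),
      Polynomial.X ^ i * Polynomial.C (aeval y (homogeneousComponent i F)) := by
    conv_lhs => rw [← sum_homogeneousComponent F]
    rw [map_sum]
    exact Finset.sum_congr rfl fun i _ => cone_form y (homogeneousComponent_isHomogeneous i F)
  rw [h1, Polynomial.finsetSum_coeff]
  simp only [Polynomial.coeff_mul_C, Polynomial.coeff_X_pow, ite_mul, one_mul, zero_mul]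
  rw [Finset.sum_ite_eq (Finset.range (F.totalDegree + 1)) k]
  split_ifs with h
  · rfl
  · rw [homogeneousComponent_eq_zero k F (by
      have := Finset.mem_range.not.1 h
      omega), map_zero]

/-- **Projective varieties of general type.** -/
theorem gt_degenerate {p : Ideal (MvPolynomial (Fin (N + 1)) ℂ)} {K : Type} [Field K]
    [Algebra ℂ K] {w : ℕ} {y : Fin (N + 1) → K} (hy : FunField p 1 K w y)
    (hL : GeneralType ℂ K w) (q e0 s r e : ℕ) :
    ∃ (G : MvPolynomial (Fin (N + 1)) ℂ) (D : ℕ), (∃ k, G.IsHomogeneous k) ∧ G ∉ p ∧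
      (∀ Ω : Set ℂ, IsOpen Ω → IsPreconnected Ω → ∀ b : ℂ → Fin q → ℂ,
        Auto Ω e0 b → ∀ f : ℂ → Fin (N + 1) → ℂ, BVec Ω s r e b f →
        (∀ z ∈ Ω, ∀ F ∈ p, (∃ k, F.IsHomogeneous k) → eval (f z) F = 0) →
        (∀ z ∈ Ω, eval (f z) G = 0) ∨ ∀ u v, AlgOn Ω D b (fun z => f z u) fun z => f z v) ∧
      (∀ (L : PeriodPair) (f : ℂ → ℙ ℂ (Fin (N + 1) → ℂ)), HolMap f → (∀ z, InV p (f z)) →
        EllCurve L q e0 s r e f → (∀ z, eval (f z).rep G = 0) ∨
          ∃ Λ : AddSubgroup L.lattice, Λ.index ≠ 0 ∧ Λ.index ≤ D ∧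
            ∀ l ∈ Λ, ∀ z, f (z + (l : ℂ)) = f z) := by
  classical
  -- the forms in `p`
  let S : Set (MvPolynomial (Fin (N + 1)) ℂ) := {F | F ∈ p ∧ ∃ k, F.IsHomogeneous k}
  have hS : ∀ F ∈ S, ∃ k, F.IsHomogeneous k := fun F hF => hF.2
  let I : Ideal (MvPolynomial (Fin (N + 1)) ℂ) := RingHom.ker (cone y)
  have hprime : I.IsPrime := RingHom.ker_isPrime _
  have hform : ∀ F : MvPolynomial (Fin (N + 1)) ℂ, (∃ k, F.IsHomogeneous k) →
      (F ∈ I ↔ aeval y F = 0) := by
    rintro F ⟨k, hk⟩
    change cone y F = 0 ↔ _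
    rw [cone_form y hk]
    constructor
    · intro h
      exact Polynomial.C_eq_zero.1 ((mul_eq_zero.1 h).resolve_left
        (pow_ne_zero _ Polynomial.X_ne_zero))
    · intro h
      rw [h, Polynomial.C_0, mul_zero]
  have hspan : Ideal.span S = I := by
    apply le_antisymm
    · rw [Ideal.span_le]
      intro F hF
      exact (hform F hF.2).2 (hy.sub.mem F hF.1)
    · intro F hF
      rw [← sum_homogeneousComponent F]
      refine Ideal.sum_mem _ fun i _ => Ideal.subset_span ?_
      have h1 : aeval y (homogeneousComponent i F) = 0 := by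
        rw [← cone_coeff]
        have h2 : cone y F = 0 := hF
        rw [h2, Polynomial.coeff_zero]
      exact ⟨hy.mem _ ⟨i, homogeneousComponent_isHomogeneous i F⟩ h1,
        i, homogeneousComponent_isHomogeneous i F⟩
  have hy' : FunField I 1 K w y := by
    refine ⟨⟨hy.sub.ne, fun H hH => ?_, hy.sub.off, hy.sub.gen, hy.sub.dim⟩, fun H hH h =>
      (hform H hH).2 h⟩
    change aeval y H = 0
    rw [← sum_homogeneousComponent H, map_sum]
    refine Finset.sum_eq_zero fun i _ => ?_
    rw [← cone_coeff]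
    have h2 : cone y H = 0 := hH
    rw [h2, Polynomial.coeff_zero]
  have hR : RatDeg (Ideal.span S) := by
    rw [hspan]
    exact (not_uniruled_iff hprime).1 (not_uniruled_of_gt hy' hL)
  obtain ⟨G, D, hG1, hG2, hG3⟩ := baseDeg_of_ratDeg hS hR q e0 s r e
  have hG3' : ∀ D' : ℕ, D ≤ D' → ∀ Ω : Set ℂ, IsOpen Ω → IsPreconnected Ω → ∀ b : ℂ → Fin q → ℂ,
        Auto Ω e0 b → ∀ f : ℂ → Fin (N + 1) → ℂ, BVec Ω s r e b f →
        (∀ z ∈ Ω, ∀ F ∈ S, eval (f z) F = 0) →
        (∀ z ∈ Ω, eval (f z) G = 0) ∨ ∀ u v, AlgOn Ω D' b (fun z => f z u) fun z => f z v := by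
    intro D' hD' Ω hΩ hΩc b hb f hf hF
    rcases hG3 Ω hΩ hΩc b hb f hf hF with h1 | h1
    · exact Or.inl h1
    · exact Or.inr fun u v => (h1 u v).mono hD'
  refine ⟨G, max D (D ^ (N + 1)), hG1, ?_, ?_, ?_⟩
  · intro h
    exact hG2 (Ideal.subset_span ⟨h, hG1⟩)
  · intro Ω hΩ hΩc b hb f hf hF
    exact hG3' _ (le_max_left _ _) Ω hΩ hΩc b hb f hf fun z hz F hFS => hF z hz F hFS.1 hFS.2
  · intro L f hf hfp hE
    rcases ell_cases hS hG1 (hG3' D le_rfl) L hf (fun z F hF => hfp z F hF.1 hF.2) hE with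
      h1 | ⟨h1, h2⟩
    · exact Or.inl h1
    · exact Or.inr ⟨perGp L f, h1, h2.trans (le_max_right _ _), fun l hl z => hl z⟩

end Pool.Agent.Q139.EB
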