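import Pool.Agent.Q139.EB.Wp

/-!
Curves which are algebraic over the elliptic functions are invariant under a sublattice of bounded
index.
-/

set_option autoImplicit false

namespace Pool.Agent.Q139.EB

open Filter Topology Set MvPolynomial
open scoped LinearAlgebra.Projectivization
open Pool.Agent.TH143.EL Pool.Agent.Y377.ST Pool.Agent.Q1.SL

variable {n : ℕ}

/-- The functions `b_j` are elliptic functions for the lattice `L` which are analytic on `Ω`, and
their derivatives are values of polynomials with complex coefficients, of degree at most `e` in each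
variable, at `b(z)`. -/
structure EllBase (L : PeriodPair) (Ω : Set ℂ) {q : ℕ} (e : ℕ) (b : ℂ → Fin q → ℂ) : Prop where
  mero : ∀ j, Meromorphic fun z => b z j
  per : ∀ (l : L.lattice) z, b (z + l) = b z
  auto : Auto Ω e b

/-- the elements of the lattice which are periods of `f` -/
def perGp (L : PeriodPair) (f : ℂ → ℙ ℂ (Fin (n + 1) → ℂ)) : AddSubgroup L.lattice where
  carrier := {l | ∀ z, f (z + l) = f z}
  zero_mem' := fun z => by
    rw [ZeroMemClass.coe_zero, add_zero]
  add_mem' := by
    intro a b ha hb z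
    have h1 : z + ((a + b : L.lattice) : ℂ) = (z + a) + b := by
      push_cast
      ring
    rw [h1, hb, ha]
  neg_mem' := by
    intro a ha z
    have h1 := ha (z + ((-a : L.lattice) : ℂ))
    have h2 : z + ((-a : L.lattice) : ℂ) + a = z := by
      push_cast
      ring
    rw [h2] at h1
    exact h1.symm

/-- the quotients of the coordinates -/
noncomputable def quo (f : ℂ → ℙ ℂ (Fin (n + 1) → ℂ)) (v u : Fin (n + 1)) (z : ℂ) : ℂ :=
  (f z).rep u / (f z).rep v

theorem quo_rep {f : ℂ → ℙ ℂ (Fin (n + 1) → ℂ)} {z : ℂ} {w : Fin (n + 1) → ℂ}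
    (h : Rep (f z) w) (v u : Fin (n + 1)) : quo f v u z = w u / w v := by
  obtain ⟨h3, h4⟩ := (rep_iff h).1 (rep_rep (f z))
  unfold quo
  have h5 := h4 u v
  by_cases h6 : w v = 0
  · have h7 : (f z).rep v = 0 := by
      obtain ⟨k, hk⟩ := Function.ne_iff.1 h.1
      have hk' : w k ≠ 0 := hk
      have h8 := h4 k v
      rw [h6, zero_mul] at h8
      exact (mul_eq_zero.1 h8).resolve_left hk'
    rw [h6, h7, div_zero, div_zero]
  · have h7 : (f z).rep v ≠ 0 := by
      intro h7
      rw [h7, mul_zero] at h5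
      obtain ⟨k, hk⟩ := Function.ne_iff.1 h3
      have hk' : (f z).rep k ≠ 0 := hk
      have h8 := h4 k v
      rw [h7, mul_zero] at h8
      exact (mul_ne_zero h6 hk') h8.symm
    rw [div_eq_div_iff h7 h6]
    linear_combination -h5

theorem quo_mero {f : ℂ → ℙ ℂ (Fin (n + 1) → ℂ)} (hf : HolMap f) (v u : Fin (n + 1)) :
    Meromorphic (quo f v u) := by
  intro a
  obtain ⟨g, hg, hgr⟩ := hf a
  refine ((hg u).meromorphicAt.div (hg v).meromorphicAt).congr ?_
  have h1 : ∀ᶠ z in 𝓝 a, g u z / g v z = quo f v u z := by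
    filter_upwards [hgr] with z hz
    exact (quo_rep hz v u).symm
  exact h1.filter_mono nhdsWithin_le_nhds

theorem quo_ne {f : ℂ → ℙ ℂ (Fin (n + 1) → ℂ)} (hf : HolMap f) {v : Fin (n + 1)} {z1 : ℂ}
    (hv : (f z1).rep v ≠ 0) : ∀ᶠ z in codiscrete ℂ, (f z).rep v ≠ 0 := by
  obtain ⟨g, hg, hgr⟩ := hf z1
  have h1 : g v z1 ≠ 0 := by
    intro h0
    obtain ⟨h3, h4⟩ := (rep_iff hgr.self_of_nhds).1 (rep_rep (f z1))
    obtain ⟨k, hk⟩ := Function.ne_iff.1 hgr.self_of_nhds.1
    have hk' : g k z1 ≠ 0 := hk
    have h5 := h4 k v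
    rw [h0, zero_mul] at h5
    exact hv ((mul_eq_zero.1 h5).resolve_left hk')
  have h2 : ∀ᶠ z in 𝓝 z1, quo f v v z = 1 := by
    filter_upwards [hgr, (hg v).continuousAt.eventually_ne h1] with z hz1 hz2
    rw [quo_rep hz1, div_self hz2]
  have h3 := mero_id2 (quo_mero hf v v) (Meromorphic.const 1) (freq_of_ev h2)
  filter_upwards [h3] with z hz h0
  unfold quo at hz
  rw [h0, div_zero] at hz
  exact zero_ne_one hz

theorem quo_self {f : ℂ → ℙ ℂ (Fin (n + 1) → ℂ)} {v : Fin (n + 1)} {z : ℂ}
    (hv : (f z).rep v ≠ 0) : Rep (f z) fun u => quo f v u z := by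
  have h1 : (fun u => quo f v u z) = fun u => ((f z).rep v)⁻¹ * (f z).rep u := by
    funext u
    unfold quo
    rw [div_eq_mul_inv, mul_comm]
  rw [h1]
  exact (rep_smul (inv_ne_zero hv)).2 (rep_rep (f z))

/-- translates which agree in all quotients -/
theorem eq_of_quo {f : ℂ → ℙ ℂ (Fin (n + 1) → ℂ)} (hf : HolMap f) {v : Fin (n + 1)} {z1 : ℂ}
    (hv : (f z1).rep v ≠ 0) {a b : ℂ}
    (h : ∀ u, ∀ᶠ z in codiscrete ℂ, quo f v u (z + a) = quo f v u (z + b)) (z : ℂ) :
    f (z + a) = f (z + b) := by
  apply holMap_ext (hf.shift a) (hf.shift b)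
  have h1 : ∀ᶠ z in codiscrete ℂ, ∀ u, quo f v u (z + a) = quo f v u (z + b) :=
    eventually_all.2 h
  have h2 := quo_ne hf hv
  filter_upwards [codis_ev h1 z, codis_ev (codis_shift a h2) z, codis_ev (codis_shift b h2) z]
    with y hy1 hy2 hy3
  have h3 := quo_self hy2
  have h4 := quo_self hy3
  have h5 : (fun u => quo f v u (y + a)) = fun u => quo f v u (y + b) := funext hy1
  rw [h5] at h3
  exact rep_eq h3 h4

/-- **The index of the group of the periods.** -/
theorem index_le_at (L : PeriodPair) {d q e0 : ℕ} {f : ℂ → ℙ ℂ (Fin (n + 1) → ℂ)} (hf : HolMap f)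
    {Ω : Set ℂ} (hΩ : IsOpen Ω) {z1 : ℂ} (hz1 : z1 ∈ Ω) {v : Fin (n + 1)} (hv : (f z1).rep v ≠ 0)
    {h : ℂ → Fin (n + 1) → ℂ}
    (hh : ∀ j, AnalyticOnNhd ℂ (fun z => h z j) Ω) (hr : ∀ z ∈ Ω, Rep (f z) (h z))
    {b : ℂ → Fin q → ℂ} (hb : EllBase L Ω e0 b)
    (H : ∀ u, AlgOn Ω d b (fun z => h z u) fun z => h z v) :
    (perGp L f).index ≠ 0 ∧ (perGp L f).index ≤ d ^ (n + 1) := by
  classical
  have hbΩ : ∀ j, AnalyticOnNhd ℂ (fun z => b z j) Ω := fun j => (hb.auto j).1
  have hhv : h z1 v ≠ 0 := by
    intro h0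
    apply hv
    have h1 := (rep_iff (hr z1 hz1)).1 (rep_rep (f z1))
    obtain ⟨k, hk⟩ := Function.ne_iff.1 (hr z1 hz1).1
    have hk' : h z1 k ≠ 0 := hk
    have h2 := h1.2 k v
    rw [h0, zero_mul] at h2
    exact (mul_eq_zero.1 h2).resolve_left hk'
  have hΩn : Ω ∈ 𝓝 z1 := hΩ.mem_nhds hz1
  choose A hA1 hA2 hA3 using H
  -- the polynomials
  let P : Fin (n + 1) → ℂ → Polynomial ℂ := fun u z =>
    ∑ k ∈ Finset.range (d + 1), Polynomial.C (eval (b z) (A u k)) * Polynomial.X ^ k
  have hPdeg : ∀ u z, (P u z).natDegree ≤ d := by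
    intro u z
    refine Polynomial.natDegree_sum_le_of_forall_le _ _ fun k hk => ?_
    have := Finset.mem_range.1 hk
    exact (Polynomial.natDegree_C_mul_X_pow_le _ _).trans (by omega)
  have hPper : ∀ u (l : L.lattice) z, P u (z + l) = P u z := by
    intro u l z
    simp only [P, hb.per]
  have hAm : ∀ u k, Meromorphic fun z => eval (b z) (A u k) := fun u k =>
    mero_eval (v := fun j z => b z j) hb.mero (A u k)
  have hPne : ∀ u, ∀ᶠ z in codiscrete ℂ, P u z ≠ 0 := by
    intro u
    obtain ⟨k, hk, z, hz, hkz⟩ := hA2 u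
    have h1 : ∀ᶠ z in codiscrete ℂ, eval (b z) (A u k) ≠ 0 := by
      apply mero_ne (hAm u k)
      intro h0
      apply hkz
      have h2 : ContinuousAt (fun w => eval (b w) (A u k)) z := by
        have h3 : AnalyticAt ℂ (fun w => eval (b w) (A u k)) z := by
          have h4 : (fun w => eval (b w) (A u k)) =
              fun w => aeval (fun j => b w j) (A u k) := by
            funext w
            rw [aeval_eq_eval]
          rw [h4]
          exact AnalyticAt.aeval_mvPolynomial (fun j => hbΩ j z hz) (A u k)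
        exact h3.continuousAt
      exact eq_of_codis h0 h2 continuousAt_const
    filter_upwards [h1] with z hz h0
    apply hz
    have h2 := congrArg (fun p => Polynomial.coeff p k) h0
    simp only [P, Polynomial.finsetSum_coeff, Polynomial.coeff_C_mul, Polynomial.coeff_X_pow,
      mul_ite, mul_one, mul_zero, Polynomial.coeff_zero] at h2
    rwa [Finset.sum_ite_eq (Finset.range (d + 1)) k, if_pos (Finset.mem_range.2 (by omega))] at h2
  have hroot : ∀ u, ∀ᶠ z in codiscrete ℂ, (P u z).eval (quo f v u z) = 0 := by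
    intro u
    have hm : Meromorphic fun z => (P u z).eval (quo f v u z) := by
      have h1 : (fun z => (P u z).eval (quo f v u z)) =
          ∑ k ∈ Finset.range (d + 1), (fun z => eval (b z) (A u k)) * (quo f v u) ^ k := by
        funext z
        simp only [P, Polynomial.eval_finsetSum, Polynomial.eval_mul, Polynomial.eval_C,
          Polynomial.eval_pow, Polynomial.eval_X, Finset.sum_apply, Pi.mul_apply, Pi.pow_apply]
      rw [h1]
      intro z
      refine MeromorphicAt.sum fun k _ => ?_
      exact (hAm u k z).mul ((quo_mero hf v u z).pow k)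
    apply mero_id hm (x := z1)
    apply freq_of_ev
    filter_upwards [hΩn, (hh v z1 hz1).continuousAt.eventually_ne hhv] with z hz hvz
    rw [quo_rep (hr z hz)]
    have h2 := hA3 u z hz
    have h3 : (P u z).eval (h z u / h z v) * h z v ^ d =
        ∑ k ∈ Finset.range (d + 1), eval (b z) (A u k) * h z u ^ k * h z v ^ (d - k) := by
      simp only [P, Polynomial.eval_finsetSum, Polynomial.eval_mul, Polynomial.eval_C,
        Polynomial.eval_pow, Polynomial.eval_X]
      rw [Finset.sum_mul]
      refine Finset.sum_congr rfl fun k hk => ?_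
      have hk' : k ≤ d := by
        have := Finset.mem_range.1 hk
        omega
      have h4 : h z v ^ d = h z v ^ k * h z v ^ (d - k) := by
        rw [← pow_add, Nat.add_sub_cancel' hk']
      rw [h4, div_pow]
      have h5 : h z v ≠ 0 := hvz
      field_simp
    rw [h2] at h3
    exact (mul_eq_zero.1 h3).resolve_right (pow_ne_zero _ hvz)
  -- finite sets of cosets
  have hfin : ∀ T : Finset (L.lattice ⧸ perGp L f), T.card ≤ d ^ (n + 1) := by
    intro T
    let s : (L.lattice ⧸ perGp L f) → L.lattice := fun t => t.out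
    have hdist : ∀ t t' : L.lattice ⧸ perGp L f, t ≠ t' → ∃ u, ∀ᶠ z in codiscrete ℂ,
        quo f v u (z + s t) ≠ quo f v u (z + s t') := by
      intro t t' htt
      by_contra hcon
      push Not at hcon
      apply htt
      have h1 : ∀ u, ∀ᶠ z in codiscrete ℂ, quo f v u (z + s t) = quo f v u (z + s t') := by
        intro u
        by_contra h2
        apply hcon u
        have h3 := mero_ne (f := fun z => quo f v u (z + s t) - quo f v u (z + s t'))
          ((mero_comp_add (quo_mero hf v u) (s t)).sub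
            (mero_comp_add (quo_mero hf v u) (s t'))) (fun h4 => h2 (by
              filter_upwards [h4] with z hz
              exact sub_eq_zero.1 hz))
        filter_upwards [h3] with z hz
        exact sub_ne_zero.1 hz
      have h2 := eq_of_quo hf hv h1
      have h3 : -(s t) + s t' ∈ perGp L f := by
        intro z
        have h4 := h2 (z - s t)
        have h5 : z + ((-(s t) + s t' : L.lattice) : ℂ) = z - s t + s t' := by
          push_cast
          ring
        rw [h5, ← h4, sub_add_cancel]
      rw [← QuotientAddGroup.out_eq' t, ← QuotientAddGroup.out_eq' t']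
      exact QuotientAddGroup.eq.2 h3
    have hall : ∀ᶠ z in codiscrete ℂ, (∀ u, P u z ≠ 0) ∧
        (∀ t ∈ T, ∀ u, (P u z).eval (quo f v u (z + s t)) = 0) ∧
        ∀ t ∈ T, ∀ t' ∈ T, t ≠ t' → ∃ u, quo f v u (z + s t) ≠ quo f v u (z + s t') := by
      refine (eventually_all.2 hPne).and (Eventually.and ?_ ?_)
      · rw [Filter.eventually_all_finset]
        intro t _
        refine eventually_all.2 fun u => ?_
        filter_upwards [codis_shift (s t : ℂ) (hroot u)] with z hz
        rwa [hPper] at hz
      · rw [Filter.eventually_all_finset]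
        intro t _
        rw [Filter.eventually_all_finset]
        intro t' _
        by_cases htt : t = t'
        · exact Eventually.of_forall fun z h => absurd htt h
        · obtain ⟨u, hu⟩ := hdist t t' htt
          filter_upwards [hu] with z hz _
          exact ⟨u, hz⟩
    obtain ⟨z, hz1, hz2, hz3⟩ := (codis_ne hall)
    let R : Finset (Fin (n + 1) → ℂ) := Fintype.piFinset fun u => (P u z).roots.toFinset
    have hR : R.card ≤ d ^ (n + 1) := by
      rw [Fintype.card_piFinset]
      calc ∏ u, ((P u z).roots.toFinset).card ≤ ∏ _u : Fin (n + 1), d := by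
            refine Finset.prod_le_prod' fun u _ => ?_
            exact (Multiset.toFinset_card_le _).trans
              ((Polynomial.card_roots' _).trans (hPdeg u z))
        _ = d ^ (n + 1) := by
            rw [Finset.prod_const, Finset.card_univ, Fintype.card_fin]
    refine le_trans ?_ hR
    refine Finset.card_le_card_of_injOn (fun t u => quo f v u (z + s t)) ?_ ?_
    · intro t ht
      have h1 : (fun u => quo f v u (z + s t)) ∈ R := by
        rw [Fintype.mem_piFinset]
        intro u
        rw [Multiset.mem_toFinset, Polynomial.mem_roots (hz1 u)]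
        exact hz2 t ht u
      exact h1
    · intro t ht t' ht' htt
      by_contra hne
      obtain ⟨u, hu⟩ := hz3 t ht t' ht' hne
      exact hu (congrFun htt u)
  have hF : Finite (L.lattice ⧸ perGp L f) := by
    by_contra hinf
    rw [not_finite_iff_infinite] at hinf
    obtain ⟨T, hT⟩ := Infinite.exists_subset_card_eq (L.lattice ⧸ perGp L f) (d ^ (n + 1) + 1)
    have := hfin T
    omega
  have hFt : Fintype (L.lattice ⧸ perGp L f) := Fintype.ofFinite _
  constructor
  · exact AddSubgroup.index_ne_zero_of_finite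
  · rw [AddSubgroup.index, Nat.card_eq_fintype_card, ← Finset.card_univ]
    exact hfin _

/-- **The index of the group of the periods.** -/
theorem index_le (L : PeriodPair) {d q e0 : ℕ} {f : ℂ → ℙ ℂ (Fin (n + 1) → ℂ)} (hf : HolMap f)
    {Ω : Set ℂ} (hΩ : IsOpen Ω) (hne : Ω.Nonempty) {h : ℂ → Fin (n + 1) → ℂ}
    (hh : ∀ j, AnalyticOnNhd ℂ (fun z => h z j) Ω) (hr : ∀ z ∈ Ω, Rep (f z) (h z))
    {b : ℂ → Fin q → ℂ} (hb : EllBase L Ω e0 b)
    (H : ∀ u v, AlgOn Ω d b (fun z => h z u) fun z => h z v) :
    (perGp L f).index ≠ 0 ∧ (perGp L f).index ≤ d ^ (n + 1) := by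
  obtain ⟨z1, hz1⟩ := hne
  obtain ⟨v, hv⟩ := Function.ne_iff.1 (f z1).rep_nonzero
  exact index_le_at L hf hΩ hz1 hv hh hr hb fun u => H u v

end Pool.Agent.Q139.EB
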