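import Pool.Agent.Q139.EB.Alg
import Pool.Agent.Q1.SL.DMain

/-!
Points given by iterated linear differential equations over a base on projective varieties of
bounded degree.
-/

set_option autoImplicit false

namespace Pool.Agent.Q139.EB

open Filter MvPolynomial Pool.Agent.Y377.IL Pool.Agent.Y377.ST Pool.Agent.Q1.SL

/-- a rational curve through the point -/
theorem rat_pointB {K : Type} [Field K] [Algebra ℂ K] {D : Derivation ℂ K K} (hC : Cst D)
    {q s r e e0 n : ℕ} {b : Fin q → K} (hb : AutoF D e0 b) {x : Fin (n + 1) → K}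
    (hx : BVecF D s r e b x) {u v : Fin (n + 1)} (hv : x v ≠ 0)
    (huv : ¬ IsAlgebraic (fldB b) (x u / x v)) :
    ∃ (M : Type) (_ : Field M) (_ : Algebra ℂ M) (p : Fin (n + 1) → RatFunc M),
      (∀ (G : MvPolynomial (Fin (n + 1)) ℂ) (d : ℕ), G.IsHomogeneous d →
        (aeval p G = 0 ↔ aeval x G = 0)) ∧
      ∃ i l, p l ≠ 0 ∧ ∀ c : M, p i / p l ≠ algebraMap M (RatFunc M) c := by
  classical
  obtain ⟨R, hR, hmem⟩ := hx.tow
  let t : Finset K := Finset.univ.image fun j => x j / x v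
  have hF : RatFam R t := by
    refine hyp.main hC (fldB_good hb) hR (fun a ha => ?_) ?_
    · obtain ⟨j, -, rfl⟩ := Finset.mem_image.1 ha
      exact fracs_mem (hmem j) (hmem v)
    · exact ⟨x u / x v, Finset.mem_image.2 ⟨u, Finset.mem_univ u, rfl⟩, huv⟩
  obtain ⟨S0, M, i1, i2, φ, -, h2, -, ⟨z, hz, hzc⟩, -⟩ := hF
  have hm : ∀ j, x j / x v ∈ frac S0 := fun j =>
    h2 _ (Finset.mem_image_of_mem _ (Finset.mem_univ j))
  let w : Fin (n + 1) → frac S0 := fun j => ⟨x j / x v, hm j⟩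
  have h1w : w v = 1 := Subtype.ext (div_self hv)
  refine ⟨M, i1, i2, fun j => φ (w j), fun G d hG => ?_, ?_⟩
  · have h3 : aeval (fun j => φ (w j)) G = φ (aeval w G) :=
      (MvPolynomial.comp_aeval_apply (f := w) φ G).symm
    have h4 : ((aeval w G : frac S0) : K) = aeval (fun j => x j / x v) G :=
      MvPolynomial.comp_aeval_apply (f := w) (frac S0).val G
    rw [h3, map_eq_zero_iff φ φ.toRingHom.injective, ← Subtype.coe_inj, h4]
    change aeval (fun j => x j / x v) G = 0 ↔ _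
    exact form_div hG x hv
  · obtain ⟨i, -, hi⟩ := Finset.mem_image.1 hz
    refine ⟨i, v, ?_, fun c hc => hzc c ?_⟩
    · change φ (w v) ≠ 0
      rw [h1w, map_one]
      exact one_ne_zero
    · have h4 : w i = z := Subtype.ext hi
      change φ (w i) / φ (w v) = _ at hc
      rw [h1w, map_one, div_one, h4] at hc
      exact hc

/-- **Uniform degrees over a base.** -/
theorem base_uniform_diff (n D q e0 s r e : ℕ) : ∃ d : ℕ,
    ∀ (S : Set (MvPolynomial (Fin (n + 1)) ℂ)) (G : MvPolynomial (Fin (n + 1)) ℂ),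
      (∀ F ∈ S, ∃ e, e ≤ D ∧ F.IsHomogeneous e) → (∃ e, e ≤ D ∧ G.IsHomogeneous e) →
      (∀ p : Fin (n + 1) → Polynomial ℂ, (∀ j, (p j).natDegree ≤ d) → (∀ F ∈ S, aeval p F = 0) →
        NonC p → aeval p G = 0) →
      ∀ (K : Type) [Field K] [Algebra ℂ K] (D : Derivation ℂ K K), Cst D →
        ∀ b : Fin q → K, AutoF D e0 b → ∀ x : Fin (n + 1) → K, BVecF D s r e b x →
        (∀ F ∈ S, aeval x F = 0) → (∀ u v, AlgDeg d b (x u) (x v)) ∨ aeval x G = 0 := by
  classical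
  by_contra hcon
  have hC : ∀ d : ℕ, ∃ (S : Set (MvPolynomial (Fin (n + 1)) ℂ))
      (G : MvPolynomial (Fin (n + 1)) ℂ) (K : Type) (_ : Field K) (_ : Algebra ℂ K)
      (D1 : Derivation ℂ K K) (b : Fin q → K) (x : Fin (n + 1) → K),
      (∀ F ∈ S, ∃ e, e ≤ D ∧ F.IsHomogeneous e) ∧ (∃ e, e ≤ D ∧ G.IsHomogeneous e) ∧
      (∀ p : Fin (n + 1) → Polynomial ℂ, (∀ j, (p j).natDegree ≤ d) → (∀ F ∈ S, aeval p F = 0) →
        NonC p → aeval p G = 0) ∧ Cst D1 ∧ AutoF D1 e0 b ∧ BVecF D1 s r e b x ∧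
        (∀ F ∈ S, aeval x F = 0) ∧
        (∃ u v, ¬ AlgDeg d b (x u) (x v)) ∧ aeval x G ≠ 0 := by
    intro d
    by_contra h1
    refine hcon ⟨d, ?_⟩
    intro S G h2 h3 h4 K _ _ D1 h5 b h6 x h7 h8
    by_contra h9
    rw [not_or] at h9
    obtain ⟨h9, h10⟩ := h9
    push Not at h9
    exact h1 ⟨S, G, K, _, _, D1, b, x, h2, h3, h4, h5, h6, h7, h8, h9, h10⟩
  choose S G K iK jK D1 b x hS hG hrat hCD hb hx hF huv hGne using hC
  obtain ⟨K', iK', jK', D', π, θ, hC', hD', hal, hker, hk, hs⟩ := exists_ultra2 D1 hCD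
  let b' : Fin q → K' := fun j => π fun i => b i j
  let x' : Fin (n + 1) → K' := fun j => π fun i => x i j
  have hb' : AutoF D' e0 b' := AutoF.ultra hD' hal hb
  have hx' : BVecF D' s r e b' x' := BVecF.ultra hD' hal hx
  -- a pair of coordinates
  choose u v huv using huv
  obtain ⟨⟨u0, v0⟩, hp⟩ : ∃ p : Fin (n + 1) × Fin (n + 1),
      ∀ᶠ i in (hyperfilter ℕ : Filter ℕ), (u i, v i) = p := by
    by_contra hno
    push Not at hno
    have h3 : ∀ᶠ i in (hyperfilter ℕ : Filter ℕ), ∀ p : Fin (n + 1) × Fin (n + 1),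
        (u i, v i) ≠ p := eventually_all.2 fun p => hno p
    obtain ⟨i, hi⟩ := h3.exists
    exact hi _ rfl
  have hge : ∀ d0 : ℕ, ∀ᶠ i in (hyperfilter ℕ : Filter ℕ), d0 ≤ i := by
    intro d0
    have h1 : ∀ᶠ i : ℕ in cofinite, d0 ≤ i := by
      rw [Nat.cofinite_eq_atTop]
      exact eventually_ge_atTop d0
    exact h1.filter_mono hyperfilter_le_cofinite
  have hnot : ∀ d0, ¬ AlgDeg d0 b' (x' u0) (x' v0) := by
    intro d0 h0
    have h1 := AlgDeg.los hs hal hker (b := b) (u := fun i => x i u0) (v := fun i => x i v0) h0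
    obtain ⟨i, ⟨h2, h3⟩, h4⟩ := ((h1.and hp).and (hge d0)).exists
    apply huv i
    have h5 : u i = u0 := congrArg Prod.fst h3
    have h6 : v i = v0 := congrArg Prod.snd h3
    rw [h5, h6]
    exact h2.mono h4
  have hv0 : x' v0 ≠ 0 := by
    intro h0
    apply hnot 1
    rw [h0]
    exact algDeg_zero
  have hna : ¬ IsAlgebraic (fldB b') (x' u0 / x' v0) := by
    intro h0
    obtain ⟨d0, hd0⟩ := exists_algDeg hv0 h0
    exact hnot d0 hd0
  obtain ⟨M, j1, j2, p, hq1, hq2⟩ := rat_pointB hC' hb' hx' hv0 hna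
  have hev : ∀ (T : Finset (Fin (n + 1) →₀ ℕ)) (F : ℕ → MvPolynomial (Fin (n + 1)) ℂ),
      (∀ᶠ i in (hyperfilter ℕ : Filter ℕ), (F i).support ⊆ T) →
        aeval x' (limT θ T F) = π fun i => aeval (x i) (F i) := fun T F hF =>
    aeval_limT hal hker hF x
  obtain ⟨d0, hd0⟩ := key_proj hs hk hS p (fun F hF' => by
    obtain ⟨e', he', hhe⟩ := exists_deg (D := D) (by
      filter_upwards [hF'] with i hi
      exact hS i _ hi)
    rw [hq1 _ e' (limT_homog hk hhe), hev _ F (by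
      filter_upwards [hhe] with i hi
      exact support_hom hi he'), hker]
    filter_upwards [hF'] with i hi
    exact hF i _ hi) hq2
  obtain ⟨e', he', hhe⟩ := exists_deg (F := G) (D := D) (Eventually.of_forall hG)
  have h1 := hd0 G e' hhe (fun h0 => by
    rw [hq1 _ e' (limT_homog hk hhe), hev _ G (by
      filter_upwards [hhe] with i hi
      exact support_hom hi le_rfl), hker] at h0
    obtain ⟨i, hi⟩ := h0.exists
    exact hGne i hi)
  obtain ⟨i, ⟨p, hp1, hp2, hp3, hp4⟩, hi⟩ := (h1.and (hge d0)).exists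
  exact hp4 (hrat i p (fun j => (hp1 j).trans hi) hp2 hp3)

/-- **The special sets over a base.** -/
theorem base_special_diff {n : ℕ} (S : Set (MvPolynomial (Fin (n + 1)) ℂ))
    (hS : ∀ F ∈ S, ∃ e, F.IsHomogeneous e) (q e0 s r e : ℕ) : ∃ d : ℕ,
    ∀ G : MvPolynomial (Fin (n + 1)) ℂ, (∃ e, G.IsHomogeneous e) →
      (∀ p : Fin (n + 1) → Polynomial ℂ, (∀ j, (p j).natDegree ≤ d) → (∀ F ∈ S, aeval p F = 0) →
        NonC p → aeval p G = 0) →
      ∀ (K : Type) [Field K] [Algebra ℂ K] (D : Derivation ℂ K K), Cst D →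
        ∀ b : Fin q → K, AutoF D e0 b → ∀ x : Fin (n + 1) → K, BVecF D s r e b x →
        (∀ F ∈ S, aeval x F = 0) → (∀ u v, AlgDeg d b (x u) (x v)) ∨ aeval x G = 0 := by
  classical
  obtain ⟨S0, hS0, hS0'⟩ := exists_finite_forms S
  obtain ⟨D, hD⟩ : ∃ D, ∀ F ∈ S0, ∃ e, e ≤ D ∧ F.IsHomogeneous e := by
    refine ⟨S0.sup fun F => F.totalDegree, fun F hF => ?_⟩
    obtain ⟨e, he⟩ := hS F (hS0 F hF)
    by_cases h0 : F = 0
    · exact ⟨0, Nat.zero_le _, h0 ▸ isHomogeneous_zero _ _ _⟩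
    · refine ⟨e, ?_, he⟩
      rw [← he.totalDegree h0]
      exact Finset.le_sup (f := fun F : MvPolynomial (Fin (n + 1)) ℂ => F.totalDegree) hF
  by_contra hcon
  have hC : ∀ d : ℕ, ∃ (G : MvPolynomial (Fin (n + 1)) ℂ) (K : Type) (_ : Field K)
      (_ : Algebra ℂ K) (D1 : Derivation ℂ K K) (b : Fin q → K) (x : Fin (n + 1) → K),
      (∃ e, G.IsHomogeneous e) ∧
      (∀ p : Fin (n + 1) → Polynomial ℂ, (∀ j, (p j).natDegree ≤ d) → (∀ F ∈ S, aeval p F = 0) →
        NonC p → aeval p G = 0) ∧ Cst D1 ∧ AutoF D1 e0 b ∧ BVecF D1 s r e b x ∧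
        (∀ F ∈ S, aeval x F = 0) ∧
        (∃ u v, ¬ AlgDeg d b (x u) (x v)) ∧ aeval x G ≠ 0 := by
    intro d
    by_contra h1
    refine hcon ⟨d, ?_⟩
    intro G h3 h4 K _ _ D1 h5 b h6 x h7 h8
    by_contra h9
    rw [not_or] at h9
    obtain ⟨h9, h10⟩ := h9
    push Not at h9
    exact h1 ⟨G, K, _, _, D1, b, x, h3, h4, h5, h6, h7, h8, h9, h10⟩
  choose G K iK jK D1 b x hG hrat hCD hb hx hF huv hGne using hC
  obtain ⟨K', iK', jK', D', π, θ, hC', hD', hal, hker, hk, hs⟩ := exists_ultra2 D1 hCD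
  let b' : Fin q → K' := fun j => π fun i => b i j
  let x' : Fin (n + 1) → K' := fun j => π fun i => x i j
  have hb' : AutoF D' e0 b' := AutoF.ultra hD' hal hb
  have hx' : BVecF D' s r e b' x' := BVecF.ultra hD' hal hx
  choose u v huv using huv
  obtain ⟨⟨u0, v0⟩, hp⟩ : ∃ p : Fin (n + 1) × Fin (n + 1),
      ∀ᶠ i in (hyperfilter ℕ : Filter ℕ), (u i, v i) = p := by
    by_contra hno
    push Not at hno
    have h3 : ∀ᶠ i in (hyperfilter ℕ : Filter ℕ), ∀ p : Fin (n + 1) × Fin (n + 1),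
        (u i, v i) ≠ p := eventually_all.2 fun p => hno p
    obtain ⟨i, hi⟩ := h3.exists
    exact hi _ rfl
  have hge : ∀ d0 : ℕ, ∀ᶠ i in (hyperfilter ℕ : Filter ℕ), d0 ≤ i := by
    intro d0
    have h1 : ∀ᶠ i : ℕ in cofinite, d0 ≤ i := by
      rw [Nat.cofinite_eq_atTop]
      exact eventually_ge_atTop d0
    exact h1.filter_mono hyperfilter_le_cofinite
  have hnot : ∀ d0, ¬ AlgDeg d0 b' (x' u0) (x' v0) := by
    intro d0 h0
    have h1 := AlgDeg.los hs hal hker (b := b) (u := fun i => x i u0) (v := fun i => x i v0) h0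
    obtain ⟨i, ⟨h2, h3⟩, h4⟩ := ((h1.and hp).and (hge d0)).exists
    apply huv i
    have h5 : u i = u0 := congrArg Prod.fst h3
    have h6 : v i = v0 := congrArg Prod.snd h3
    rw [h5, h6]
    exact h2.mono h4
  have hv0 : x' v0 ≠ 0 := by
    intro h0
    apply hnot 1
    rw [h0]
    exact algDeg_zero
  have hna : ¬ IsAlgebraic (fldB b') (x' u0 / x' v0) := by
    intro h0
    obtain ⟨d0, hd0⟩ := exists_algDeg hv0 h0
    exact hnot d0 hd0
  obtain ⟨M, j1, j2, p, hq1, hq2⟩ := rat_pointB hC' hb' hx' hv0 hna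
  have hev : ∀ (T : Finset (Fin (n + 1) →₀ ℕ)) (F : ℕ → MvPolynomial (Fin (n + 1)) ℂ),
      (∀ᶠ i in (hyperfilter ℕ : Filter ℕ), (F i).support ⊆ T) →
        aeval x' (limT θ T F) = π fun i => aeval (x i) (F i) := fun T F hF =>
    aeval_limT hal hker hF x
  obtain ⟨d0, hd0⟩ := key_proj hs hk (S := fun _ => (S0 : Set (MvPolynomial (Fin (n + 1)) ℂ)))
    (D := D) (fun i F hF => hD F hF) p (fun F hF' => by
    obtain ⟨e', he', hhe⟩ := exists_deg (D := D) (by
      filter_upwards [hF'] with i hi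
      exact hD _ hi)
    rw [hq1 _ e' (limT_homog hk hhe), hev _ F (by
      filter_upwards [hhe] with i hi
      exact support_hom hi he'), hker]
    filter_upwards [hF'] with i hi
    exact hF i _ (hS0 _ hi)) hq2
  obtain ⟨W, hW1, hW2⟩ := exists_finite_forms {g : MvPolynomial (Fin (n + 1)) ℂ |
    (∃ e, g.IsHomogeneous e) ∧ ∀ p : Fin (n + 1) → Polynomial ℂ, (∀ j, (p j).natDegree ≤ d0) →
      (∀ F ∈ S, aeval p F = 0) → NonC p → aeval p g = 0}
  have hWx : ∀ g ∈ W, ∀ᶠ i in (hyperfilter ℕ : Filter ℕ), aeval (x i) g = 0 := by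
    intro g hg
    obtain ⟨⟨e', he'⟩, hg2⟩ := hW1 g hg
    by_contra hno
    have h1 := hd0 (fun _ => g) e' (Eventually.of_forall fun _ => he') (fun h0 => by
      rw [hq1 _ e' (limT_homog hk (Eventually.of_forall fun _ => he')),
        hev _ (fun _ => g) (Eventually.of_forall fun _ => support_hom he' le_rfl), hker] at h0
      exact hno h0)
    obtain ⟨i, p, hp1, hp2, hp3, hp4⟩ := h1.exists
    exact hp4 (hg2 p hp1 (hS0' _ p hp2) hp3)
  have hWx' : ∀ᶠ i in (hyperfilter ℕ : Filter ℕ), ∀ g ∈ W, aeval (x i) g = 0 := by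
    rw [Filter.eventually_all_finset]
    exact hWx
  obtain ⟨i, h2, hi⟩ := (hWx'.and (hge d0)).exists
  exact hGne i (hW2 (K i) (x i) h2 (G i) ⟨hG i, fun p hp1 hp2 hp3 =>
    hrat i p (fun j => (hp1 j).trans hi) hp2 hp3⟩)

end Pool.Agent.Q139.EB
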