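import Pool.Agent.Q139.EB.Uni
import Pool.Agent.Q139.EB.AffUni

/-!
Curves over nonlinear systems and elliptic functions, and the closure of the rational curves of
bounded degree.
-/

set_option autoImplicit false

namespace Pool.Agent.Q139.EB

open Filter Topology Set MvPolynomial
open scoped LinearAlgebra.Projectivization
open Pool.Agent.TH143.EL Pool.Agent.Y377.ST Pool.Agent.Q1.SL

variable {n : ℕ}

/-- The Zariski closure of the union of the nonconstant rational curves with polynomial coordinates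
of degree at most `d` on the projective variety of `S`. -/
def RatCl (S : Set (MvPolynomial (Fin (n + 1)) ℂ)) (d : ℕ) : Set (ℙ ℂ (Fin (n + 1) → ℂ)) :=
  {x | ∀ G : MvPolynomial (Fin (n + 1)) ℂ, (∃ k, G.IsHomogeneous k) → RatIn S G d →
    eval x.rep G = 0}

/-- **Special sets, curves over nonlinear systems.** -/
theorem ratCl_base (S : Set (MvPolynomial (Fin (n + 1)) ℂ))
    (hS : ∀ F ∈ S, ∃ e, F.IsHomogeneous e) (q e0 s r e : ℕ) : ∃ D : ℕ,
    (∀ Ω : Set ℂ, IsOpen Ω → IsPreconnected Ω → ∀ b : ℂ → Fin q → ℂ, Auto Ω e0 b →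
      ∀ f : ℂ → Fin (n + 1) → ℂ, BVec Ω s r e b f → (∀ z ∈ Ω, ∀ F ∈ S, eval (f z) F = 0) →
      (∀ z ∈ Ω, ∀ x, Rep x (f z) → x ∈ RatCl S D) ∨
        ∀ u v, AlgOn Ω D b (fun z => f z u) fun z => f z v) ∧
    ∀ (L : PeriodPair) (f : ℂ → ℙ ℂ (Fin (n + 1) → ℂ)), HolMap f → OnV S f →
      EllCurve L q e0 s r e f → (∀ z, f z ∈ RatCl S D) ∨
        ∃ Λ : AddSubgroup L.lattice, Λ.index ≠ 0 ∧ Λ.index ≤ D ∧
          ∀ l ∈ Λ, ∀ z, f (z + (l : ℂ)) = f z := by
  obtain ⟨d, hd⟩ := base_special S hS q e0 s r e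
  have hle : d ≤ max d (d ^ (n + 1)) := le_max_left _ _
  have hmono : ∀ {G : MvPolynomial (Fin (n + 1)) ℂ}, RatIn S G (max d (d ^ (n + 1))) →
      RatIn S G d := fun h p hp1 hp2 hp3 => h p (fun j => (hp1 j).trans hle) hp2 hp3
  refine ⟨max d (d ^ (n + 1)), ?_, ?_⟩
  · intro Ω hΩ hΩc b hb f hf hF
    by_cases hcon : ∀ z ∈ Ω, ∀ x, Rep x (f z) → x ∈ RatCl S (max d (d ^ (n + 1)))
    · exact Or.inl hcon
    · right
      push Not at hcon
      obtain ⟨z, hz, x, hx, hx2⟩ := hcon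
      have h1 : ∃ G : MvPolynomial (Fin (n + 1)) ℂ, (∃ k, G.IsHomogeneous k) ∧
          RatIn S G (max d (d ^ (n + 1))) ∧ eval x.rep G ≠ 0 := by
        by_contra h2
        push Not at h2
        exact hx2 fun G hG hR => h2 G hG hR
      obtain ⟨G, hG, hR, hGx⟩ := h1
      rcases hd G hG (hmono hR) Ω hΩ hΩc b hb f hf hF with h2 | h2
      · exact absurd ((rep_eval hx hG).2 (h2 z hz)) hGx
      · exact fun u v => (h2 u v).mono hle
  · intro L f hf hfS hE
    by_cases hcon : ∀ z, f z ∈ RatCl S (max d (d ^ (n + 1)))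
    · exact Or.inl hcon
    · right
      push Not at hcon
      obtain ⟨z, hx2⟩ := hcon
      have h1 : ∃ G : MvPolynomial (Fin (n + 1)) ℂ, (∃ k, G.IsHomogeneous k) ∧
          RatIn S G (max d (d ^ (n + 1))) ∧ eval (f z).rep G ≠ 0 := by
        by_contra h2
        push Not at h2
        exact hx2 fun G hG hR => h2 G hG hR
      obtain ⟨G, hG, hR, hGx⟩ := h1
      rcases ell_cases hS hG (hd G hG (hmono hR)) L hf hfS hE with h2 | ⟨h2, h3⟩
      · exact absurd (h2 z) hGx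
      · exact ⟨perGp L f, h2, h3.trans (le_max_right _ _), fun l hl z => hl z⟩

end Pool.Agent.Q139.EB
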