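import Pool.Agent.Q139.EB.GT
import Pool.Agent.Q139.EB.SpRat
import Pool.Agent.Y189.DD.Final
import Pool.Agent.W602.GT.Cls

/-!
Projective varieties all of whose subvarieties are of general type, and varieties without maps from
complex tori: entire curves over nonlinear systems and over elliptic functions.
-/

set_option autoImplicit false

namespace Pool.Agent.Q139.EB

open Filter Topology Set MvPolynomial
open scoped LinearAlgebra.Projectivization
open Pool.Agent.TH143.EL Pool.Agent.Y377.ST Pool.Agent.Q1.SL Pool.Agent.H533R3.SL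
open Pool.Agent.TH143.GT (FunField)
open Pool.Agent.W602.GT (IsForm GeneralType LogGeneralType SubVar coords AllGeneralType val)
open FF

variable {N : ℕ}

theorem val_eq {K : Type} [Field K] [Algebra ℂ K] (y : Fin (N + 1) → K)
    (G : MvPolynomial (Fin (N + 1)) ℂ) : val y G = aeval y G := rfl

/-- the subvariety with a given point -/
theorem exists_sub {L : Type} [Field L] [Algebra ℂ L] (y' : Fin (N + 1) → L) {l : Fin (N + 1)}
    (hl : y' l ≠ 0) : ∃ (y : Fin (N + 1) → coords ℂ y') (w : ℕ),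
      (∀ j, ((y j : coords ℂ y') : L) = y' j / y' l) ∧
      (∀ G : MvPolynomial (Fin (N + 1)) ℂ, IsForm G → (val y G = 0 ↔ val y' G = 0)) ∧
      FunField (RingHom.ker (cone y')) 1 (coords ℂ y') w y := by
  classical
  let y : Fin (N + 1) → coords ℂ y' := fun j =>
    ⟨y' j / y' l, IntermediateField.subset_adjoin ℂ _ ⟨j, l, hl, rfl⟩⟩
  have hyl : y l = 1 := Subtype.ext (div_self hl)
  have hne : y ≠ 0 := by
    intro h0
    rw [h0] at hyl
    exact zero_ne_one hyl
  have hrel : ∀ G : MvPolynomial (Fin (N + 1)) ℂ, IsForm G → (val y G = 0 ↔ val y' G = 0) := by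
    rintro G ⟨d, hd⟩
    have h1 : ((aeval y G : coords ℂ y') : L) = aeval (fun j => (y' l)⁻¹ * y' j) G := by
      have h2 := MvPolynomial.comp_aeval_apply (f := y) (coords ℂ y').val G
      have h3 : (fun i => (coords ℂ y').val (y i)) = fun j => (y' l)⁻¹ * y' j := by
        funext j
        change y' j / y' l = _
        rw [div_eq_mul_inv, mul_comm]
      rw [h3] at h2
      exact h2
    rw [aeval_scale hd] at h1
    rw [val_eq, val_eq]
    constructor
    · intro h2
      rw [h2] at h1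
      have h3 : (y' l)⁻¹ ^ d * aeval y' G = 0 := h1.symm
      exact (mul_eq_zero.1 h3).resolve_left (pow_ne_zero _ (inv_ne_zero hl))
    · intro h2
      rw [h2, mul_zero] at h1
      exact Subtype.ext h1
  have hgen : coords ℂ y = ⊤ := by
    apply IntermediateField.lift_injective (coords ℂ y')
    rw [IntermediateField.lift_top]
    apply le_antisymm
    · exact IntermediateField.lift_le _
    · change IntermediateField.adjoin ℂ _ ≤ _
      rw [IntermediateField.adjoin_le_iff]
      rintro z ⟨i, j, hj, rfl⟩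
      have h1 : y i / y j ∈ coords ℂ y := by
        apply IntermediateField.subset_adjoin
        refine ⟨i, j, ?_, rfl⟩
        intro h0
        have h2 : y' j / y' l = 0 := congrArg Subtype.val h0
        exact div_ne_zero hj hl h2
      have h2 : ((y i / y j : coords ℂ y') : L) = y' i / y' j := by
        change (y' i / y' l) / (y' j / y' l) = _
        rw [div_div_div_cancel_right₀ hl]
      rw [← h2]
      exact (IntermediateField.mem_lift _).2 h1
  have hess : Algebra.EssFiniteType ℂ (coords ℂ y') := by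
    rw [← IntermediateField.fg_top_iff]
    have hfin : {z : coords ℂ y' | ∃ i j, y j ≠ 0 ∧ z = y i / y j}.Finite := by
      refine (Set.finite_range fun p : Fin (N + 1) × Fin (N + 1) => y p.1 / y p.2).subset ?_
      rintro z ⟨i, j, -, rfl⟩
      exact ⟨(i, j), rfl⟩
    refine ⟨hfin.toFinset, ?_⟩
    rw [Set.Finite.coe_toFinset]
    exact hgen
  obtain ⟨w, hw⟩ := Cardinal.lt_aleph0.1 (trdeg_lt_aleph0 ℂ (coords ℂ y'))
  refine ⟨y, w, fun j => rfl, hrel, ⟨hne, fun H hH => ?_, ?_, hgen, hw⟩, fun H hH h => ?_⟩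
  · rw [val_eq, ← sum_homogeneousComponent H, map_sum]
    refine Finset.sum_eq_zero fun i _ => ?_
    have h1 := (hrel (homogeneousComponent i H) ⟨i, homogeneousComponent_isHomogeneous i H⟩).2 (by
      rw [val_eq, ← cone_coeff]
      have h2 : cone y' H = 0 := hH
      rw [h2, Polynomial.coeff_zero])
    exact h1
  · change aeval y (1 : MvPolynomial (Fin (N + 1)) ℂ) ≠ 0
    rw [map_one]
    exact one_ne_zero
  · obtain ⟨d, hd⟩ := hH
    change cone y' H = 0
    have h1 := (hrel H ⟨d, hd⟩).1 h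
    rw [val_eq] at h1
    rw [cone_form y' hd, h1, Polynomial.C_0, mul_zero]

/-- varieties all of whose subvarieties are of general type contain no rational curves -/
theorem rat_of_allGeneral {ι : Type} {F : ι → MvPolynomial (Fin (N + 1)) ℂ}
    (hF : ∀ i, IsForm (F i)) (hgen : AllGeneralType F) (d : ℕ) : RatIn (Set.range F) 1 d := by
  classical
  intro p hp1 hp2 hp3
  exfalso
  obtain ⟨s, t, i, j, hst⟩ := hp3
  let y : Fin (N + 1) → RatFunc ℂ := fun j => algebraMap (Polynomial ℂ) (RatFunc ℂ) (p j)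
  have hinj := RatFunc.algebraMap_injective ℂ
  have hj : p j ≠ 0 := by
    intro h0
    rw [h0] at hst
    simp at hst
  have hyj : y j ≠ 0 := fun h0 => hj ((map_eq_zero_iff _ hinj).1 h0)
  have hval : ∀ G : MvPolynomial (Fin (N + 1)) ℂ, val y G =
      algebraMap (Polynomial ℂ) (RatFunc ℂ) (aeval p G) := fun G =>
    (MvPolynomial.comp_aeval_apply (f := p)
      (IsScalarTower.toAlgHom ℂ (Polynomial ℂ) (RatFunc ℂ)) G).symm
  have hmem : ∀ e, val y (F e) = 0 := by
    intro e
    rw [hval, hp2 (F e) ⟨e, rfl⟩, map_zero]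
  have hnc : coords ℂ y ≠ ⊥ := by
    intro hbot
    have h1 : y i / y j ∈ coords ℂ y :=
      IntermediateField.subset_adjoin ℂ _ ⟨i, j, hyj, rfl⟩
    rw [hbot, IntermediateField.mem_bot] at h1
    obtain ⟨c, hc⟩ := h1
    rw [eq_div_iff hyj] at hc
    have h2 : p i = Polynomial.C c * p j := by
      apply hinj
      rw [map_mul]
      change y i = _
      rw [← hc]
      congr 1
    apply hst
    rw [h2, Polynomial.eval_mul, Polynomial.eval_mul, Polynomial.eval_C, Polynomial.eval_C]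
    ring
  obtain ⟨y', h1, h2, -⟩ := Pool.Agent.W602.GT.rational_sub hF y hyj hmem hnc
  exact h2 (hgen (coords ℂ y) 1 y' le_rfl h1)

/-- varieties all of whose subvarieties are of general type contain no elliptic curves -/
theorem torus_of_allGeneral {ι : Type} {F : ι → MvPolynomial (Fin (N + 1)) ℂ}
    (hF : ∀ i, IsForm (F i)) (hgen : AllGeneralType F) {f : ℂ → ℙ ℂ (Fin (N + 1) → ℂ)}
    (hf : HolMap f) (hfS : OnV (Set.range F) f) {ω₁ ω₂ : ℂ}
    (hind : LinearIndependent ℝ ![ω₁, ω₂]) (h1 : ∀ z, f (z + ω₁) = f z)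
    (h2 : ∀ z, f (z + ω₂) = f z) (z w : ℂ) : f z = f w := by
  classical
  obtain ⟨h, hh, hr⟩ := Pool.Agent.TH600.LK.torus_coords_ell hf h1 h2
  have hm : ∀ j, Meromorphic fun z => h z j := fun j => (hh j).1
  let y' : Fin (N + 1) → MK := fun j => cl (fun z => h z j) (hm j)
  have hval : ∀ G : MvPolynomial (Fin (N + 1)) ℂ, val y' G =
      cl (fun z => eval (fun j => h z j) G) (mero_eval hm G) := fun G =>
    aeval_cl (fun j z => h z j) hm G
  have hvan : ∀ G : MvPolynomial (Fin (N + 1)) ℂ, IsForm G →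
      (val y' G = 0 ↔ ∀ z, eval (f z).rep G = 0) := by
    intro G hG
    rw [hval, cl_eq_zero]
    exact Pool.Agent.Y377.IL.form_rep (h := fun j z => h z j) hf hr hG
  obtain ⟨l, hl⟩ : ∃ l, y' l ≠ 0 := by
    by_contra hcon
    push Not at hcon
    have h3 : ∀ᶠ z in codiscrete ℂ, ∀ j, h z j = 0 := eventually_all.2 fun j =>
      cl_eq_zero.1 (hcon j)
    obtain ⟨z, hz1, hz2⟩ := (h3.and hr).frequently.exists
    exact hz2.1 (funext hz1)
  obtain ⟨y, w0, hy1, hrel, hFF⟩ := exists_sub y' hl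
  by_cases hw : w0 = 0
  · have halg : Algebra.IsAlgebraic ℂ (coords ℂ y') := by
      rw [← trdeg_eq_zero_iff]
      have h3 := hFF.sub.dim
      rw [hw] at h3
      simpa using h3
    choose c hc using fun j => Pool.Agent.W602.GT.const_of_algebraic (halg.isAlgebraic (y j))
    have h3 : ∀ j, y' j = algebraMap ℂ MK (c j) * y' l := by
      intro j
      have h4 := hy1 j
      rw [hc j] at h4
      have h5 : algebraMap ℂ MK (c j) = y' j / y' l := h4
      rw [h5, div_mul_cancel₀ _ hl]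
    have h4 : ∀ᶠ z in codiscrete ℂ, ∀ j, h z j = c j * h z l := by
      refine eventually_all.2 fun j => ?_
      have h5 : y' j = cl (fun _ => c j) (Meromorphic.const _) * y' l := h3 j
      have h6 : cl (fun _ => c j) (Meromorphic.const _) * y' l =
          cl ((fun _ => c j) * fun z => h z l) ((Meromorphic.const _).mul (hm l)) :=
        (cl_mul (Meromorphic.const (c j)) (hm l)).symm
      rw [h6] at h5
      exact cl_eq.1 h5
    obtain ⟨z1, hz1, hz2⟩ := (h4.and hr).frequently.exists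
    have hc0 : c ≠ 0 := by
      intro h0
      apply hz2.1
      funext j
      rw [hz1 j, h0, Pi.zero_apply, zero_mul]
    have h5 : ∀ z, f z = Projectivization.mk ℂ c hc0 := by
      have hconst : HolMap fun _ : ℂ => Projectivization.mk ℂ c hc0 := by
        intro a
        exact ⟨fun j _ => c j, fun j => analyticAt_const, Eventually.of_forall fun z => ⟨hc0, rfl⟩⟩
      intro z
      apply holMap_ext hf hconst
      filter_upwards [codis_ev h4 z, codis_ev hr z] with y hy1 hy2
      have h6 : (fun j => h y j) = fun j => h y l * c j := by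
        funext j
        rw [hy1 j, mul_comm]
      have h7 : h y l ≠ 0 := by
        intro h0
        apply hy2.1
        funext j
        rw [hy1 j, h0, mul_zero]
        rfl
      have h8 : Rep (f y) c := by
        have h9 : Rep (f y) fun j => h y j := hy2
        rw [h6] at h9
        exact (rep_smul h7).1 h9
      exact rep_eq h8 ⟨hc0, rfl⟩
    rw [h5 z, h5 w]
  · exfalso
    refine Pool.Agent.Y189.DD.torus_not_gt hFF hf (fun z G hG hGf => ?_) (fun G hG h3 => ?_)
      hind h1 h2 (Nat.pos_of_ne_zero hw) (hgen (coords ℂ y') w0 y (Nat.pos_of_ne_zero hw)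
        ⟨hFF.sub.ne, fun i => ?_, hFF.sub.gen, hFF.sub.dim⟩)
    · exact (hvan G hGf).1 ((hrel G hGf).1 (hFF.sub.mem G hG)) z
    · exact hFF.mem G hG ((hrel G hG).2 ((hvan G hG).2 h3))
    · exact (hrel (F i) (hF i)).2 ((hvan (F i) (hF i)).2 fun z => hfS z (F i) ⟨i, rfl⟩)

/-- Every holomorphic map from a complex torus of dimension one to the projective variety of `S` is
constant. -/
def TorusFree (S : Set (MvPolynomial (Fin (N + 1)) ℂ)) : Prop :=
  ∀ (L : PeriodPair) (g : ℂ → ℙ ℂ (Fin (N + 1) → ℂ)), HolMap g →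
    (∀ l : L.lattice, ∀ z, g (z + (l : ℂ)) = g z) → OnV S g → ∀ z w, g z = g w

theorem torusFree_of_allGeneral {ι : Type} {F : ι → MvPolynomial (Fin (N + 1)) ℂ}
    (hF : ∀ i, IsForm (F i)) (hgen : AllGeneralType F) : TorusFree (Set.range F) := by
  intro L g hg hper hS z w
  exact torus_of_allGeneral hF hgen hg hS L.indep (fun z => hper ⟨L.ω₁, L.ω₁_mem_lattice⟩ z)
    (fun z => hper ⟨L.ω₂, L.ω₂_mem_lattice⟩ z) z w

/-- multiples of a lattice -/
theorem exists_mul (L : PeriodPair) {m : ℕ} (hm : m ≠ 0) : ∃ L' : PeriodPair,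
    ∀ l' : L'.lattice, ∃ l : L.lattice, (l' : ℂ) = ((m • l : L.lattice) : ℂ) := by
  have hm' : (m : ℝ) ≠ 0 := by exact_mod_cast hm
  have hind : LinearIndependent ℝ ![(m : ℂ) * L.ω₁, (m : ℂ) * L.ω₂] := by
    have h1 := L.indep
    rw [LinearIndependent.pair_iff] at h1 ⊢
    intro s t hst
    have h2 := h1 (s * m) (t * m) (by
      rw [← hst]
      simp only [Complex.real_smul]
      push_cast
      ring)
    exact ⟨(mul_eq_zero.1 h2.1).resolve_right hm', (mul_eq_zero.1 h2.2).resolve_right hm'⟩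
  let L' : PeriodPair := ⟨(m : ℂ) * L.ω₁, (m : ℂ) * L.ω₂, hind⟩
  refine ⟨L', fun l' => ?_⟩
  obtain ⟨a, b, hab⟩ := L'.mem_lattice.1 l'.2
  refine ⟨a • ⟨L.ω₁, L.ω₁_mem_lattice⟩ + b • ⟨L.ω₂, L.ω₂_mem_lattice⟩, ?_⟩
  rw [← hab]
  push_cast
  simp only [zsmul_eq_mul, nsmul_eq_mul]
  change (a : ℂ) * ((m : ℂ) * L.ω₁) + (b : ℂ) * ((m : ℂ) * L.ω₂) = _
  ring

/-- **Varieties without maps from tori, uniformly.** -/
theorem torusFree_uniform (n D0 q e0 s r e : ℕ) : ∃ D : ℕ,
    ∀ S : Set (MvPolynomial (Fin (n + 1)) ℂ), (∀ F ∈ S, ∃ k, k ≤ D0 ∧ F.IsHomogeneous k) →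
      TorusFree S →
      (∀ Ω : Set ℂ, IsOpen Ω → IsPreconnected Ω → Ω.Nonempty → ∀ b : ℂ → Fin q → ℂ,
        Auto Ω e0 b → ∀ f : ℂ → Fin (n + 1) → ℂ, BVec Ω s r e b f →
        (∀ z ∈ Ω, ∀ F ∈ S, eval (f z) F = 0) →
        ∀ u v, AlgOn Ω D b (fun z => f z u) fun z => f z v) ∧
      ∀ (L : PeriodPair) (f : ℂ → ℙ ℂ (Fin (n + 1) → ℂ)), HolMap f → OnV S f →
        EllCurve L q e0 s r e f → ∀ z w, f z = f w := by
  obtain ⟨D, hD⟩ := base_uniform n D0 q e0 s r e
  refine ⟨D, ?_⟩
  intro S hS hT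
  have hS' : ∀ F ∈ S, ∃ k, F.IsHomogeneous k := fun F hF => by
    obtain ⟨k, -, hk⟩ := hS F hF
    exact ⟨k, hk⟩
  obtain ⟨L0⟩ := exists_lattice
  have hrat : RatIn S 1 D := by
    refine ratIn_of_torus L0 hS' ⟨0, isHomogeneous_one _ _⟩ (fun g h1 h2 h3 h4 => ?_) D
    obtain ⟨z, w, h5⟩ := h4
    exact absurd (hT L0 g h1 h2 h3 z w) h5
  have hbase := hD S 1 hS ⟨0, Nat.zero_le _, isHomogeneous_one _ _⟩ hrat
  constructor
  · intro Ω hΩ hΩc hne b hb f hf hF
    rcases hbase Ω hΩ hΩc b hb f hf hF with h1 | h1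
    · obtain ⟨z, hz⟩ := hne
      have h2 := h1 z hz
      rw [map_one] at h2
      exact absurd h2 one_ne_zero
    · exact h1
  · intro L f hf hfS hE z w
    rcases ell_cases hS' ⟨0, isHomogeneous_one _ _⟩ hbase L hf hfS hE with h1 | ⟨h1, -⟩
    · have h2 := h1 0
      rw [map_one] at h2
      exact absurd h2 one_ne_zero
    · obtain ⟨L', hL'⟩ := exists_mul L h1
      refine hT L' f hf (fun l' z => ?_) hfS z w
      obtain ⟨l, hl⟩ := hL' l'
      rw [hl]
      exact AddSubgroup.nsmul_index_mem (perGp L f) l z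

/-- **Varieties all of whose subvarieties are of general type, uniformly.** -/
theorem lang_uniform (n D0 q e0 s r e : ℕ) : ∃ D : ℕ,
    ∀ (ι : Type) (F : ι → MvPolynomial (Fin (n + 1)) ℂ),
      (∀ i, ∃ k, k ≤ D0 ∧ (F i).IsHomogeneous k) → AllGeneralType F →
      (∀ Ω : Set ℂ, IsOpen Ω → IsPreconnected Ω → Ω.Nonempty → ∀ b : ℂ → Fin q → ℂ,
        Auto Ω e0 b → ∀ f : ℂ → Fin (n + 1) → ℂ, BVec Ω s r e b f →
        (∀ z ∈ Ω, ∀ i, eval (f z) (F i) = 0) →
        ∀ u v, AlgOn Ω D b (fun z => f z u) fun z => f z v) ∧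
      ∀ (L : PeriodPair) (f : ℂ → ℙ ℂ (Fin (n + 1) → ℂ)), HolMap f →
        (∀ z i, eval (f z).rep (F i) = 0) → EllCurve L q e0 s r e f → ∀ z w, f z = f w := by
  obtain ⟨D, hD⟩ := torusFree_uniform n D0 q e0 s r e
  refine ⟨D, ?_⟩
  intro ι F hF hgen
  have hF' : ∀ i, IsForm (F i) := fun i => by
    obtain ⟨k, -, hk⟩ := hF i
    exact ⟨k, hk⟩
  obtain ⟨h1, h2⟩ := hD (Set.range F) (by
    rintro _ ⟨i, rfl⟩
    exact hF i) (torusFree_of_allGeneral hF' hgen)
  refine ⟨fun Ω hΩ hΩc hne b hb f hf hFf => h1 Ω hΩ hΩc hne b hb f hf ?_,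
    fun L f hf hFf hE => h2 L f hf ?_ hE⟩
  · rintro z hz _ ⟨i, rfl⟩
    exact hFf z hz i
  · rintro z _ ⟨i, rfl⟩
    exact hFf z i

end Pool.Agent.Q139.EB
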