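import Pool.Agent.Q1.SL.DTow

/-!
Points over differential fields given by iterated linear differential equations of bounded
complexity over a base given by nonlinear differential equations; towers and ultraproducts.
-/

set_option autoImplicit false

namespace Pool.Agent.Q139.EB

open Filter Pool.Agent.Y377.IL Pool.Agent.Y377.ST Pool.Agent.Q1.SL

/-- the base functions and the entries of the matrices -/
def entB {K : Type} {q s r : ℕ} (b : Fin q → K) (X Y : Fin s → Matrix (Fin r) (Fin r) K) :
    Fin q ⊕ Ix s r → K :=
  Sum.elim b (entD X Y)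

/-- the base functions and the entries of the matrices with numbers less than `l` -/
def befB {K : Type} [Zero K] {q s r : ℕ} (l : Fin s) (b : Fin q → K)
    (X Y : Fin s → Matrix (Fin r) (Fin r) K) : Fin q ⊕ Ix s r → K :=
  Sum.elim b (before l (entD X Y))

/-- The derivatives of the `b j` are values of polynomials, of degree at most `e` in each variable,
at `b`. -/
def AutoF {K : Type} [Field K] [Algebra ℂ K] {q : ℕ} (D : Derivation ℂ K K) (e : ℕ)
    (b : Fin q → K) : Prop :=
  ∀ j, ∃ c : (Fin q → Fin (e + 1)) → ℂ, D (b j) = pev (fun m => algebraMap ℂ K (c m)) b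

/-- Matrices `X_1, ..., X_s` of size `r` over the differential field `K`, with inverses `Y_l`,
such that the entries of `X_l' X_l⁻¹` are values of polynomials with complex coefficients, of degree
at most `e` in each variable, at the `b j` and the entries of `X_i`, `Y_i`, `i < l`. -/
structure BIterF {K : Type} [Field K] [Algebra ℂ K] {q s r : ℕ} (D : Derivation ℂ K K) (e : ℕ)
    (b : Fin q → K) (X Y : Fin s → Matrix (Fin r) (Fin r) K) : Prop where
  inv : ∀ l, X l * Y l = 1
  coc : ∀ (l : Fin s) (i j : Fin r), ∃ c : (Fin q ⊕ Ix s r → Fin (e + 1)) → ℂ,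
    ∑ k, D (X l i k) * Y l k j = pev (fun m => algebraMap ℂ K (c m)) (befB l b X Y)

/-- vectors given by iterated linear differential equations over the base -/
def BVecF {K : Type} [Field K] [Algebra ℂ K] {q n : ℕ} (D : Derivation ℂ K K) (s r e : ℕ)
    (b : Fin q → K) (x : Fin n → K) : Prop :=
  ∃ X Y : Fin s → Matrix (Fin r) (Fin r) K, BIterF D e b X Y ∧
    ∀ j, ∃ c : (Fin q ⊕ Ix s r → Fin (e + 1)) → ℂ,
      x j = pev (fun m => algebraMap ℂ K (c m)) (entB b X Y)

section tower

variable {K : Type} [Field K] [Algebra ℂ K] {D : Derivation ℂ K K} {q s r e n : ℕ}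

/-- the ring generated by the base functions -/
noncomputable def adB (b : Fin q → K) : Subalgebra ℂ K := Algebra.adjoin ℂ (Set.range b)

/-- the field generated by the base functions -/
noncomputable def fldB (b : Fin q → K) : Subalgebra ℂ K := (frac (adB b)).toSubalgebra

theorem adB_stab {b : Fin q → K} (hb : AutoF D e b) : Stab D (adB b) := by
  intro x hx
  unfold adB at hx
  induction hx using Algebra.adjoin_induction with
  | mem x hx =>
    obtain ⟨j, rfl⟩ := hx
    obtain ⟨c, hc⟩ := hb j
    rw [hc]
    exact pevD_mem _ c _ fun i => Algebra.subset_adjoin ⟨i, rfl⟩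
  | algebraMap c =>
    rw [D.map_algebraMap]
    exact Subalgebra.zero_mem _
  | add x y hx hy h1 h2 =>
    rw [map_add]
    exact Subalgebra.add_mem _ h1 h2
  | mul x y hx hy h1 h2 =>
    rw [D.leibniz, smul_eq_mul, smul_eq_mul]
    exact Subalgebra.add_mem _ (Subalgebra.mul_mem _ hx h2) (Subalgebra.mul_mem _ hy h1)

theorem good_field (F : IntermediateField ℂ K) (hF : ∀ x ∈ F, D x ∈ F) :
    GoodB D F.toSubalgebra := by
  refine ⟨hF, ?_, ?_⟩
  · intro I hI _ ⟨x, hx, hx0⟩
    have h1 : x⁻¹ ∈ F.toSubalgebra := F.inv_mem (hI x hx)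
    have h2 := I.smul_mem (⟨x⁻¹, h1⟩ : F.toSubalgebra) hx
    rw [Algebra.smul_def] at h2
    have h3 : x⁻¹ * x ∈ I := h2
    rwa [inv_mul_cancel₀ hx0] at h3
  · exact inferInstanceAs (IsNoetherianRing F)

theorem fldB_good {b : Fin q → K} (hb : AutoF D e b) : GoodB D (fldB b) :=
  good_field _ fun _ hx => stab_frac (adB_stab hb) hx

theorem adB_le (b : Fin q → K) : adB b ≤ fldB b := fun _ hx => le_frac _ hx

/-- the ring generated by the base and the entries of the first matrices -/
noncomputable def ringB (b : Fin q → K) (X Y : Fin s → Matrix (Fin r) (Fin r) K) (m : ℕ) :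
    Subalgebra ℂ K :=
  fldB b ⊔ Algebra.adjoin ℂ {f | ∃ v : Ix s r, (v.1 : ℕ) < m ∧ f = entD X Y v}

theorem base_mem_ringB (b : Fin q → K) (X Y : Fin s → Matrix (Fin r) (Fin r) K) (m : ℕ)
    (j : Fin q) : b j ∈ ringB b X Y m :=
  (le_sup_left : fldB b ≤ ringB b X Y m) (adB_le b (Algebra.subset_adjoin ⟨j, rfl⟩))

theorem ent_mem_ringB (b : Fin q → K) (X Y : Fin s → Matrix (Fin r) (Fin r) K) (m : ℕ)
    (v : Ix s r) (hv : (v.1 : ℕ) < m) : entD X Y v ∈ ringB b X Y m :=
  (le_sup_right : Algebra.adjoin ℂ _ ≤ ringB b X Y m) (Algebra.subset_adjoin ⟨v, hv, rfl⟩)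

theorem ringB_tow {b : Fin q → K} {X Y : Fin s → Matrix (Fin r) (Fin r) K}
    (hX : BIterF D e b X Y) : ∀ m : ℕ, m ≤ s → LTow D (fldB b) (ringB b X Y m) := by
  intro m
  induction m with
  | zero =>
    intro _
    have h1 : ringB b X Y 0 = fldB b := by
      unfold ringB
      have h2 : {f | ∃ v : Ix s r, (v.1 : ℕ) < 0 ∧ f = entD X Y v} = (∅ : Set K) := by
        ext f
        simp
      rw [h2, Algebra.adjoin_empty]
      exact sup_bot_eq _
    rw [h1]
    exact LTow.base
  | succ m ih =>
    intro hm
    have ht := ih (by omega)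
    let l : Fin s := ⟨m, hm⟩
    have hF : Fund D (ringB b X Y m) (X l) (Y l)
        (Matrix.of fun i j => ∑ k, D (X l i k) * Y l k j) := by
      refine ⟨hX.inv l, ?_, ?_⟩
      · intro i j
        obtain ⟨c, hc⟩ := hX.coc l i j
        rw [Matrix.of_apply, hc]
        refine pevD_mem _ c _ fun v => ?_
        unfold befB
        rcases v with v | v
        · exact base_mem_ringB b X Y m v
        · unfold before
          rw [Sum.elim_inr]
          by_cases hb : v.1 < l
          · rw [if_pos hb]
            exact ent_mem_ringB b X Y m v hb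
          · rw [if_neg hb]
            exact (ringB b X Y m).zero_mem
      · intro i j
        have h1 : Y l * X l = 1 := mul_eq_one_comm.1 (hX.inv l)
        simp only [Matrix.of_apply, Finset.sum_mul]
        rw [Finset.sum_comm]
        have h2 : ∀ k, ∑ k', D (X l i k) * Y l k k' * X l k' j =
            D (X l i k) * (1 : Matrix (Fin r) (Fin r) K) k j := by
          intro k
          rw [← h1, Matrix.mul_apply, Finset.mul_sum]
          exact Finset.sum_congr rfl fun k' _ => mul_assoc _ _ _
        simp only [h2, Matrix.one_apply, mul_ite, mul_one, mul_zero, Finset.sum_ite_eq',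
          Finset.mem_univ, if_true]
    have h2 : ringB b X Y (m + 1) = mat (ringB b X Y m) (X l) (Y l) := by
      apply le_antisymm
      · unfold ringB
        refine sup_le ?_ ?_
        · exact (le_sup_left : fldB b ≤ _).trans
            (le_sup_left : ringB b X Y m ≤ mat (ringB b X Y m) (X l) (Y l))
        · rw [Algebra.adjoin_le_iff]
          rintro f ⟨v, hv, rfl⟩
          rcases Nat.lt_succ_iff_lt_or_eq.1 hv with h3 | h3
          · exact (le_sup_left : ringB b X Y m ≤ mat (ringB b X Y m) (X l) (Y l))
              (ent_mem_ringB b X Y m v h3)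
          · have h4 : v.1 = l := Fin.ext h3
            refine (le_sup_right : Algebra.adjoin ℂ _ ≤ mat (ringB b X Y m) (X l) (Y l))
              (Algebra.subset_adjoin ⟨v.2.2.1, v.2.2.2, ?_⟩)
            by_cases hb : v.2.1 = true
            · left
              unfold entD entries
              rw [if_pos hb, h4]
            · right
              unfold entD entries
              rw [if_neg hb, h4]
      · unfold mat
        refine sup_le ?_ ?_
        · unfold ringB
          refine sup_le_sup le_rfl (Algebra.adjoin_mono ?_)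
          rintro f ⟨v, hv, rfl⟩
          exact ⟨v, by omega, rfl⟩
        · rw [Algebra.adjoin_le_iff]
          rintro f ⟨i, j, h3 | h3⟩
          · have h4 := ent_mem_ringB b X Y (m + 1) (l, true, i, j) (Nat.lt_succ_self m)
            rw [h3]
            exact h4
          · have h4 := ent_mem_ringB b X Y (m + 1) (l, false, i, j) (Nat.lt_succ_self m)
            rw [h3]
            exact h4
    rw [h2]
    exact LTow.step ht hF

theorem BVecF.tow {b : Fin q → K} {x : Fin n → K} (hx : BVecF D s r e b x) :
    ∃ R : Subalgebra ℂ K, LTow D (fldB b) R ∧ ∀ j, x j ∈ R := by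
  obtain ⟨X, Y, hX, hc⟩ := hx
  refine ⟨ringB b X Y s, ringB_tow hX s le_rfl, fun j => ?_⟩
  obtain ⟨c, hc⟩ := hc j
  rw [hc]
  refine pevD_mem _ c _ fun v => ?_
  rcases v with v | v
  · exact base_mem_ringB b X Y s v
  · exact ent_mem_ringB b X Y s v v.1.2

end tower

/-! ### Ultraproducts -/

section ultra

variable {K : ℕ → Type} [∀ i, Field (K i)] [∀ i, Algebra ℂ (K i)] {D : ∀ i, Derivation ℂ (K i) (K i)}
  {K' : Type} [Field K'] [Algebra ℂ K'] {D' : Derivation ℂ K' K'} {π : (∀ i, K i) →+* K'}
  {θ : (ℕ → ℂ) →+* ℂ} {q s r e n : ℕ}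

theorem AutoF.ultra (hD : ∀ x, D' (π x) = π fun i => D i (x i))
    (hal : ∀ c : ℕ → ℂ, π (fun i => algebraMap ℂ (K i) (c i)) = algebraMap ℂ K' (θ c))
    {b : ∀ i, Fin q → K i} (hb : ∀ i, AutoF (D i) e (b i)) :
    AutoF D' e fun j => π fun i => b i j := by
  intro j
  choose c hc using fun i => hb i j
  refine ⟨fun m => θ fun i => c i m, ?_⟩
  rw [hD]
  have h1 : (fun i => D i (b i j)) =
      fun i => pev (fun m => algebraMap ℂ (K i) (c i m)) (b i) := funext hc
  rw [h1, pi_pev hal]

theorem BVecF.ultra (hD : ∀ x, D' (π x) = π fun i => D i (x i))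
    (hal : ∀ c : ℕ → ℂ, π (fun i => algebraMap ℂ (K i) (c i)) = algebraMap ℂ K' (θ c))
    {b : ∀ i, Fin q → K i} {x : ∀ i, Fin n → K i} (hx : ∀ i, BVecF (D i) s r e (b i) (x i)) :
    BVecF D' s r e (fun j => π fun i => b i j) fun j => π fun i => x i j := by
  choose X Y hX hc using hx
  refine ⟨fun l => Matrix.of fun a b => π fun i => X i l a b,
    fun l => Matrix.of fun a b => π fun i => Y i l a b, ⟨fun l => ?_, fun l a a' => ?_⟩,
    fun j => ?_⟩
  · ext a b
    rw [Matrix.mul_apply]
    simp only [Matrix.of_apply, ← map_mul, ← map_sum]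
    have h1 : (∑ k, (fun i => X i l a k) * (fun i => Y i l k b)) =
        fun i => (1 : Matrix (Fin r) (Fin r) (K i)) a b := by
      funext i
      rw [Finset.sum_apply]
      exact congrFun (congrFun ((hX i).inv l) a) b
    rw [h1]
    by_cases hab : a = b
    · subst hab
      simp only [Matrix.one_apply_eq]
      exact map_one π
    · simp only [Matrix.one_apply_ne hab]
      exact map_zero π
  · choose c hc' using fun i => (hX i).coc l a a'
    refine ⟨fun m => θ fun i => c i m, ?_⟩
    simp only [Matrix.of_apply, hD, ← map_mul, ← map_sum]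
    have h1 : (∑ k, (fun i => D i (X i l a k)) * (fun i => Y i l k a')) =
        fun i => pev (fun m => algebraMap ℂ (K i) (c i m)) (befB l (b i) (X i) (Y i)) := by
      funext i
      rw [Finset.sum_apply]
      exact hc' i
    rw [h1, pi_pev hal]
    congr 1
    funext v
    unfold befB
    rcases v with v | v
    · rfl
    · simp only [Sum.elim_inr]
      unfold before
      by_cases hb : v.1 < l
      · simp only [if_pos hb]
        exact (ent_pi X Y v).symm
      · simp only [if_neg hb]
        exact map_zero π
  · choose c hc' using fun i => hc i j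
    refine ⟨fun m => θ fun i => c i m, ?_⟩
    have h1 : (fun i => x i j) =
        fun i => pev (fun m => algebraMap ℂ (K i) (c i m)) (entB (b i) (X i) (Y i)) := funext hc'
    change π (fun i => x i j) = _
    rw [h1, pi_pev hal]
    congr 1
    funext v
    unfold entB
    rcases v with v | v
    · rfl
    · exact (ent_pi X Y v).symm

end ultra

end Pool.Agent.Q139.EB
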