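import Pool.Agent.Q139.EB.Main
import Pool.Agent.Q1.SL.OverC

/-!
Varieties which are not uniruled: degeneracy of the curves given by iterated linear differential
equations over nonlinear systems, and over elliptic functions.
-/

set_option autoImplicit false

namespace Pool.Agent.Q139.EB

open Filter Topology Set MvPolynomial
open scoped LinearAlgebra.Projectivization
open Pool.Agent.TH143.EL Pool.Agent.Y377.ST Pool.Agent.Q1.SL Pool.Agent.H533R3.SL

variable {n : ℕ}

/-- For all `q`, `e0`, `s`, `r`, `e` there are ONE form `G` which does not vanish on the variety `X`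
of `S`, and a number `d`, such that for all domains `Ω` of the plane and all solutions
`b = (b_1, ..., b_q)` on `Ω` of autonomous systems `b_j' = P_j(b)`, `P_j` polynomials of degree at
most `e0`, every curve `f : Ω → X` given by `s` iterated linear differential equations with matrices
of size `r` and polynomials of degree at most `e` over the functions `b_j` lies in `G = 0` or is
algebraic of degree at most `d` over the functions `b_j`. -/
def BaseDeg (S : Set (MvPolynomial (Fin (n + 1)) ℂ)) : Prop :=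
  ∀ q e0 s r e : ℕ, ∃ (G : MvPolynomial (Fin (n + 1)) ℂ) (d : ℕ), (∃ k, G.IsHomogeneous k) ∧
    G ∉ Ideal.span S ∧ ∀ Ω : Set ℂ, IsOpen Ω → IsPreconnected Ω → ∀ b : ℂ → Fin q → ℂ,
      Auto Ω e0 b → ∀ f : ℂ → Fin (n + 1) → ℂ, BVec Ω s r e b f →
      (∀ z ∈ Ω, ∀ F ∈ S, eval (f z) F = 0) →
      (∀ z ∈ Ω, eval (f z) G = 0) ∨ ∀ u v, AlgOn Ω d b (fun z => f z u) fun z => f z v

/-- For all `q`, `e0`, `s`, `r`, `e` there are ONE form `G` which does not vanish on the variety `X`
of `S`, and a number `N`, such that for all lattices `L`, every entire curve `f` on `X` with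
`EllCurve L q e0 s r e f` lies in `G = 0` or is invariant under a subgroup of index at most `N`
of `L`. -/
def EllDeg (S : Set (MvPolynomial (Fin (n + 1)) ℂ)) : Prop :=
  ∀ q e0 s r e : ℕ, ∃ (G : MvPolynomial (Fin (n + 1)) ℂ) (N : ℕ), (∃ k, G.IsHomogeneous k) ∧
    G ∉ Ideal.span S ∧ ∀ (L : PeriodPair) (f : ℂ → ℙ ℂ (Fin (n + 1) → ℂ)), HolMap f → OnV S f →
      EllCurve L q e0 s r e f → (∀ z, eval (f z).rep G = 0) ∨
        ∃ Λ : AddSubgroup L.lattice, Λ.index ≠ 0 ∧ Λ.index ≤ N ∧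
          ∀ l ∈ Λ, ∀ z, f (z + (l : ℂ)) = f z

theorem baseDeg_of_ratDeg {S : Set (MvPolynomial (Fin (n + 1)) ℂ)}
    (hS : ∀ F ∈ S, ∃ e, F.IsHomogeneous e) (h : RatDeg (Ideal.span S)) : BaseDeg S := by
  intro q e0 s r e
  obtain ⟨d, hd⟩ := base_special S hS q e0 s r e
  obtain ⟨G, hG1, hG2, hG3⟩ := h d
  refine ⟨G, d, hG1, hG2, hd G hG1 ?_⟩
  intro p hp1 hp2 hp3
  apply hG3 p hp1 ?_ hp3
  intro F hF
  have h1 : Ideal.span S ≤ RingHom.ker (aeval p : MvPolynomial (Fin (n + 1)) ℂ →ₐ[ℂ] _) := by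
    rw [Ideal.span_le]
    intro F hF
    exact hp2 F hF
  exact h1 hF

theorem ellDeg_of_baseDeg {S : Set (MvPolynomial (Fin (n + 1)) ℂ)}
    (hS : ∀ F ∈ S, ∃ e, F.IsHomogeneous e) (h : BaseDeg S) : EllDeg S := by
  intro q e0 s r e
  obtain ⟨G, d, hG1, hG2, hG3⟩ := h q e0 s r e
  refine ⟨G, d ^ (n + 1), hG1, hG2, ?_⟩
  intro L f hf hfS hE
  rcases ell_cases hS hG1 hG3 L hf hfS hE with h1 | ⟨h1, h2⟩
  · exact Or.inl h1
  · exact Or.inr ⟨perGp L f, h1, h2, fun l hl z => hl z⟩

/-- a rational curve which is periodic is constant -/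
theorem rat_per {p : Fin (n + 1) → Polynomial ℂ} {f : ℂ → ℙ ℂ (Fin (n + 1) → ℂ)}
    (hr : ∀ z, (fun j => (p j).eval z) ≠ 0 → Rep (f z) fun j => (p j).eval z) {a : ℂ} (ha : a ≠ 0)
    (hper : ∀ z, f (z + a) = f z) : ¬ NonC p := by
  rintro ⟨s, t, i, j, hne⟩
  apply hne
  have hk : ∀ (k : ℕ) z, f (z + k * a) = f z := by
    intro k
    induction k with
    | zero => intro z; simp
    | succ k ih =>
      intro z
      have h1 : z + ((k + 1 : ℕ) : ℂ) * a = (z + k * a) + a := by
        push_cast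
        ring
      rw [h1, hper, ih]
  have h2 : ∀ t : ℂ, ∀ k : ℕ, ∀ i j, (p i).eval (t + k * a) * (p j).eval t =
      (p j).eval (t + k * a) * (p i).eval t := by
    intro t k i j
    by_cases h3 : (fun j => (p j).eval t) = 0
    · have h4 := congrFun h3 j
      have h5 := congrFun h3 i
      simp only [Pi.zero_apply] at h4 h5
      rw [h4, h5, mul_zero, mul_zero]
    by_cases h6 : (fun j => (p j).eval (t + k * a)) = 0
    · have h4 := congrFun h6 j
      have h5 := congrFun h6 i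
      simp only [Pi.zero_apply] at h4 h5
      rw [h4, h5, zero_mul, zero_mul]
    have h7 := hr _ h3
    have h8 := hr _ h6
    rw [hk k t] at h8
    have h9 := ((rep_iff h7).1 h8).2 i j
    linear_combination -h9
  have h3 : p i * Polynomial.C ((p j).eval t) = p j * Polynomial.C ((p i).eval t) := by
    rw [← sub_eq_zero]
    have hinj : Function.Injective fun k : ℕ => t + k * a := by
      intro k l hkl
      have h4 : (k : ℂ) * a = l * a := add_left_cancel hkl
      exact_mod_cast mul_right_cancel₀ ha h4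
    apply Polynomial.eq_zero_of_infinite_isRoot
    apply (Set.infinite_range_of_injective hinj).mono
    rintro _ ⟨k, rfl⟩
    simp only [mem_ofPred_eq, Polynomial.IsRoot.def, Polynomial.eval_sub, Polynomial.eval_mul,
      Polynomial.eval_C]
    rw [h2 t k i j, sub_self]
  have h4 := congrArg (Polynomial.eval s) h3
  simpa using h4

/-- polynomial curves over any base -/
theorem bvec_poly {d N q : ℕ} {Ω : Set ℂ} (b : ℂ → Fin q → ℂ) (p : Fin N → Polynomial ℂ)
    (hp : ∀ j, (p j).natDegree ≤ d) : BVec Ω 1 2 d b fun z j => (p j).eval z := by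
  refine ⟨fun _ z => !![1, z; 0, 1], fun _ z => !![1, -z; 0, 1], ⟨fun l i j => ?_,
    fun l i j => ?_, fun l z _ => ?_, fun l i j => ?_⟩, fun j => ?_⟩
  · fin_cases i <;> fin_cases j
    · exact analyticOnNhd_const
    · exact fun z _ => analyticAt_id
    · exact analyticOnNhd_const
    · exact analyticOnNhd_const
  · fin_cases i <;> fin_cases j
    · exact analyticOnNhd_const
    · exact fun z _ => analyticAt_id.neg
    · exact analyticOnNhd_const
    · exact analyticOnNhd_const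
  · ext i j
    fin_cases i <;> fin_cases j <;> simp [Matrix.mul_apply, Fin.sum_univ_two]
  · refine ⟨fun m => if m = 0 then (if i = 0 ∧ j = 1 then 1 else 0) else 0, fun z _ => ?_⟩
    rw [pev_const]
    fin_cases i <;> fin_cases j <;> simp [Fin.sum_univ_two]
  · obtain ⟨c, hc⟩ := pev_one (p j) (hp j) (Sum.inr ((0, true, 0, 1) : Ix 1 2) : Fin q ⊕ Ix 1 2)
    refine ⟨c, fun z _ => ?_⟩
    rw [hc]
    rfl

/-- there is a lattice -/
theorem exists_lattice : Nonempty PeriodPair := by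
  refine ⟨⟨1, Complex.I, ?_⟩⟩
  rw [LinearIndependent.pair_iff]
  intro s t h
  have h1 := congrArg Complex.re h
  have h2 := congrArg Complex.im h
  simp at h1 h2
  exact ⟨h1, h2⟩

theorem ratDeg_of_ellDeg {S : Set (MvPolynomial (Fin (n + 1)) ℂ)}
    (hS : ∀ F ∈ S, ∃ e, F.IsHomogeneous e) (h : EllDeg S) : RatDeg (Ideal.span S) := by
  classical
  intro d
  obtain ⟨G, N, hG1, hG2, hG3⟩ := h 0 0 1 2 d
  refine ⟨G, hG1, hG2, fun p hp1 hp2 hp3 => ?_⟩
  obtain ⟨L⟩ := exists_lattice
  have hh : ∀ j, Meromorphic fun z : ℂ => (p j).eval z := fun j z =>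
    (p j).differentiable.analyticAt z |>.meromorphicAt
  have hne0 : ∃ j, ¬ ∀ᶠ z in codiscrete ℂ, (p j).eval z = 0 := by
    obtain ⟨s, t, i, j, hst⟩ := hp3
    have h1 : ∃ j, p j ≠ 0 := by
      by_contra hcon
      push Not at hcon
      rw [hcon i, hcon j] at hst
      simp at hst
    obtain ⟨j, hj⟩ := h1
    refine ⟨j, fun h2 => ?_⟩
    have h3 := (h2.and (poly_codis hj)).frequently.exists
    obtain ⟨z, hz1, hz2⟩ := h3
    exact hz2 hz1
  obtain ⟨f, hf, hr⟩ := exists_holMap hh hne0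
  have hr' : ∀ z, (fun j => (p j).eval z) ≠ 0 → Rep (f z) fun j => (p j).eval z := by
    intro z hz
    exact hr z (fun j => (p j).differentiable.analyticAt z) hz
  have hcod := codis_ne_zero hh hne0
  have hev : ∀ (F : MvPolynomial (Fin (n + 1)) ℂ) (w : ℂ),
      (aeval p F).eval w = eval (fun j => (p j).eval w) F := by
    intro F w
    have h2 := MvPolynomial.comp_aeval_apply (f := p)
      (Polynomial.aeval w : Polynomial ℂ →ₐ[ℂ] ℂ) F
    rw [Polynomial.coe_aeval_eq_eval] at h2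
    rw [h2, aeval_ev]
  have hfS : OnV S f := by
    intro z F hF
    apply eval_of_punct hf (hS F hF)
    filter_upwards [codis_ev hcod z] with w hw
    rw [rep_eval (hr' w hw) (hS F hF), ← hev, hp2 F (Ideal.subset_span hF), Polynomial.eval_zero]
  let Ω : Set ℂ := {z | (fun j => (p j).eval z) ≠ 0}
  have hΩ : Ω ∈ codiscrete ℂ := hcod
  have hE : EllCurve L 0 0 1 2 d f := by
    refine ⟨Ω, fun _ j => Fin.elim0 j, fun z j => (p j).eval z, codis_open hΩ, codis_pre hΩ,
      codis_ne hΩ, ⟨fun j => Fin.elim0 j, fun _ _ => rfl, fun j => Fin.elim0 j⟩,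
      bvec_poly _ p hp1, fun z hz => hr' z hz⟩
  rcases hG3 L f hf hfS hE with h1 | ⟨Λ, h1, -, h2⟩
  · have h3 : ∀ᶠ w in codiscrete ℂ, (aeval p G).eval w = 0 := by
      filter_upwards [hcod] with w hw
      rw [hev]
      exact (rep_eval (hr' w hw) hG1).1 (h1 w)
    by_contra h4
    obtain ⟨z, hz1, hz2⟩ := (h3.and (poly_codis h4)).frequently.exists
    exact hz2 hz1
  · exfalso
    have h3 : ∃ l ∈ Λ, (l : ℂ) ≠ 0 := by
      have h4 : (L.ω₁ : ℂ) ∈ L.lattice := L.ω₁_mem_lattice
      refine ⟨Λ.index • ⟨L.ω₁, h4⟩, AddSubgroup.nsmul_index_mem _ _, ?_⟩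
      have h5 : L.ω₁ ≠ 0 := L.indep.ne_zero 0
      simpa [h1] using h5
    obtain ⟨l, hl, hl0⟩ := h3
    exact rat_per hr' hl0 (fun z => h2 l hl z) hp3

/-- **Varieties which are not uniruled.** -/
theorem base_tfae (FF : Finset (MvPolynomial (Fin (n + 1)) ℂ))
    (hhom : ∀ F ∈ FF, ∃ e, F.IsHomogeneous e)
    (hprime : (Ideal.span (FF : Set (MvPolynomial (Fin (n + 1)) ℂ))).IsPrime) :
    List.TFAE [¬ Uniruled (Ideal.span (FF : Set (MvPolynomial (Fin (n + 1)) ℂ))),
      RatDeg (Ideal.span (FF : Set (MvPolynomial (Fin (n + 1)) ℂ))),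
      BaseDeg (FF : Set (MvPolynomial (Fin (n + 1)) ℂ)),
      EllDeg (FF : Set (MvPolynomial (Fin (n + 1)) ℂ))] := by
  tfae_have 1 ↔ 2 := not_uniruled_iff hprime
  tfae_have 2 → 3 := baseDeg_of_ratDeg hhom
  tfae_have 3 → 4 := ellDeg_of_baseDeg hhom
  tfae_have 4 → 2 := ratDeg_of_ellDeg hhom
  tfae_finish

end Pool.Agent.Q139.EB
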