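import Pool.Agent.TH143.EL.Wp
import Pool.Agent.Q139.EB.Curve

/-!
The elliptic functions as a base.
-/

set_option autoImplicit false

namespace Pool.Agent.Q139.EB

open Filter Topology Set MvPolynomial
open scoped LinearAlgebra.Projectivization
open Pool.Agent.TH143.EL Pool.Agent.Y377.ST Pool.Agent.Q1.SL
open Pool.Agent.TH143.HE (RatCurvesIn IsPtP NonConst)

theorem wp_nhds (L : PeriodPair) {z : ℂ} (hz : z ∉ L.lattice) : ∀ᶠ w in 𝓝 z, w ∉ L.lattice :=
  L.isClosed_lattice.isOpen_compl.mem_nhds hz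

theorem wp_an (L : PeriodPair) {z : ℂ} (hz : z ∉ L.lattice) : AnalyticAt ℂ L.weierstrassP z :=
  L.analyticOnNhd_weierstrassP z hz

theorem wp'_an (L : PeriodPair) {z : ℂ} (hz : z ∉ L.lattice) :
    AnalyticAt ℂ L.derivWeierstrassP z :=
  L.analyticOnNhd_derivWeierstrassP z hz

/-- the second derivative of `℘` -/
theorem wp_second (L : PeriodPair) {z : ℂ} (hz : z ∉ L.lattice) :
    deriv L.derivWeierstrassP z = 6 * L.weierstrassP z ^ 2 + -(L.g₂ / 2) := by
  have h1 : ∀ w, w ∉ L.lattice → L.derivWeierstrassP w *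
      (deriv L.derivWeierstrassP w - (6 * L.weierstrassP w ^ 2 + -(L.g₂ / 2))) = 0 := by
    intro w hw
    have h2 : (fun y => L.derivWeierstrassP y ^ 2) =ᶠ[𝓝 w]
        fun y => 4 * L.weierstrassP y ^ 3 - L.g₂ * L.weierstrassP y - L.g₃ := by
      filter_upwards [wp_nhds L hw] with y hy
      exact L.derivWeierstrassP_sq y hy
    have h3 := h2.deriv_eq
    have hd1 : HasDerivAt L.weierstrassP (L.derivWeierstrassP w) w := by
      have := (wp_an L hw).differentiableAt.hasDerivAt
      rwa [L.deriv_weierstrassP] at this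
    have hd2 : HasDerivAt L.derivWeierstrassP (deriv L.derivWeierstrassP w) w :=
      (wp'_an L hw).differentiableAt.hasDerivAt
    have e1 : deriv (fun y => L.derivWeierstrassP y ^ 2) w =
        2 * L.derivWeierstrassP w * deriv L.derivWeierstrassP w := by
      have := (hd2.pow 2).deriv
      simp only [Nat.cast_ofNat, Nat.add_one_sub_one, pow_one] at this
      exact this
    have e2 : deriv (fun y => 4 * L.weierstrassP y ^ 3 - L.g₂ * L.weierstrassP y - L.g₃) w =
        4 * (3 * L.weierstrassP w ^ 2 * L.derivWeierstrassP w) -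
          L.g₂ * L.derivWeierstrassP w := by
      have h4 := (((hd1.pow 3).const_mul 4).sub (hd1.const_mul L.g₂)).sub_const L.g₃
      have := h4.deriv
      simp only [Nat.cast_ofNat, Nat.reduceSub] at this
      exact this
    rw [e1, e2] at h3
    linear_combination h3 / 2
  have ha : AnalyticAt ℂ (fun w => deriv L.derivWeierstrassP w -
      (6 * L.weierstrassP w ^ 2 + -(L.g₂ / 2))) z :=
    (wp'_an L hz).deriv.sub
      ((analyticAt_const.mul ((wp_an L hz).pow 2)).add analyticAt_const)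
  rcases (wp'_an L hz).eventually_eq_zero_or_eventually_ne_zero with h2 | h2
  · exfalso
    apply (nc_wp L).local L.meromorphic_weierstrassP z
    obtain ⟨ε, hε, hb⟩ := Metric.eventually_nhds_iff_ball.1 (h2.and (wp_nhds L hz))
    refine Metric.eventually_nhds_iff_ball.2 ⟨ε, hε, fun y hy => ?_⟩
    refine (convex_ball z ε).is_const_of_fderivWithin_eq_zero (𝕜 := ℂ) (f := L.weierstrassP)
      ?_ ?_ hy (Metric.mem_ball_self hε)
    · intro w hw
      exact (wp_an L (hb w hw).2).differentiableAt.differentiableWithinAt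
    · intro w hw
      rw [fderivWithin_of_isOpen Metric.isOpen_ball hw]
      ext
      rw [fderiv_apply_one_eq_deriv, L.deriv_weierstrassP, (hb w hw).1]
      rfl
  · have h3 : ∀ᶠ w in 𝓝[≠] z, deriv L.derivWeierstrassP w -
        (6 * L.weierstrassP w ^ 2 + -(L.g₂ / 2)) = 0 := by
      filter_upwards [h2, (wp_nhds L hz).filter_mono nhdsWithin_le_nhds] with w hw1 hw2
      exact (mul_eq_zero.1 (h1 w hw2)).resolve_left hw1
    have h4 := (ha.continuousAt.eventuallyEq_nhds_iff_eventuallyEq_nhdsNE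
      (continuousAt_const (y := (0 : ℂ)))).1 h3
    exact sub_eq_zero.1 h4.self_of_nhds

/-- values of polynomials -/
theorem pev_of_poly {q : ℕ} (P : MvPolynomial (Fin q) ℂ) {e : ℕ} (hP : P.totalDegree ≤ e) :
    ∃ c : (Fin q → Fin (e + 1)) → ℂ, ∀ v : Fin q → ℂ, eval v P = pev c v := by
  classical
  let g : (Fin q → Fin (e + 1)) → (Fin q →₀ ℕ) := fun m =>
    Finsupp.equivFunOnFinite.symm fun i => (m i : ℕ)
  have hg : ∀ m i, g m i = (m i : ℕ) := fun m i => rfl
  have hinj : Function.Injective g := by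
    intro m m' h
    funext i
    apply Fin.ext
    rw [← hg, ← hg, h]
  refine ⟨fun m => P.coeff (g m), fun v => ?_⟩
  unfold pev
  rw [eval_eq']
  have h1 : P.support ⊆ Finset.univ.image g := by
    intro m hm
    have h2 : ∀ i, m i ≤ e := by
      intro i
      have h3 := (le_totalDegree hm).trans hP
      rw [Finsupp.sum_fintype _ _ (fun _ => rfl)] at h3
      exact (Finset.single_le_sum (f := fun i => m i) (fun _ _ => Nat.zero_le _)
        (Finset.mem_univ i)).trans h3
    refine Finset.mem_image.2 ⟨fun i => ⟨m i, Nat.lt_succ_of_le (h2 i)⟩, Finset.mem_univ _, ?_⟩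
    ext i
    rfl
  rw [Finset.sum_subset h1, Finset.sum_image fun m _ m' _ h => hinj h]
  · rfl
  · intro m _ hm
    rw [notMem_support_iff.1 hm, zero_mul]

/-- the functions `℘`, `℘'` and `1 / g (℘, ℘')` -/
noncomputable def wpG (L : PeriodPair) (g : MvPolynomial (Fin 2) ℂ) (z : ℂ) : Fin 3 → ℂ :=
  ![L.weierstrassP z, L.derivWeierstrassP z,
    (eval ![L.weierstrassP z, L.derivWeierstrassP z] g)⁻¹]

variable {n : ℕ}

theorem rep_eval {p : ℙ ℂ (Fin (n + 1) → ℂ)} {v : Fin (n + 1) → ℂ} (h : Rep p v)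
    {G : MvPolynomial (Fin (n + 1)) ℂ} (hG : ∃ e, G.IsHomogeneous e) :
    eval p.rep G = 0 ↔ eval v G = 0 := by
  obtain ⟨e, he⟩ := hG
  obtain ⟨hv, rfl⟩ := h
  obtain ⟨a, ha⟩ := Projectivization.exists_smul_eq_mk_rep ℂ v hv
  have h2 : (Projectivization.mk ℂ v hv).rep = fun j => (a : ℂ) * v j := by
    rw [← ha]
    rfl
  rw [h2, eval_smul_homog he]
  constructor
  · intro h3
    exact (mul_eq_zero.1 h3).resolve_left (pow_ne_zero _ a.ne_zero)
  · intro h3
    rw [h3, mul_zero]

theorem eval_of_punct {f : ℂ → ℙ ℂ (Fin (n + 1) → ℂ)} (hf : HolMap f)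
    {G : MvPolynomial (Fin (n + 1)) ℂ} (hG : ∃ e, G.IsHomogeneous e) {a : ℂ}
    (h : ∀ᶠ z in 𝓝[≠] a, eval (f z).rep G = 0) : eval (f a).rep G = 0 := by
  have h1 : ∀ p : ℙ ℂ (Fin (n + 1) → ℂ), InV (Ideal.span {G}) p ↔ eval p.rep G = 0 := by
    intro p
    constructor
    · intro h
      exact h G (Ideal.subset_span rfl) hG
    · intro h F hF _
      obtain ⟨H, rfl⟩ := Ideal.mem_span_singleton'.1 hF
      rw [map_mul, h, mul_zero]
  rw [← h1]
  apply inV_of_punct hf
  filter_upwards [h] with z hz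
  exact (h1 _).2 hz

/-- rational curves are images of tori -/
theorem ratIn_of_torus (L : PeriodPair) {S : Set (MvPolynomial (Fin (n + 1)) ℂ)}
    {G : MvPolynomial (Fin (n + 1)) ℂ} (hS : ∀ F ∈ S, ∃ e, F.IsHomogeneous e)
    (hG : ∃ e, G.IsHomogeneous e)
    (hT : ∀ g : ℂ → ℙ ℂ (Fin (n + 1) → ℂ), HolMap g → (∀ l : L.lattice, ∀ z, g (z + l) = g z) →
      (∀ z, ∀ F ∈ S, eval (g z).rep F = 0) → (∃ z w, g z ≠ g w) → ∀ z, eval (g z).rep G = 0)
    (d : ℕ) : RatIn S G d := by
  classical
  intro p _ hp hnc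
  obtain ⟨s0, t0, i0, j0, hne⟩ := hnc
  let h : Fin (n + 1) → ℂ → ℂ := fun j z => (p j).eval (L.weierstrassP z)
  have hh : ∀ j, Meromorphic (h j) := fun j => mero_poly L.meromorphic_weierstrassP (p j)
  have hne0 : ∃ j, ¬ ∀ᶠ z in codiscrete ℂ, h j z = 0 := by
    by_contra hcon
    push Not at hcon
    have h1 : ∀ j, p j = 0 := fun j => nc_poly L.meromorphic_weierstrassP (nc_wp L) (hcon j)
    rw [h1 j0, h1 i0] at hne
    simp at hne
  obtain ⟨f, hf, hfr⟩ := codis_rep hh hne0
  have hper : ∀ l : L.lattice, ∀ z, f (z + l) = f z := by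
    intro l z
    apply holMap_ext (hf.shift (l : ℂ)) hf
    filter_upwards [codis_ev (codis_shift (l : ℂ) hfr) z, codis_ev hfr z] with y h1 h2
    have h3 : (fun j => h j (y + l)) = fun j => h j y := by
      funext j
      change (p j).eval (L.weierstrassP (y + l)) = (p j).eval (L.weierstrassP y)
      rw [L.weierstrassP_add_coe]
    rw [h3] at h1
    exact rep_eq h1 h2
  have hI : ∀ z, ∀ F ∈ S, eval (f z).rep F = 0 := by
    intro z F hF
    apply eval_of_punct hf (hS F hF)
    filter_upwards [codis_ev hfr z] with y hy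
    rw [rep_eval hy (hS F hF), ← eval_comp_poly, hp F hF, Polynomial.eval_zero]
  have hncf : ∃ z w, f z ≠ f w := by
    by_contra hcon
    push Not at hcon
    apply hne
    have h5 := prop_of_codis (p := p) L.meromorphic_weierstrassP (nc_wp L) (by
      filter_upwards [hfr] with z hz
      filter_upwards [hfr] with w hw
      intro j k
      rw [hcon w z] at hw
      exact ((rep_iff hz).1 hw).2 j k) s0 t0 i0 j0
    exact h5
  have hI' := hT f hf hper hI hncf
  apply nc_poly L.meromorphic_weierstrassP (nc_wp L)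
  filter_upwards [hfr] with z hz
  rw [eval_comp_poly]
  exact (rep_eval hz hG).1 (hI' z)

end Pool.Agent.Q139.EB
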